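import Mathlib

/-!
# Suitable weak solutions of the self-similar Fujita equation, and the cylinders

The definitions of the problem: the weight, the energy, suitable weak solutions, the regular set, the class `B_n`;
and the cylinders over the homogeneous singular solution. `ℝⁿ` is `EuclideanSpace ℝ (Fin n)`.
-/

namespace Pool.Agent.FujCyl

open Real Filter Topology MeasureTheory Module
open scoped ContDiff

/-- The weight `ρ(y) = (4π)^(-n/2) e^(-|y|²/4)` on `ℝⁿ`. -/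
noncomputable def rho (n : ℕ) (y : EuclideanSpace ℝ (Fin n)) : ℝ :=
  (4 * π) ^ (-(n : ℝ) / 2) * exp (-‖y‖ ^ 2 / 4)

/-- The positive constant solution `κ = (p-1)^(-1/(p-1))`. -/
noncomputable def kappa (p : ℝ) : ℝ := (p - 1) ^ (-1 / (p - 1))

/-- The weighted energy `E(w) = 1/2 ∫ |∇w|² ρ + 1/(2(p-1)) ∫ w² ρ - 1/(p+1) ∫ |w|^(p+1) ρ` of a function `w` with
(weak) gradient `G`. -/
noncomputable def energy (n : ℕ) (p : ℝ) (w : EuclideanSpace ℝ (Fin n) → ℝ)
    (G : EuclideanSpace ℝ (Fin n) → EuclideanSpace ℝ (Fin n)) : ℝ :=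
  1 / 2 * (∫ y, ‖G y‖ ^ 2 * rho n y) + 1 / (2 * (p - 1)) * (∫ y, w y ^ 2 * rho n y) -
    1 / (p + 1) * ∫ y, |w y| ^ (p + 1) * rho n y

/-- `w` is locally integrable with locally integrable weak gradient `G`: for every test function `η` and every
direction `v`, `∫ w ∂_v η = - ∫ (G · v) η`. -/
def IsWeakGradient {n : ℕ} (w : EuclideanSpace ℝ (Fin n) → ℝ)
    (G : EuclideanSpace ℝ (Fin n) → EuclideanSpace ℝ (Fin n)) : Prop :=
  LocallyIntegrable w ∧ LocallyIntegrable G ∧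
    ∀ η : EuclideanSpace ℝ (Fin n) → ℝ, ContDiff ℝ ∞ η → HasCompactSupport η →
      ∀ v : EuclideanSpace ℝ (Fin n), ∫ y, w y * fderiv ℝ η y v = -∫ y, inner ℝ (G y) v * η y

/-- The divergence of a vector field on `ℝⁿ`. -/
noncomputable def divergence {n : ℕ} (Y : EuclideanSpace ℝ (Fin n) → EuclideanSpace ℝ (Fin n))
    (y : EuclideanSpace ℝ (Fin n)) : ℝ :=
  ∑ i, fderiv ℝ Y y (EuclideanSpace.single i 1) i

/-- `D_Y = div Y - (Y · y)/2`. -/
noncomputable def DY {n : ℕ} (Y : EuclideanSpace ℝ (Fin n) → EuclideanSpace ℝ (Fin n))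
    (y : EuclideanSpace ℝ (Fin n)) : ℝ :=
  divergence Y y - 1 / 2 * inner ℝ (Y y) y

/-- `w`, with weak gradient `G`, is a suitable weak solution of
`Δw - y·∇w/2 - w/(p-1) + |w|^(p-1) w = 0`: the integral `∫ (|∇w|² + w² + |w|^(p+1)) e^(-|y|²/4)` is finite, and
conditions 1 and 2 of the problem hold. -/
structure Suitable (n : ℕ) (p : ℝ) (w : EuclideanSpace ℝ (Fin n) → ℝ)
    (G : EuclideanSpace ℝ (Fin n) → EuclideanSpace ℝ (Fin n)) : Prop where
  grad : IsWeakGradient w G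
  fin_grad : Integrable (fun y => ‖G y‖ ^ 2 * exp (-‖y‖ ^ 2 / 4))
  fin_sq : Integrable (fun y => w y ^ 2 * exp (-‖y‖ ^ 2 / 4))
  fin_pow : Integrable (fun y => |w y| ^ (p + 1) * exp (-‖y‖ ^ 2 / 4))
  cond1 : ∀ η : EuclideanSpace ℝ (Fin n) → ℝ, ContDiff ℝ ∞ η → HasCompactSupport η →
    ∫ y, (fderiv ℝ η y (G y) + 1 / (p - 1) * w y * η y - |w y| ^ (p - 1) * w y * η y) *
      exp (-‖y‖ ^ 2 / 4) = 0
  cond2 : ∀ Y : EuclideanSpace ℝ (Fin n) → EuclideanSpace ℝ (Fin n),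
    ContDiff ℝ ∞ Y → HasCompactSupport Y →
    0 = -(∫ y, inner ℝ (fderiv ℝ Y y (G y)) (G y) * rho n y) +
      1 / 2 * (∫ y, ‖G y‖ ^ 2 * DY Y y * rho n y) +
      1 / (2 * (p - 1)) * (∫ y, w y ^ 2 * DY Y y * rho n y) -
      1 / (p + 1) * (∫ y, |w y| ^ (p + 1) * DY Y y * rho n y)

/-- `Reg(w)`: the points with a neighbourhood on which `w` is smooth. -/
def Reg {n : ℕ} (w : EuclideanSpace ℝ (Fin n) → ℝ) : Set (EuclideanSpace ℝ (Fin n)) :=
  {y | ∀ᶠ z in 𝓝 y, ContDiffAt ℝ ∞ w z}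

/-- `w`, with weak gradient `G`, belongs to `B_n`: it is a suitable weak solution, positive on `Reg(w)`. -/
def InB (n : ℕ) (p : ℝ) (w : EuclideanSpace ℝ (Fin n) → ℝ)
    (G : EuclideanSpace ℝ (Fin n) → EuclideanSpace ℝ (Fin n)) : Prop :=
  Suitable n p w G ∧ ∀ y ∈ Reg w, 0 < w y

/-- The cylinder over the homogeneous solution in a subspace `V` of dimension `k`:
`w(y) = (θ (k - 2 - θ))^(1/(p-1)) |P y|^(-θ)` with `θ = 2/(p-1)` and `P` the orthogonal projection to `V`. -/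
noncomputable def cyl {n : ℕ} (p : ℝ) (V : Submodule ℝ (EuclideanSpace ℝ (Fin n)))
    (y : EuclideanSpace ℝ (Fin n)) : ℝ :=
  (2 / (p - 1) * (finrank ℝ V - 2 - 2 / (p - 1))) ^ (1 / (p - 1)) *
    ‖V.starProjection y‖ ^ (-(2 / (p - 1)))

/-- The quotient of the energies of the cylinder over a `k`-dimensional subspace and of the constant `κ`. -/
noncomputable def ratio (p : ℝ) (k : ℕ) : ℝ :=
  ((k : ℝ) / 2 - p / (p - 1)) ^ ((p + 1) / (p - 1)) *
    (Gamma ((k : ℝ) / 2 - (p + 1) / (p - 1)) / Gamma ((k : ℝ) / 2))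

end Pool.Agent.FujCyl
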