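import Pool.Agent.FujCyl.Weak

/-!
# The domain variation identity for the regularised functions, with its defect (helper94)
-/

open Real Filter Topology MeasureTheory Module
namespace Pool.Agent.FujCyl
variable {n : ℕ}
/-- `e^(-|y|²/4)` -/
noncomputable def ex (y : EuclideanSpace ℝ (Fin n)) : ℝ := Real.exp (-‖y‖ ^ 2 / 4)

lemma ex_hasFDerivAt (y : EuclideanSpace ℝ (Fin n)) :
    HasFDerivAt (ex (n := n)) ((ex y * (-(1 / 2))) • innerSL ℝ y) y := by
  have h1 : HasFDerivAt (fun z : EuclideanSpace ℝ (Fin n) => ‖z‖ ^ 2) (2 • (innerSL ℝ y)) y :=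
    (hasStrictFDerivAt_norm_sq y).hasFDerivAt
  have h2 := (h1.const_mul (-(1 / 4) : ℝ)).exp
  have e : (ex (n := n)) = fun z => Real.exp (-(1 / 4) * ‖z‖ ^ 2) := by
    funext z; unfold ex; congr 1; ring
  rw [e]
  refine h2.congr_fderiv ?_
  ext v
  simp
  ring

lemma ex_contDiff : ContDiff ℝ 1 (ex (n := n)) := by
  unfold ex
  exact (((contDiff_norm_sq ℝ).neg).div_const 4).exp

lemma dvg_ex (Y : EuclideanSpace ℝ (Fin n) → EuclideanSpace ℝ (Fin n)) (hY : ContDiff ℝ 1 Y)
    (y : EuclideanSpace ℝ (Fin n)) :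
    dvg (fun y => ex y • Y y) y = (dvg Y y - 1 / 2 * inner ℝ y (Y y)) * ex y := by
  have h1 : HasFDerivAt Y (fderiv ℝ Y y) y := ((hY.differentiable one_ne_zero) y).hasFDerivAt
  have h2 := (ex_hasFDerivAt y).smul h1
  have h3 : ∀ v, fderiv ℝ (fun y => ex y • Y y) y v
      = ex y • fderiv ℝ Y y v + (ex y * (-(1 / 2)) * inner ℝ y v) • Y y := by
    intro v
    have : fderiv ℝ (fun y => ex y • Y y) y = _ := h2.fderiv
    rw [this]
    rfl
  unfold dvg
  simp_rw [h3]
  have h4 : inner ℝ y (Y y) = ∑ i, y i * Y y i := by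
    rw [PiLp.inner_apply]
    refine Finset.sum_congr rfl fun i _ => ?_
    simp [mul_comm]
  have h5 : ∀ i, inner ℝ y (EuclideanSpace.single i (1 : ℝ)) = y i := by
    intro i
    simp [EuclideanSpace.inner_single_right]
  rw [h4, sub_mul, Finset.sum_mul, Finset.mul_sum, Finset.sum_mul, ← Finset.sum_sub_distrib]
  refine Finset.sum_congr rfl fun i _ => ?_
  rw [h5]
  show ex y * fderiv ℝ Y y (EuclideanSpace.single i 1) i + ex y * (-(1 / 2)) * y i * Y y i = _
  ring
lemma inner_PP (V : Submodule ℝ (EuclideanSpace ℝ (Fin n))) (y v : EuclideanSpace ℝ (Fin n)) :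
    inner ℝ (V.starProjection y) (V.starProjection v) = inner ℝ (V.starProjection y) v := by
  rw [← V.inner_starProjection_left_eq_right,
    V.starProjection_eq_self_iff.2 (V.starProjection_apply_mem y)]

/-- `(|Py|² + ε²)^a` -/
noncomputable def U (V : Submodule ℝ (EuclideanSpace ℝ (Fin n))) (ε a : ℝ)
    (y : EuclideanSpace ℝ (Fin n)) : ℝ := (‖V.starProjection y‖ ^ 2 + ε ^ 2) ^ a

lemma sq_hasFDerivAt (V : Submodule ℝ (EuclideanSpace ℝ (Fin n))) (y : EuclideanSpace ℝ (Fin n)) :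
    HasFDerivAt (fun y => ‖V.starProjection y‖ ^ 2) ((2 : ℝ) • innerSL ℝ (V.starProjection y)) y := by
  have h1 := (V.starProjection.hasFDerivAt (x := y)).norm_sq
  refine h1.congr_fderiv ?_
  ext v
  simp [inner_PP]

lemma U_hasFDerivAt (V : Submodule ℝ (EuclideanSpace ℝ (Fin n))) {ε : ℝ} (hε : 0 < ε) (a : ℝ)
    (y : EuclideanSpace ℝ (Fin n)) :
    HasFDerivAt (U V ε a) ((2 * a * U V ε (a - 1) y) • innerSL ℝ (V.starProjection y)) y := by
  have hr : ‖V.starProjection y‖ ^ 2 + ε ^ 2 ≠ 0 := by positivity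
  have h1 := (sq_hasFDerivAt V y).add_const (ε ^ 2)
  have h2 := h1.rpow_const (p := a) (Or.inl hr)
  refine h2.congr_fderiv ?_
  ext v
  simp only [U, smul_apply, smul_eq_mul]
  ring

lemma U_contDiff (V : Submodule ℝ (EuclideanSpace ℝ (Fin n))) {ε : ℝ} (hε : 0 < ε) (a : ℝ) :
    ContDiff ℝ 1 (U V ε a) := by
  unfold U
  exact ((V.starProjection.contDiff.norm_sq ℝ).add contDiff_const).rpow_const_of_ne
    (fun y => by positivity)

lemma int_cs {Y : EuclideanSpace ℝ (Fin n) → EuclideanSpace ℝ (Fin n)} (hc : HasCompactSupport Y)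
    {F : EuclideanSpace ℝ (Fin n) → ℝ} (hF : Continuous F)
    (h0 : ∀ y, Y y = 0 → fderiv ℝ Y y = 0 → F y = 0) : Integrable F := by
  refine hF.integrable_of_hasCompactSupport ?_
  refine HasCompactSupport.intro hc.isCompact fun y hy => ?_
  exact h0 y (image_eq_zero_of_notMem_tsupport hy) (fderiv_of_notMem_tsupport ℝ hy)

/-- weighted divergence -/
theorem stepA (f : EuclideanSpace ℝ (Fin n) → ℝ) (hf : ContDiff ℝ 1 f)
    (Y : EuclideanSpace ℝ (Fin n) → EuclideanSpace ℝ (Fin n)) (hY : ContDiff ℝ 1 Y)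
    (hc : HasCompactSupport Y) :
    ∫ y, f y * ((dvg Y y - 1 / 2 * inner ℝ y (Y y)) * ex y) = -∫ y, fderiv ℝ f y (Y y) * ex y := by
  have hZ : ContDiff ℝ 1 (fun y => ex y • Y y) := ex_contDiff.smul hY
  have hcZ : HasCompactSupport (fun y => ex y • Y y) := by
    refine HasCompactSupport.intro hc.isCompact fun y hy => ?_
    rw [image_eq_zero_of_notMem_tsupport hy, smul_zero]
  have h := div_field f hf _ hZ hcZ
  have e1 : ∀ y, fderiv ℝ f y (ex y • Y y) = fderiv ℝ f y (Y y) * ex y := by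
    intro y; rw [map_smul, smul_eq_mul, mul_comm]
  simp_rw [e1, dvg_ex Y hY] at h
  linarith

/-- weighted radial divergence -/
theorem stepB (V : Submodule ℝ (EuclideanSpace ℝ (Fin n)))
    (φ : EuclideanSpace ℝ (Fin n) → ℝ) (hφ : ContDiff ℝ 1 φ)
    (Y : EuclideanSpace ℝ (Fin n) → EuclideanSpace ℝ (Fin n)) (hY : ContDiff ℝ 1 Y)
    (hc : HasCompactSupport Y) :
    ∫ y, φ y * inner ℝ (fderiv ℝ Y y (V.starProjection y)) (V.starProjection y) * ex y =
      -∫ y, (((finrank ℝ V : ℝ) + 1) * φ y + fderiv ℝ φ y (V.starProjection y)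
        - 1 / 2 * ‖V.starProjection y‖ ^ 2 * φ y) * inner ℝ (V.starProjection y) (Y y) * ex y := by
  have hYc : Continuous Y := hY.continuous
  have hY'c : Continuous (fderiv ℝ Y) := hY.continuous_fderiv one_ne_zero
  have hφ'c : Continuous (fderiv ℝ φ) := hφ.continuous_fderiv one_ne_zero
  have hPc : Continuous V.starProjection := V.starProjection.continuous
  have hexc : Continuous (ex (n := n)) := ex_contDiff.continuous
  have hin : ContDiff ℝ 1 fun y => inner ℝ (V.starProjection y) (Y y) :=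
    V.starProjection.contDiff.inner ℝ hY
  have hgC : ContDiff ℝ 1 (fun y => φ y * inner ℝ (V.starProjection y) (Y y) * ex y) :=
    (hφ.mul hin).mul ex_contDiff
  have hgc : HasCompactSupport (fun y => φ y * inner ℝ (V.starProjection y) (Y y) * ex y) := by
    refine HasCompactSupport.intro hc.isCompact fun y hy => ?_
    rw [image_eq_zero_of_notMem_tsupport hy]; simp
  have h := div_radial V _ hgC hgc
  have hd : ∀ y, fderiv ℝ (fun y => φ y * inner ℝ (V.starProjection y) (Y y) * ex y) y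
        (V.starProjection y) =
      (fderiv ℝ φ y (V.starProjection y) + φ y - 1 / 2 * ‖V.starProjection y‖ ^ 2 * φ y)
          * inner ℝ (V.starProjection y) (Y y) * ex y
        + φ y * inner ℝ (fderiv ℝ Y y (V.starProjection y)) (V.starProjection y) * ex y := by
    intro y
    have h1 : HasFDerivAt Y (fderiv ℝ Y y) y := ((hY.differentiable one_ne_zero) y).hasFDerivAt
    have h2 : HasFDerivAt φ (fderiv ℝ φ y) y := ((hφ.differentiable one_ne_zero) y).hasFDerivAt
    have h3 := (h2.mul ((V.starProjection.hasFDerivAt (x := y)).inner ℝ h1)).mul (ex_hasFDerivAt y)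
    have hPP : V.starProjection (V.starProjection y) = V.starProjection y :=
      V.starProjection_eq_self_iff.2 (V.starProjection_apply_mem y)
    have hyP : inner ℝ y (V.starProjection y) = ‖V.starProjection y‖ ^ 2 := by
      rw [← real_inner_self_eq_norm_sq, inner_PP, real_inner_comm]
    have h4 : fderiv ℝ (fun y => φ y * inner ℝ (V.starProjection y) (Y y) * ex y) y = _ := h3.fderiv
    rw [h4]
    simp only [add_apply, smul_apply, smul_eq_mul, innerSL_apply_apply, hyP, Pi.mul_apply,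
      ContinuousLinearMap.comp_apply, ContinuousLinearMap.prod_apply, fderivInnerCLM_apply, hPP]
    rw [real_inner_comm (V.starProjection y) (fderiv ℝ Y y (V.starProjection y))]
    ring
  simp_rw [hd] at h
  rw [integral_add] at h
  · have h5 : ∫ y, (((finrank ℝ V : ℝ) + 1) * φ y + fderiv ℝ φ y (V.starProjection y)
        - 1 / 2 * ‖V.starProjection y‖ ^ 2 * φ y) * inner ℝ (V.starProjection y) (Y y) * ex y
        = (∫ y, (fderiv ℝ φ y (V.starProjection y) + φ y - 1 / 2 * ‖V.starProjection y‖ ^ 2 * φ y)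
          * inner ℝ (V.starProjection y) (Y y) * ex y)
          + (finrank ℝ V : ℝ) * ∫ y, φ y * inner ℝ (V.starProjection y) (Y y) * ex y := by
      rw [← integral_const_mul, ← integral_add]
      · refine integral_congr_ae (Eventually.of_forall fun y => ?_)
        ring
      · refine int_cs hc (by fun_prop) fun y h0 _ => by simp [h0]
      · refine int_cs hc (by fun_prop) fun y h0 _ => by simp [h0]
    rw [h5]
    linarith
  · refine int_cs hc (by fun_prop) fun y h0 _ => by simp [h0]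
  · refine int_cs hc (by fun_prop) fun y h0 h1 => by simp [h1]

/-- **T8.** The domain variation identity of the regularised cylinder. -/
theorem dom_var_eps (V : Submodule ℝ (EuclideanSpace ℝ (Fin n))) (c θ q ε : ℝ) (hε : 0 < ε)
    (Y : EuclideanSpace ℝ (Fin n) → EuclideanSpace ℝ (Fin n)) (hY : ContDiff ℝ 1 Y)
    (hc : HasCompactSupport Y) :
    ∫ y, ((1 / 2 * c ^ 2 * θ ^ 2 * (‖V.starProjection y‖ ^ 2 *
          (‖V.starProjection y‖ ^ 2 + ε ^ 2) ^ (-θ - 2))
        + θ / 4 * c ^ 2 * (‖V.starProjection y‖ ^ 2 + ε ^ 2) ^ (-θ)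
        - q * (‖V.starProjection y‖ ^ 2 + ε ^ 2) ^ (-θ - 1)) * (dvg Y y - 1 / 2 * inner ℝ y (Y y))
        - c ^ 2 * θ ^ 2 * (‖V.starProjection y‖ ^ 2 + ε ^ 2) ^ (-θ - 2)
          * inner ℝ (fderiv ℝ Y y (V.starProjection y)) (V.starProjection y))
        * Real.exp (-‖y‖ ^ 2 / 4)
      = ∫ y, (-(c ^ 2 * θ ^ 2 * (θ + 2)) * (‖V.starProjection y‖ ^ 2 *
          (‖V.starProjection y‖ ^ 2 + ε ^ 2) ^ (-θ - 3))
        + ((finrank ℝ V : ℝ) * c ^ 2 * θ ^ 2 - 2 * q * (θ + 1))
          * (‖V.starProjection y‖ ^ 2 + ε ^ 2) ^ (-θ - 2)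
        - 1 / 2 * c ^ 2 * θ ^ 2 * (‖V.starProjection y‖ ^ 2 *
          (‖V.starProjection y‖ ^ 2 + ε ^ 2) ^ (-θ - 2))
        + θ ^ 2 / 2 * c ^ 2 * (‖V.starProjection y‖ ^ 2 + ε ^ 2) ^ (-θ - 1))
        * inner ℝ (V.starProjection y) (Y y) * Real.exp (-‖y‖ ^ 2 / 4) := by
  have hYc : Continuous Y := hY.continuous
  have hY'c : Continuous (fderiv ℝ Y) := hY.continuous_fderiv one_ne_zero
  have hPc : Continuous V.starProjection := V.starProjection.continuous
  have hexc : Continuous (ex (n := n)) := ex_contDiff.continuous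
  have hUc : ∀ a, Continuous (U V ε a) := fun a => (U_contDiff V hε a).continuous
  set Φ : EuclideanSpace ℝ (Fin n) → ℝ := fun y =>
    1 / 2 * c ^ 2 * θ ^ 2 * (‖V.starProjection y‖ ^ 2 * U V ε (-θ - 2) y)
      + θ / 4 * c ^ 2 * U V ε (-θ) y - q * U V ε (-θ - 1) y with hΦ
  set φ : EuclideanSpace ℝ (Fin n) → ℝ := fun y => c ^ 2 * θ ^ 2 * U V ε (-θ - 2) y with hφ
  have hsq : ContDiff ℝ 1 (fun y => ‖V.starProjection y‖ ^ 2) := V.starProjection.contDiff.norm_sq ℝ
  have hΦC : ContDiff ℝ 1 Φ :=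
    ((contDiff_const.mul (hsq.mul (U_contDiff V hε _))).add
      (contDiff_const.mul (U_contDiff V hε _))).sub (contDiff_const.mul (U_contDiff V hε _))
  have hφC : ContDiff ℝ 1 φ := contDiff_const.mul (U_contDiff V hε _)
  have hdc : Continuous (dvg Y) := by
    unfold dvg
    refine continuous_finsetSum _ fun i _ => ?_
    exact (EuclideanSpace.proj (𝕜 := ℝ) i).continuous.comp (hY'c.clm_apply continuous_const)
  have dΦ : ∀ y v, fderiv ℝ Φ y v =
      (c ^ 2 * θ ^ 2 * U V ε (-θ - 2) y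
        - c ^ 2 * θ ^ 2 * (θ + 2) * (‖V.starProjection y‖ ^ 2 * U V ε (-θ - 3) y)
        - θ ^ 2 / 2 * c ^ 2 * U V ε (-θ - 1) y + 2 * q * (θ + 1) * U V ε (-θ - 2) y)
        * inner ℝ (V.starProjection y) v := by
    intro y v
    have h1 := ((((sq_hasFDerivAt V y).mul (U_hasFDerivAt V hε (-θ - 2) y)).const_mul
      (1 / 2 * c ^ 2 * θ ^ 2)).add ((U_hasFDerivAt V hε (-θ) y).const_mul (θ / 4 * c ^ 2))).sub
      ((U_hasFDerivAt V hε (-θ - 1) y).const_mul q)
    have h2 : fderiv ℝ Φ y = _ := h1.fderiv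
    rw [h2]
    simp only [sub_apply, add_apply, smul_apply, smul_eq_mul, innerSL_apply_apply]
    rw [show -θ - 2 - 1 = -θ - 3 by ring, show -θ - 1 - 1 = -θ - 2 by ring]
    ring
  have dφ : ∀ y, fderiv ℝ φ y (V.starProjection y) =
      -(2 * c ^ 2 * θ ^ 2 * (θ + 2)) * (‖V.starProjection y‖ ^ 2 * U V ε (-θ - 3) y) := by
    intro y
    have h1 := (U_hasFDerivAt V hε (-θ - 2) y).const_mul (c ^ 2 * θ ^ 2)
    have h2 : fderiv ℝ φ y = _ := h1.fderiv
    rw [h2]
    simp only [smul_apply, smul_eq_mul, innerSL_apply_apply, real_inner_self_eq_norm_sq]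
    rw [show -θ - 2 - 1 = -θ - 3 by ring]
    ring
  have A := stepA Φ hΦC Y hY hc
  have B := stepB V φ hφC Y hY hc
  simp_rw [dΦ] at A
  simp_rw [dφ] at B
  have i1 : Integrable fun y => Φ y * ((dvg Y y - 1 / 2 * inner ℝ y (Y y)) * ex y) :=
    int_cs hc (by have := hΦC.continuous; fun_prop) fun y h0 h1 => by simp [dvg, h0, h1]
  have i2 : Integrable fun y => φ y * inner ℝ (fderiv ℝ Y y (V.starProjection y))
      (V.starProjection y) * ex y :=
    int_cs hc (by have := hφC.continuous; fun_prop) fun y h0 h1 => by simp [h1]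
  have L : ∫ y, ((1 / 2 * c ^ 2 * θ ^ 2 * (‖V.starProjection y‖ ^ 2 *
          (‖V.starProjection y‖ ^ 2 + ε ^ 2) ^ (-θ - 2))
        + θ / 4 * c ^ 2 * (‖V.starProjection y‖ ^ 2 + ε ^ 2) ^ (-θ)
        - q * (‖V.starProjection y‖ ^ 2 + ε ^ 2) ^ (-θ - 1)) * (dvg Y y - 1 / 2 * inner ℝ y (Y y))
        - c ^ 2 * θ ^ 2 * (‖V.starProjection y‖ ^ 2 + ε ^ 2) ^ (-θ - 2)
          * inner ℝ (fderiv ℝ Y y (V.starProjection y)) (V.starProjection y))
        * Real.exp (-‖y‖ ^ 2 / 4)
      = (∫ y, Φ y * ((dvg Y y - 1 / 2 * inner ℝ y (Y y)) * ex y))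
        - ∫ y, φ y * inner ℝ (fderiv ℝ Y y (V.starProjection y)) (V.starProjection y) * ex y := by
    rw [← integral_sub i1 i2]
    refine integral_congr_ae (Eventually.of_forall fun y => ?_)
    simp only [hΦ, hφ, U, ex]
    ring
  rw [L, A, B, sub_neg_eq_add, neg_add_eq_sub, ← integral_sub]
  · refine integral_congr_ae (Eventually.of_forall fun y => ?_)
    simp only [hφ, U, ex]
    ring
  · refine int_cs hc (by have := hφC.continuous; fun_prop) fun y h0 _ => by simp [h0]
  · refine int_cs hc (by fun_prop) fun y h0 _ => by simp [h0]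

end Pool.Agent.FujCyl
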