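import Pool.Agent.FujCyl.Join
import Pool.Agent.FujCyl.DomEps

/-!
# Condition 2 for the cylinders

`odd_zero` is by helper11.
-/

namespace Pool.Agent.FujCyl

open Real Filter Topology MeasureTheory Module
open scoped ContDiff

theorem odd_zero {n : ℕ} (V : Submodule ℝ (EuclideanSpace ℝ (Fin n))) (h : ℝ → ℝ)
    (Y : EuclideanSpace ℝ (Fin n) → EuclideanSpace ℝ (Fin n)) :
    ∫ y : EuclideanSpace ℝ (Fin n), h (‖V.starProjection y‖ ^ 2) *
      inner ℝ (V.starProjection y) (Y (Vᗮ.starProjection y)) * Real.exp (-‖y‖ ^ 2 / 4) = 0 := by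
  set f : EuclideanSpace ℝ (Fin n) → ℝ := fun y => h (‖V.starProjection y‖ ^ 2) *
    inner ℝ (V.starProjection y) (Y (Vᗮ.starProjection y)) * Real.exp (-‖y‖ ^ 2 / 4) with hf
  have h1 : ∫ y, f (Vᗮ.reflection y) = ∫ y, f y :=
    (Vᗮ.reflection).measurePreserving.integral_comp
      (Vᗮ.reflection).toHomeomorph.measurableEmbedding f
  have hP : ∀ y, V.starProjection (Vᗮ.reflection y) = -V.starProjection y := by
    intro y
    rw [Submodule.reflection_apply, map_sub, map_nsmul]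
    have : V.starProjection (Vᗮ.starProjection y) = 0 :=
      (Submodule.starProjection_apply_eq_zero_iff V).2 (Vᗮ.starProjection_apply_mem y)
    rw [this, smul_zero, zero_sub]
  have hQ : ∀ y, Vᗮ.starProjection (Vᗮ.reflection y) = Vᗮ.starProjection y := by
    intro y
    rw [Submodule.reflection_apply, map_sub, map_nsmul]
    have : Vᗮ.starProjection (Vᗮ.starProjection y) = Vᗮ.starProjection y :=
      (Submodule.starProjection_eq_self_iff).2 (Vᗮ.starProjection_apply_mem y)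
    rw [this, two_smul, add_sub_cancel_right]
  have h2 : ∀ y, f (Vᗮ.reflection y) = - f y := by
    intro y
    simp only [hf, hP, hQ, norm_neg, inner_neg_left, LinearIsometryEquiv.norm_map]
    ring
  simp_rw [h2] at h1
  rw [integral_neg] at h1
  linarith

theorem diff_bound {n : ℕ} (V : Submodule ℝ (EuclideanSpace ℝ (Fin n)))
    {Y : EuclideanSpace ℝ (Fin n) → EuclideanSpace ℝ (Fin n)} (hY : ContDiff ℝ ∞ Y)
    (hc : HasCompactSupport Y) : ∃ K : ℝ, 0 ≤ K ∧ ∀ y,
      |inner ℝ (V.starProjection y) (Y y - Y (Vᗮ.starProjection y))| ≤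
        K * ‖V.starProjection y‖ ^ 2 := by
  obtain ⟨C, hC⟩ := hY.lipschitzWith_of_hasCompactSupport hc (by simp)
  refine ⟨C, C.2, fun y => ?_⟩
  have h1 : y - Vᗮ.starProjection y = V.starProjection y := by
    rw [sub_eq_iff_eq_add]
    exact (V.starProjection_add_starProjection_orthogonal y).symm
  have h2 : ‖Y y - Y (Vᗮ.starProjection y)‖ ≤ C * ‖V.starProjection y‖ := by
    have := hC.dist_le_mul y (Vᗮ.starProjection y)
    rwa [dist_eq_norm, dist_eq_norm, h1] at this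
  calc |inner ℝ (V.starProjection y) (Y y - Y (Vᗮ.starProjection y))|
      ≤ ‖V.starProjection y‖ * ‖Y y - Y (Vᗮ.starProjection y)‖ := abs_real_inner_le_norm _ _
    _ ≤ ‖V.starProjection y‖ * (C * ‖V.starProjection y‖) :=
        mul_le_mul_of_nonneg_left h2 (norm_nonneg _)
    _ = C * ‖V.starProjection y‖ ^ 2 := by ring

theorem bd0 (C : ℝ) {K x : ℝ} (h : |x| ≤ K) : |C * x| ≤ |C| * K := by
  rw [abs_mul]
  exact mul_le_mul_of_nonneg_left h (abs_nonneg C)

theorem bdm (C r : ℝ) {K x : ℝ} (h : |x| ≤ K * r ^ 2) : |C * x| ≤ |C| * K * r ^ 2 := by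
  have := bd0 C h
  linarith

theorem bd4 (C r : ℝ) {K x : ℝ} (h : |x| ≤ K * r ^ 2) : |C * (r ^ 2 * x)| ≤ |C| * K * r ^ 4 := by
  have h1 := bd2 C r h
  calc _ ≤ _ := h1
    _ = _ := by ring

/-- The limit of the domain variation identity. -/
theorem dom_lim {n : ℕ} (V : Submodule ℝ (EuclideanSpace ℝ (Fin n))) (hP : Pw V) (hN : Ne V)
    {c θ q : ℝ} (hθ : 0 < θ) (hk : 2 * θ + 2 < finrank ℝ V)
    (hq : (finrank ℝ V : ℝ) * c ^ 2 * θ ^ 2 - 2 * q * (θ + 1) = c ^ 2 * θ ^ 2 * (θ + 2))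
    {Y : EuclideanSpace ℝ (Fin n) → EuclideanSpace ℝ (Fin n)} (hY : ContDiff ℝ ∞ Y)
    (hc : HasCompactSupport Y) :
    (∫ y, (‖V.starProjection y‖ ^ 2 + 0 ^ 2) ^ (-θ - 2) * (1 / 2 * c ^ 2 * θ ^ 2 *
        (‖V.starProjection y‖ ^ 2 * (dvg Y y - 1 / 2 * inner ℝ y (Y y)))) * exp (-‖y‖ ^ 2 / 4)) +
      (∫ y, (‖V.starProjection y‖ ^ 2 + 0 ^ 2) ^ (-θ) * (θ / 4 * c ^ 2 *
        (dvg Y y - 1 / 2 * inner ℝ y (Y y))) * exp (-‖y‖ ^ 2 / 4)) +
      (∫ y, (‖V.starProjection y‖ ^ 2 + 0 ^ 2) ^ (-θ - 1) * (-q *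
        (dvg Y y - 1 / 2 * inner ℝ y (Y y))) * exp (-‖y‖ ^ 2 / 4)) +
      (∫ y, (‖V.starProjection y‖ ^ 2 + 0 ^ 2) ^ (-θ - 2) * (-(c ^ 2 * θ ^ 2) *
        inner ℝ (fderiv ℝ Y y (V.starProjection y)) (V.starProjection y)) *
          exp (-‖y‖ ^ 2 / 4)) = 0 := by
  have hY1 : ContDiff ℝ 1 Y := hY.of_le (by simp)
  have hf' : Continuous (fderiv ℝ Y) := hY.continuous_fderiv (by simp)
  set D : EuclideanSpace ℝ (Fin n) → ℝ := fun y => dvg Y y - 1 / 2 * inner ℝ y (Y y) with hD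
  have cdvg : Continuous (dvg Y) := by
    unfold dvg
    refine continuous_finset_sum _ fun i _ => ?_
    have : Continuous (fun y => fderiv ℝ Y y (EuclideanSpace.single i 1)) :=
      hf'.clm_apply continuous_const
    exact (EuclideanSpace.proj i : EuclideanSpace ℝ (Fin n) →L[ℝ] ℝ).continuous.comp this
  have cD : Continuous D := by
    have := hY.continuous
    rw [hD]
    fun_prop
  have hDc : HasCompactSupport D := by
    refine HasCompactSupport.intro (K := tsupport Y) hc fun y hy => ?_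
    have h1 : fderiv ℝ Y y = 0 := fderiv_of_notMem_tsupport ℝ hy
    have h2 : Y y = 0 := image_eq_zero_of_notMem_tsupport hy
    rw [hD]
    dsimp only
    unfold dvg
    rw [h1, h2]
    simp
  obtain ⟨KD, hKD, bD⟩ := bdd_of_compact cD hDc
  obtain ⟨K1, hK1⟩ := hf'.bounded_above_of_compact_support (hc.fderiv (𝕜 := ℝ))
  obtain ⟨K, hK, bF⟩ := diff_bound V hY hc
  have cP : Continuous (fun y : EuclideanSpace ℝ (Fin n) => V.starProjection y) :=
    V.starProjection.continuous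
  have cS : Continuous (fun y => inner ℝ (fderiv ℝ Y y (V.starProjection y)) (V.starProjection y)) :=
    (hf'.clm_apply cP).inner cP
  have cF : Continuous (fun y => inner ℝ (V.starProjection y) (Y y - Y (Vᗮ.starProjection y))) := by
    have h1 := hY.continuous
    have h2 : Continuous (fun y : EuclideanSpace ℝ (Fin n) => Vᗮ.starProjection y) :=
      Vᗮ.starProjection.continuous
    exact cP.inner (h1.sub (h1.comp h2))
  have bS : ∀ y, |inner ℝ (fderiv ℝ Y y (V.starProjection y)) (V.starProjection y)| ≤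
      K1 * ‖V.starProjection y‖ ^ 2 := by
    intro y
    calc _ ≤ ‖fderiv ℝ Y y (V.starProjection y)‖ * ‖V.starProjection y‖ :=
          abs_real_inner_le_norm _ _
      _ ≤ (K1 * ‖V.starProjection y‖) * ‖V.starProjection y‖ := by
          refine mul_le_mul_of_nonneg_right ?_ (norm_nonneg _)
          exact ((fderiv ℝ Y y).le_opNorm _).trans
            (mul_le_mul_of_nonneg_right (hK1 y) (norm_nonneg _))
      _ = _ := by ring
  set k : ℝ := (finrank ℝ V : ℝ) with hkdef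
  -- the left hand side
  have G1 := good_term V hP hN (-θ - 2) 2 (|1 / 2 * c ^ 2 * θ ^ 2| * KD) (by linarith)
    (by push_cast; linarith)
    (F := fun y => 1 / 2 * c ^ 2 * θ ^ 2 * (‖V.starProjection y‖ ^ 2 * D y)) (by fun_prop)
    (fun y => bd2 _ _ (bD y))
  have G2 := good_term V hP hN (-θ) 0 (|θ / 4 * c ^ 2| * KD) (by linarith)
    (by push_cast; linarith)
    (F := fun y => θ / 4 * c ^ 2 * D y) (by fun_prop) (fun y => by
      rw [pow_zero, mul_one]
      exact bd0 _ (bD y))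
  have G3 := good_term V hP hN (-θ - 1) 0 (|-q| * KD) (by linarith)
    (by push_cast; linarith)
    (F := fun y => -q * D y) (by fun_prop) (fun y => by
      rw [pow_zero, mul_one]
      exact bd0 _ (bD y))
  have G4 := good_term V hP hN (-θ - 2) 2 (|-(c ^ 2 * θ ^ 2)| * K1) (by linarith)
    (by push_cast; linarith)
    (F := fun y => -(c ^ 2 * θ ^ 2) *
      inner ℝ (fderiv ℝ Y y (V.starProjection y)) (V.starProjection y))
    (continuous_const.mul cS) (fun y => bdm _ _ (bS y))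
  -- the right hand side
  have R1 := good_term V hP hN (-θ - 3) 4 (|c ^ 2 * θ ^ 2 * (θ + 2)| * K) (by linarith)
    (by push_cast; linarith)
    (F := fun y => c ^ 2 * θ ^ 2 * (θ + 2) * (‖V.starProjection y‖ ^ 2 *
      inner ℝ (V.starProjection y) (Y y - Y (Vᗮ.starProjection y)))) (by fun_prop)
    (fun y => bd4 _ _ (bF y))
  have R2 := good_term V hP hN (-θ - 2) 2 (|-(k * c ^ 2 * θ ^ 2 - 2 * q * (θ + 1))| * K) (by linarith)
    (by push_cast; linarith)
    (F := fun y => -(k * c ^ 2 * θ ^ 2 - 2 * q * (θ + 1)) *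
      inner ℝ (V.starProjection y) (Y y - Y (Vᗮ.starProjection y))) (continuous_const.mul cF)
    (fun y => bdm _ _ (bF y))
  have R3 := good_term V hP hN (-θ - 2) 4 (|1 / 2 * c ^ 2 * θ ^ 2| * K) (by linarith)
    (by push_cast; linarith)
    (F := fun y => 1 / 2 * c ^ 2 * θ ^ 2 * (‖V.starProjection y‖ ^ 2 *
      inner ℝ (V.starProjection y) (Y y - Y (Vᗮ.starProjection y)))) (by fun_prop)
    (fun y => bd4 _ _ (bF y))
  have R4 := good_term V hP hN (-θ - 1) 2 (|-(θ ^ 2 / 2 * c ^ 2)| * K) (by linarith)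
    (by push_cast; linarith)
    (F := fun y => -(θ ^ 2 / 2 * c ^ 2) *
      inner ℝ (V.starProjection y) (Y y - Y (Vᗮ.starProjection y))) (continuous_const.mul cF)
    (fun y => bdm _ _ (bF y))
  have GA := ((G1.add G2).add G3).add G4
  have GB := ((R1.add R2).add R3).add R4
  have H := (GA.add GB).eq_zero ?_
  · rw [integral_add (GA.1 0) (GB.1 0), integral_add (((G1.add G2).add G3).1 0) (G4.1 0),
      integral_add ((G1.add G2).1 0) (G3.1 0), integral_add (G1.1 0) (G2.1 0)] at H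
    have hz : ∫ y, ((‖V.starProjection y‖ ^ 2 + 0 ^ 2) ^ (-θ - 3) * (c ^ 2 * θ ^ 2 * (θ + 2) *
        (‖V.starProjection y‖ ^ 2 *
          inner ℝ (V.starProjection y) (Y y - Y (Vᗮ.starProjection y)))) * exp (-‖y‖ ^ 2 / 4) +
        (‖V.starProjection y‖ ^ 2 + 0 ^ 2) ^ (-θ - 2) *
          (-(k * c ^ 2 * θ ^ 2 - 2 * q * (θ + 1)) *
            inner ℝ (V.starProjection y) (Y y - Y (Vᗮ.starProjection y))) * exp (-‖y‖ ^ 2 / 4) +
        (‖V.starProjection y‖ ^ 2 + 0 ^ 2) ^ (-θ - 2) * (1 / 2 * c ^ 2 * θ ^ 2 *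
          (‖V.starProjection y‖ ^ 2 *
            inner ℝ (V.starProjection y) (Y y - Y (Vᗮ.starProjection y)))) * exp (-‖y‖ ^ 2 / 4) +
        (‖V.starProjection y‖ ^ 2 + 0 ^ 2) ^ (-θ - 1) * (-(θ ^ 2 / 2 * c ^ 2) *
          inner ℝ (V.starProjection y) (Y y - Y (Vᗮ.starProjection y))) *
            exp (-‖y‖ ^ 2 / 4)) = 0 := by
      refine integral_eq_zero_of_ae ?_
      filter_upwards [hN] with y hy
      have h0 : 0 < ‖V.starProjection y‖ ^ 2 := by positivity
      have e1 : (‖V.starProjection y‖ ^ 2) ^ (-θ - 2) =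
          (‖V.starProjection y‖ ^ 2) ^ (-θ - 3) * ‖V.starProjection y‖ ^ 2 := by
        rw [← rpow_add_one h0.ne']
        congr 1
        ring
      have e2 : (‖V.starProjection y‖ ^ 2) ^ (-θ - 1) =
          (‖V.starProjection y‖ ^ 2) ^ (-θ - 3) * ‖V.starProjection y‖ ^ 2 *
            ‖V.starProjection y‖ ^ 2 := by
        rw [← rpow_add_one h0.ne', ← rpow_add_one h0.ne']
        congr 1
        ring
      simp only [ne_eq, OfNat.ofNat_ne_zero, not_false_eq_true, zero_pow, add_zero, Pi.zero_apply]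
      rw [hq, e1, e2]
      ring
    linarith
  · intro ε hε
    rw [integral_add (GA.1 ε) (GB.1 ε)]
    have hmain := dom_var_eps V c θ q ε hε Y hY1 hc
    set B : ℝ → ℝ := fun s => -(c ^ 2 * θ ^ 2 * (θ + 2)) * (s * (s + ε ^ 2) ^ (-θ - 3)) +
      (k * c ^ 2 * θ ^ 2 - 2 * q * (θ + 1)) * (s + ε ^ 2) ^ (-θ - 2) -
      1 / 2 * c ^ 2 * θ ^ 2 * (s * (s + ε ^ 2) ^ (-θ - 2)) +
      θ ^ 2 / 2 * c ^ 2 * (s + ε ^ 2) ^ (-θ - 1) with hB
    have hodd := odd_zero V B Y
    have cT : ∀ b : ℝ, Continuous (fun y : EuclideanSpace ℝ (Fin n) =>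
        (‖V.starProjection y‖ ^ 2 + ε ^ 2) ^ b) := fun b => (contDiff_T V b ε hε).continuous
    have c1 := cT (-θ - 3)
    have c2 := cT (-θ - 2)
    have c3 := cT (-θ - 1)
    have cB : Continuous (fun y : EuclideanSpace ℝ (Fin n) => B (‖V.starProjection y‖ ^ 2)) := by
      rw [hB]
      fun_prop
    have iY : Integrable (fun y => B (‖V.starProjection y‖ ^ 2) *
        inner ℝ (V.starProjection y) (Y y) * exp (-‖y‖ ^ 2 / 4)) := by
      have cc : Continuous (fun y => B (‖V.starProjection y‖ ^ 2) *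
          inner ℝ (V.starProjection y) (Y y) * exp (-‖y‖ ^ 2 / 4)) :=
        (cB.mul (cP.inner hY.continuous)).mul (by fun_prop)
      refine cc.integrable_of_hasCompactSupport ?_
      refine HasCompactSupport.intro (K := tsupport Y) hc fun y hy => ?_
      rw [image_eq_zero_of_notMem_tsupport hy]
      simp
    have iR : Integrable (fun y => -(B (‖V.starProjection y‖ ^ 2) *
        inner ℝ (V.starProjection y) (Y y - Y (Vᗮ.starProjection y)) * exp (-‖y‖ ^ 2 / 4))) := by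
      refine (GB.1 ε).congr (Eventually.of_forall fun y => ?_)
      rw [hB]
      dsimp only
      ring
    have iQ : Integrable (fun y => B (‖V.starProjection y‖ ^ 2) *
        inner ℝ (V.starProjection y) (Y (Vᗮ.starProjection y)) * exp (-‖y‖ ^ 2 / 4)) := by
      refine (iY.add iR).congr (Eventually.of_forall fun y => ?_)
      simp only [Pi.add_apply, inner_sub_right]
      ring
    have e1 : ∫ y, B (‖V.starProjection y‖ ^ 2) *
        inner ℝ (V.starProjection y) (Y y) * exp (-‖y‖ ^ 2 / 4) =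
        -∫ y, -(B (‖V.starProjection y‖ ^ 2) *
        inner ℝ (V.starProjection y) (Y y - Y (Vᗮ.starProjection y)) * exp (-‖y‖ ^ 2 / 4)) := by
      rw [← integral_neg]
      have : ∫ y, (B (‖V.starProjection y‖ ^ 2) *
          inner ℝ (V.starProjection y) (Y y) * exp (-‖y‖ ^ 2 / 4) +
          -(B (‖V.starProjection y‖ ^ 2) *
          inner ℝ (V.starProjection y) (Y y - Y (Vᗮ.starProjection y)) *
            exp (-‖y‖ ^ 2 / 4))) = 0 := by
        rw [← hodd]
        refine integral_congr_ae (Eventually.of_forall fun y => ?_)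
        simp only [inner_sub_right]
        ring
      rw [integral_add iY iR, integral_neg] at this
      rw [integral_neg, integral_neg]
      linarith
    have e2 : ∫ y, (((‖V.starProjection y‖ ^ 2 + ε ^ 2) ^ (-θ - 3) * (c ^ 2 * θ ^ 2 * (θ + 2) *
        (‖V.starProjection y‖ ^ 2 *
          inner ℝ (V.starProjection y) (Y y - Y (Vᗮ.starProjection y)))) * exp (-‖y‖ ^ 2 / 4) +
        (‖V.starProjection y‖ ^ 2 + ε ^ 2) ^ (-θ - 2) *
          (-(k * c ^ 2 * θ ^ 2 - 2 * q * (θ + 1)) *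
            inner ℝ (V.starProjection y) (Y y - Y (Vᗮ.starProjection y))) * exp (-‖y‖ ^ 2 / 4)) +
        (‖V.starProjection y‖ ^ 2 + ε ^ 2) ^ (-θ - 2) * (1 / 2 * c ^ 2 * θ ^ 2 *
          (‖V.starProjection y‖ ^ 2 *
            inner ℝ (V.starProjection y) (Y y - Y (Vᗮ.starProjection y)))) * exp (-‖y‖ ^ 2 / 4)) +
        (‖V.starProjection y‖ ^ 2 + ε ^ 2) ^ (-θ - 1) * (-(θ ^ 2 / 2 * c ^ 2) *
          inner ℝ (V.starProjection y) (Y y - Y (Vᗮ.starProjection y))) *
            exp (-‖y‖ ^ 2 / 4) = ∫ y, -(B (‖V.starProjection y‖ ^ 2) *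
        inner ℝ (V.starProjection y) (Y y - Y (Vᗮ.starProjection y)) * exp (-‖y‖ ^ 2 / 4)) := by
      refine integral_congr_ae (Eventually.of_forall fun y => ?_)
      rw [hB]
      dsimp only
      ring
    have e3 : ∫ y, (((‖V.starProjection y‖ ^ 2 + ε ^ 2) ^ (-θ - 2) * (1 / 2 * c ^ 2 * θ ^ 2 *
        (‖V.starProjection y‖ ^ 2 * D y)) * exp (-‖y‖ ^ 2 / 4) +
        (‖V.starProjection y‖ ^ 2 + ε ^ 2) ^ (-θ) * (θ / 4 * c ^ 2 * D y) *
          exp (-‖y‖ ^ 2 / 4)) +
        (‖V.starProjection y‖ ^ 2 + ε ^ 2) ^ (-θ - 1) * (-q * D y) * exp (-‖y‖ ^ 2 / 4)) +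
        (‖V.starProjection y‖ ^ 2 + ε ^ 2) ^ (-θ - 2) * (-(c ^ 2 * θ ^ 2) *
        inner ℝ (fderiv ℝ Y y (V.starProjection y)) (V.starProjection y)) *
          exp (-‖y‖ ^ 2 / 4) = ∫ y, B (‖V.starProjection y‖ ^ 2) *
        inner ℝ (V.starProjection y) (Y y) * exp (-‖y‖ ^ 2 / 4) := by
      rw [hB]
      dsimp only
      rw [← hmain]
      refine integral_congr_ae (Eventually.of_forall fun y => ?_)
      rw [hD]
      dsimp only
      ring
    rw [e2, e3, e1]
    ring

end Pool.Agent.FujCyl
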