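import Pool.Agent.FujCyl.Dom

/-!
# The cylinders belong to `B_n`
-/

namespace Pool.Agent.FujCyl

open Real Filter Topology MeasureTheory Module
open scoped ContDiff

section
variable {n : ℕ} {p : ℝ} (hp : 1 < p) (V : Submodule ℝ (EuclideanSpace ℝ (Fin n)))
  (hV : 2 * (p + 1) < finrank ℝ V * (p - 1))

include hp hV

/-- Condition 2 for the cylinder. -/
theorem cyl_cond2 {Y : EuclideanSpace ℝ (Fin n) → EuclideanSpace ℝ (Fin n)}
    (hY : ContDiff ℝ ∞ Y) (hYc : HasCompactSupport Y) :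
    0 = -(∫ y, inner ℝ (fderiv ℝ Y y (gradient (cyl p V) y)) (gradient (cyl p V) y) * rho n y) +
      1 / 2 * (∫ y, ‖gradient (cyl p V) y‖ ^ 2 * DY Y y * rho n y) +
      1 / (2 * (p - 1)) * (∫ y, cyl p V y ^ 2 * DY Y y * rho n y) -
      1 / (p + 1) * (∫ y, |cyl p V y| ^ (p + 1) * DY Y y * rho n y) := by
  have hp1 : 0 < p - 1 := by linarith
  have hp2 : 0 < p + 1 := by linarith
  have hV0 := dim_pos hp V hV
  have hlt := dim_lt hp V hV
  have hP := pw V hV0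
  have hN := ae_ne V hV0
  set θ := 2 / (p - 1) with hθ
  have hθ0 : 0 < θ := by positivity
  set c := (θ * ((finrank ℝ V : ℝ) - 2 - θ)) ^ (1 / (p - 1)) with hc
  have hb : 0 < θ * ((finrank ℝ V : ℝ) - 2 - θ) := mul_pos hθ0 (by linarith)
  have hc0 : 0 < c := rpow_pos_of_pos hb _
  have hw : cyl p V = fun y => c * ‖V.starProjection y‖ ^ (-θ) := rfl
  have hθp : θ * (p + 1) = 2 * θ + 2 := by
    rw [hθ]
    field_simp
    ring
  have hcp : c ^ (p + 1) = c ^ 2 * (θ * ((finrank ℝ V : ℝ) - 2 - θ)) := by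
    rw [show p + 1 = 2 + (p - 1) by ring, rpow_add hc0, rpow_two]
    congr 1
    rw [hc, ← rpow_mul hb.le, div_mul_cancel₀ _ hp1.ne', rpow_one]
  have hq : (finrank ℝ V : ℝ) * c ^ 2 * θ ^ 2 - 2 * (c ^ (p + 1) / (p + 1)) * (θ + 1) =
      c ^ 2 * θ ^ 2 * (θ + 2) := by
    have h1 : 2 * (c ^ (p + 1) / (p + 1)) * (θ + 1) =
        c ^ 2 * (θ * ((finrank ℝ V : ℝ) - 2 - θ)) * θ := by
      have h2 : (2 * θ + 2) / (p + 1) = θ := by
        rw [← hθp, mul_div_assoc, div_self hp2.ne', mul_one]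
      rw [hcp]
      calc _ = c ^ 2 * (θ * ((finrank ℝ V : ℝ) - 2 - θ)) * ((2 * θ + 2) / (p + 1)) := by ring
        _ = _ := by rw [h2]
    rw [h1]
    ring
  have H := dom_lim V hP hN (c := c) (q := c ^ (p + 1) / (p + 1)) hθ0 hlt hq hY hYc
  have hD : ∀ y, DY Y y = dvg Y y - 1 / 2 * inner ℝ y (Y y) := by
    intro y
    rw [DY, real_inner_comm]
    rfl
  set r0 : ℝ := (4 * π) ^ (-(n : ℝ) / 2) with hr0
  have hrho : ∀ y : EuclideanSpace ℝ (Fin n), rho n y = r0 * exp (-‖y‖ ^ 2 / 4) := fun y => rfl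
  have hg : ∀ y : EuclideanSpace ℝ (Fin n), V.starProjection y ≠ 0 → gradient (cyl p V) y =
      (-(c * θ) * ‖V.starProjection y‖ ^ (-θ - 2)) • V.starProjection y := fun y hy =>
    gradient_cyl p V y hy
  have pwr : ∀ (y : EuclideanSpace ℝ (Fin n)) (b : ℝ),
      (‖V.starProjection y‖ ^ 2 + 0 ^ 2) ^ b = ‖V.starProjection y‖ ^ (2 * b) := by
    intro y b
    rw [show ‖V.starProjection y‖ ^ 2 + 0 ^ 2 = ‖V.starProjection y‖ ^ 2 by ring,
      ← rpow_natCast _ 2, ← rpow_mul (norm_nonneg _)]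
    norm_num
  have A1 : ∫ y, ‖gradient (cyl p V) y‖ ^ 2 * DY Y y * rho n y = (2 * r0) *
      ∫ y, (‖V.starProjection y‖ ^ 2 + 0 ^ 2) ^ (-θ - 2) * (1 / 2 * c ^ 2 * θ ^ 2 *
        (‖V.starProjection y‖ ^ 2 * (dvg Y y - 1 / 2 * inner ℝ y (Y y)))) *
          exp (-‖y‖ ^ 2 / 4) := by
    rw [← integral_const_mul]
    refine integral_congr_ae ?_
    filter_upwards [hN] with y hy
    have h0 : 0 < ‖V.starProjection y‖ := norm_pos_iff.2 hy
    have e1 : ‖V.starProjection y‖ ^ (2 * (-θ - 2)) =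
        (‖V.starProjection y‖ ^ (-θ - 2)) ^ 2 := by
      rw [← rpow_natCast (_ ^ (-θ - 2)) 2, ← rpow_mul h0.le]
      congr 1
      push_cast
      ring
    rw [hg y hy, norm_smul, norm_mul, norm_neg, norm_of_nonneg (mul_pos hc0 hθ0).le,
      norm_of_nonneg (rpow_nonneg h0.le _), hD, hrho, pwr, e1]
    ring
  have A2 : ∫ y, cyl p V y ^ 2 * DY Y y * rho n y = (4 / θ * r0) *
      ∫ y, (‖V.starProjection y‖ ^ 2 + 0 ^ 2) ^ (-θ) * (θ / 4 * c ^ 2 *
        (dvg Y y - 1 / 2 * inner ℝ y (Y y))) * exp (-‖y‖ ^ 2 / 4) := by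
    rw [← integral_const_mul]
    refine integral_congr_ae ?_
    filter_upwards [hN] with y hy
    have h0 : 0 < ‖V.starProjection y‖ := norm_pos_iff.2 hy
    have e1 : ‖V.starProjection y‖ ^ (2 * (-θ)) = (‖V.starProjection y‖ ^ (-θ)) ^ 2 := by
      rw [← rpow_natCast (_ ^ (-θ)) 2, ← rpow_mul h0.le]
      congr 1
      push_cast
      ring
    rw [hw, hD, hrho, pwr, e1]
    field_simp
  have A3 : ∫ y, |cyl p V y| ^ (p + 1) * DY Y y * rho n y = (-(p + 1) * r0) *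
      ∫ y, (‖V.starProjection y‖ ^ 2 + 0 ^ 2) ^ (-θ - 1) * (-(c ^ (p + 1) / (p + 1)) *
        (dvg Y y - 1 / 2 * inner ℝ y (Y y))) * exp (-‖y‖ ^ 2 / 4) := by
    rw [← integral_const_mul]
    refine integral_congr_ae ?_
    filter_upwards [hN] with y hy
    have h0 : 0 < ‖V.starProjection y‖ := norm_pos_iff.2 hy
    have e1 : |cyl p V y| ^ (p + 1) = c ^ (p + 1) * ‖V.starProjection y‖ ^ (2 * (-θ - 1)) := by
      rw [hw]
      dsimp only
      rw [abs_of_pos (by positivity), mul_rpow hc0.le (by positivity), ← rpow_mul h0.le, neg_mul,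
        hθp]
      congr 2
      ring
    rw [e1, hD, hrho, pwr]
    field_simp
  have A4 : ∫ y, inner ℝ (fderiv ℝ Y y (gradient (cyl p V) y)) (gradient (cyl p V) y) * rho n y =
      (-r0) * ∫ y, (‖V.starProjection y‖ ^ 2 + 0 ^ 2) ^ (-θ - 2) * (-(c ^ 2 * θ ^ 2) *
        inner ℝ (fderiv ℝ Y y (V.starProjection y)) (V.starProjection y)) *
          exp (-‖y‖ ^ 2 / 4) := by
    rw [← integral_const_mul]
    refine integral_congr_ae ?_
    filter_upwards [hN] with y hy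
    have h0 : 0 < ‖V.starProjection y‖ := norm_pos_iff.2 hy
    have e1 : ‖V.starProjection y‖ ^ (2 * (-θ - 2)) =
        (‖V.starProjection y‖ ^ (-θ - 2)) ^ 2 := by
      rw [← rpow_natCast (_ ^ (-θ - 2)) 2, ← rpow_mul h0.le]
      congr 1
      push_cast
      ring
    rw [hg y hy, map_smul, real_inner_smul_left, real_inner_smul_right, hrho, pwr, e1]
    ring
  rw [A1, A2, A3, A4]
  have d0 : 1 / (2 * (p - 1)) = θ / 4 := by rw [hθ]; field_simp; norm_num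
  have d1 : 1 / (2 * (p - 1)) * (4 / θ * r0) = r0 := by
    rw [d0]
    field_simp
  have d2 : 1 / (p + 1) * (-(p + 1) * r0) = -r0 := by
    field_simp
  linear_combination (-r0) * H - (∫ y, (‖V.starProjection y‖ ^ 2 + 0 ^ 2) ^ (-θ) *
    (θ / 4 * c ^ 2 * (dvg Y y - 1 / 2 * inner ℝ y (Y y))) * exp (-‖y‖ ^ 2 / 4)) * d1 +
    (∫ y, (‖V.starProjection y‖ ^ 2 + 0 ^ 2) ^ (-θ - 1) * (-(c ^ (p + 1) / (p + 1)) *
        (dvg Y y - 1 / 2 * inner ℝ y (Y y))) * exp (-‖y‖ ^ 2 / 4)) * d2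

/-- The cylinder belongs to `B_n`. -/
theorem cyl_inB : InB n p (cyl p V) (gradient (cyl p V)) := by
  obtain ⟨⟨h1, h2, h3⟩, -⟩ := energy_cyl hp V hV
  refine ⟨⟨cyl_grad hp V hV, ?_, ?_, ?_, fun η hη hηc => cyl_cond1 hp V hV hη hηc,
    fun Y hY hYc => cyl_cond2 hp V hV hY hYc⟩, fun y hy => reg_pos hp V hV hy⟩
  · refine (h1.const_mul ((4 * π) ^ ((n : ℝ) / 2))).congr (Eventually.of_forall fun y => ?_)
    dsimp only
    rw [rho_eq y]
    ring
  · refine (h2.const_mul ((4 * π) ^ ((n : ℝ) / 2))).congr (Eventually.of_forall fun y => ?_)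
    dsimp only
    rw [rho_eq y]
    ring
  · refine (h3.const_mul ((4 * π) ^ ((n : ℝ) / 2))).congr (Eventually.of_forall fun y => ?_)
    dsimp only
    rw [rho_eq y]
    ring

end

end Pool.Agent.FujCyl
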