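import Mathlib

/-!
# `Γ(x + s) < (x + (s-1)/2)^s Γ(x)` for `s > 1`, with monotonicity and limit
-/

namespace Pool.Agent.FujCyl

open Real Filter Topology MeasureTheory Module
open scoped ContDiff

theorem log_ratio {u s : ℝ} (hs : 1 < s) (hu : s / 2 < u) :
    s * (log (u + 1 / 2) - log (u - 1 / 2)) < log (u + s / 2) - log (u - s / 2) := by
  have hu0 : 0 < u := by linarith
  have key : ∀ t : ℝ, 0 < t → t < u → log (1 + t / u) - log (1 - t / u) = log (u + t) - log (u - t) := by
    intro t h0 ht
    have h1 : 1 + t / u = (u + t) / u := by field_simp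
    have h2 : 1 - t / u = (u - t) / u := by field_simp
    rw [h1, h2, log_div (by linarith) hu0.ne', log_div (by linarith) hu0.ne']
    ring
  have habs : ∀ t : ℝ, 0 < t → t < u → |t / u| < 1 := by
    intro t h0 ht
    rw [abs_of_pos (by positivity), div_lt_one hu0]
    exact ht
  have A := hasSum_log_sub_log_of_abs_lt_one (habs (s / 2) (by linarith) hu)
  have B := (hasSum_log_sub_log_of_abs_lt_one (habs (1 / 2) (by norm_num) (by linarith))).mul_left s
  rw [key _ (by linarith) hu] at A
  rw [key _ (by norm_num) (by linarith)] at B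
  refine hasSum_lt (i := 1) ?_ ?_ B A
  · intro k
    have h1 : s / 2 / u = s * (1 / 2 / u) := by ring
    dsimp only
    rw [h1, mul_pow]
    have h2 : s ≤ s ^ (2 * k + 1) := by
      calc s = s ^ 1 := (pow_one s).symm
        _ ≤ s ^ (2 * k + 1) := pow_le_pow_right₀ hs.le (by omega)
    have h3 : 0 ≤ 2 * (1 / (2 * (k : ℝ) + 1)) * (1 / 2 / u) ^ (2 * k + 1) := by positivity
    nlinarith [mul_le_mul_of_nonneg_right h2 h3]
  · have h1 : s / 2 / u = s * (1 / 2 / u) := by ring
    rw [h1, mul_pow]
    have h2 : s < s ^ (2 * 1 + 1) := by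
      calc s = s ^ 1 := (pow_one s).symm
        _ < s ^ (2 * 1 + 1) := pow_lt_pow_right₀ hs (by omega)
    have h3 : 0 < 2 * (1 / (2 * ((1 : ℕ) : ℝ) + 1)) * (1 / 2 / u) ^ (2 * 1 + 1) := by positivity
    nlinarith [mul_lt_mul_of_pos_right h2 h3]

/-- `log` of `(x + (s-1)/2)^s Γ(x) / Γ(x+s)`. -/
noncomputable def gg (s x : ℝ) : ℝ := s * log (x + (s - 1) / 2) - log (Gamma (x + s)) + log (Gamma x)

theorem gg_step {s x : ℝ} (hs : 1 < s) (hx : 0 < x) : gg s (x + 1) < gg s x := by
  unfold gg
  have h1 : log (Gamma (x + 1 + s)) = log (x + s) + log (Gamma (x + s)) := by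
    rw [show x + 1 + s = (x + s) + 1 by ring, Gamma_add_one (by linarith),
      log_mul (by linarith) (Gamma_pos_of_pos (by linarith)).ne']
  have h2 : log (Gamma (x + 1)) = log x + log (Gamma x) := by
    rw [Gamma_add_one hx.ne', log_mul hx.ne' (Gamma_pos_of_pos hx).ne']
  have h3 := log_ratio (u := x + s / 2) hs (by linarith)
  have e1 : x + s / 2 + 1 / 2 = x + 1 + (s - 1) / 2 := by ring
  have e2 : x + s / 2 - 1 / 2 = x + (s - 1) / 2 := by ring
  have e3 : x + s / 2 + s / 2 = x + s := by ring
  have e4 : x + s / 2 - s / 2 = x := by ring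
  rw [e1, e2, e3, e4] at h3
  rw [h1, h2]
  linarith

theorem gg_lower {s y : ℝ} (hs : 1 < s) (hy : 0 < y) :
    s * (log (y + (s - 1) / 2) - log (y + s)) ≤ gg s y := by
  unfold gg
  have hc := Real.convexOn_log_Gamma
  have h := hc.slope_mono_adjacent (x := y) (y := y + s) (z := y + s + 1) (Set.mem_Ioi.2 hy)
    (Set.mem_Ioi.2 (by linarith)) (by linarith) (by linarith)
  simp only [Function.comp] at h
  have h1 : log (Gamma (y + s + 1)) = log (y + s) + log (Gamma (y + s)) := by
    rw [Gamma_add_one (by linarith), log_mul (by linarith) (Gamma_pos_of_pos (by linarith)).ne']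
  rw [h1, show y + s - y = s by ring, show y + s + 1 - (y + s) = 1 by ring, div_one,
    div_le_iff₀ (by linarith)] at h
  linarith

theorem gg_upper {s y : ℝ} (hs : 1 < s) (hy : 1 < y) :
    gg s y ≤ s * (log (y + (s - 1) / 2) - log (y - 1)) := by
  unfold gg
  have hc := Real.convexOn_log_Gamma
  have h := hc.slope_mono_adjacent (x := y - 1) (y := y) (z := y + s) (Set.mem_Ioi.2 (by linarith))
    (Set.mem_Ioi.2 (by linarith)) (by linarith) (by linarith)
  simp only [Function.comp] at h
  have h1 : log (Gamma y) = log (y - 1) + log (Gamma (y - 1)) := by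
    have := Gamma_add_one (s := y - 1) (by linarith)
    rw [sub_add_cancel] at this
    rw [this, log_mul (by linarith) (Gamma_pos_of_pos (by linarith)).ne']
  rw [show y + s - y = s by ring, show y - (y - 1) = 1 by ring, div_one,
    le_div_iff₀ (by linarith)] at h
  nlinarith [h, h1]

theorem tendsto_log_diff (a b : ℝ) :
    Tendsto (fun y : ℝ => log (y + a) - log (y + b)) atTop (𝓝 0) := by
  have h : Tendsto (fun y : ℝ => (y + a) / (y + b)) atTop (𝓝 1) := by
    have h1 : Tendsto (fun y : ℝ => 1 + (a - b) / (y + b)) atTop (𝓝 (1 + 0)) :=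
      tendsto_const_nhds.add (Tendsto.div_atTop tendsto_const_nhds (tendsto_atTop_add_const_right _ _ tendsto_id))
    rw [add_zero] at h1
    refine h1.congr' ?_
    filter_upwards [eventually_gt_atTop (-b)] with y hy
    have : y + b ≠ 0 := by linarith
    field_simp
    ring
  have h2 := (continuousAt_log one_ne_zero).tendsto.comp h
  rw [log_one] at h2
  refine h2.congr' ?_
  filter_upwards [eventually_gt_atTop (-b), eventually_gt_atTop (-a)] with y hy hy'
  simp only [Function.comp]
  rw [log_div (by linarith) (by linarith)]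

theorem tendsto_gg {s : ℝ} (hs : 1 < s) : Tendsto (gg s) atTop (𝓝 0) := by
  have h1 := (tendsto_log_diff ((s - 1) / 2) s).const_mul s
  have h2 := (tendsto_log_diff ((s - 1) / 2) (-1)).const_mul s
  rw [mul_zero] at h1 h2
  refine tendsto_of_tendsto_of_tendsto_of_le_of_le' h1 h2 ?_ ?_
  · filter_upwards [eventually_gt_atTop 0] with y hy
    exact gg_lower hs hy
  · filter_upwards [eventually_gt_atTop 1] with y hy
    exact gg_upper hs hy

theorem gg_pos {s x : ℝ} (hs : 1 < s) (hx : 0 < x) : 0 < gg s x := by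
  have h1 : ∀ j : ℕ, gg s (x + 1 + j) ≤ gg s (x + 1) := by
    intro j
    induction j with
    | zero => simp
    | succ j ih =>
      have := gg_step (x := x + 1 + j) hs (by positivity)
      push_cast
      rw [show x + 1 + ((j : ℝ) + 1) = x + 1 + j + 1 by ring]
      linarith
  have h2 : Tendsto (fun j : ℕ => gg s (x + 1 + j)) atTop (𝓝 0) :=
    (tendsto_gg hs).comp (tendsto_atTop_add_const_left _ _ tendsto_natCast_atTop_atTop)
  have h3 : 0 ≤ gg s (x + 1) := le_of_tendsto' h2 h1
  linarith [gg_step hs hx]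

theorem hasSum_incr {w s : ℝ} (hs : 1 < s) (hw : s / 2 < w) :
    HasSum (fun k : ℕ => (2 : ℝ) * (1 / (2 * k + 1)) *
        ((s ^ (2 * k + 1) - s) * (1 / 2 / w) ^ (2 * k + 1)))
      ((log (w + s / 2) - log (w - s / 2)) - s * (log (w + 1 / 2) - log (w - 1 / 2))) := by
  have hw0 : 0 < w := by linarith
  have key : ∀ t : ℝ, 0 < t → t < w →
      log (1 + t / w) - log (1 - t / w) = log (w + t) - log (w - t) := by
    intro t h0 ht
    have h1 : 1 + t / w = (w + t) / w := by field_simp
    have h2 : 1 - t / w = (w - t) / w := by field_simp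
    rw [h1, h2, log_div (by linarith) hw0.ne', log_div (by linarith) hw0.ne']
    ring
  have habs : ∀ t : ℝ, 0 < t → t < w → |t / w| < 1 := by
    intro t h0 ht
    rw [abs_of_pos (by positivity), div_lt_one hw0]
    exact ht
  have A := hasSum_log_sub_log_of_abs_lt_one (habs (s / 2) (by linarith) hw)
  have B := (hasSum_log_sub_log_of_abs_lt_one (habs (1 / 2) (by norm_num) (by linarith))).mul_left s
  rw [key _ (by linarith) hw] at A
  rw [key _ (by norm_num) (by linarith)] at B
  have e : (fun k : ℕ => (2 : ℝ) * (1 / (2 * k + 1)) *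
        ((s ^ (2 * k + 1) - s) * (1 / 2 / w) ^ (2 * k + 1))) =
      fun k : ℕ => (2 : ℝ) * (1 / (2 * k + 1)) * (s / 2 / w) ^ (2 * k + 1) -
        s * (2 * (1 / (2 * k + 1)) * (1 / 2 / w) ^ (2 * k + 1)) := by
    funext k
    rw [show s / 2 / w = s * (1 / 2 / w) by ring, mul_pow]
    ring
  rw [e]
  exact A.sub B

/-- The increments `gg s x - gg s (x + 1)` are strictly decreasing. -/
theorem incr_anti {u v s : ℝ} (hs : 1 < s) (hu : s / 2 < u) (huv : u < v) :
    (log (v + s / 2) - log (v - s / 2)) - s * (log (v + 1 / 2) - log (v - 1 / 2)) <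
      (log (u + s / 2) - log (u - s / 2)) - s * (log (u + 1 / 2) - log (u - 1 / 2)) := by
  have hu0 : 0 < u := by linarith
  have hv0 : 0 < v := by linarith
  have h1 : (1 / 2 / v : ℝ) < 1 / 2 / u := div_lt_div_of_pos_left (by norm_num) hu0 huv
  refine hasSum_lt (i := 1) ?_ ?_ (hasSum_incr hs (by linarith)) (hasSum_incr hs hu)
  · intro k
    have h2 : s ≤ s ^ (2 * k + 1) := by
      calc s = s ^ 1 := (pow_one s).symm
        _ ≤ s ^ (2 * k + 1) := pow_le_pow_right₀ hs.le (by omega)
    have h3 : (1 / 2 / v : ℝ) ^ (2 * k + 1) ≤ (1 / 2 / u) ^ (2 * k + 1) :=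
      pow_le_pow_left₀ (by positivity) h1.le _
    exact mul_le_mul_of_nonneg_left (mul_le_mul_of_nonneg_left h3 (by linarith)) (by positivity)
  · have h2 : s < s ^ (2 * 1 + 1) := by
      calc s = s ^ 1 := (pow_one s).symm
        _ < s ^ (2 * 1 + 1) := pow_lt_pow_right₀ hs (by omega)
    have h3 : (1 / 2 / v : ℝ) ^ (2 * 1 + 1) < (1 / 2 / u) ^ (2 * 1 + 1) :=
      pow_lt_pow_left₀ h1 (by positivity) (by norm_num)
    exact mul_lt_mul_of_pos_left (mul_lt_mul_of_pos_left h3 (by linarith)) (by norm_num)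

theorem gg_incr {s x : ℝ} (hs : 1 < s) (hx : 0 < x) :
    gg s x - gg s (x + 1) = (log (x + s / 2 + s / 2) - log (x + s / 2 - s / 2)) -
      s * (log (x + s / 2 + 1 / 2) - log (x + s / 2 - 1 / 2)) := by
  unfold gg
  have h1 : log (Gamma (x + 1 + s)) = log (x + s) + log (Gamma (x + s)) := by
    rw [show x + 1 + s = (x + s) + 1 by ring, Gamma_add_one (by linarith),
      log_mul (by linarith) (Gamma_pos_of_pos (by linarith)).ne']
  have h2 : log (Gamma (x + 1)) = log x + log (Gamma x) := by
    rw [Gamma_add_one hx.ne', log_mul hx.ne' (Gamma_pos_of_pos hx).ne']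
  have e1 : x + s / 2 + 1 / 2 = x + 1 + (s - 1) / 2 := by ring
  have e2 : x + s / 2 - 1 / 2 = x + (s - 1) / 2 := by ring
  have e3 : x + s / 2 + s / 2 = x + s := by ring
  have e4 : x + s / 2 - s / 2 = x := by ring
  rw [e1, e2, e3, e4, h1, h2]
  ring

/-- `gg s` is strictly decreasing. -/
theorem gg_anti {s x y : ℝ} (hs : 1 < s) (hx : 0 < x) (hxy : x < y) : gg s y < gg s x := by
  have step : ∀ j : ℕ, gg s (x + (j + 1 : ℕ)) - gg s (y + (j + 1 : ℕ)) <
      gg s (x + j) - gg s (y + j) := by
    intro j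
    have h1 := gg_incr (x := x + j) hs (by positivity)
    have h2 := gg_incr (x := y + j) hs (by have : 0 < y := by linarith
                                           positivity)
    have h3 := incr_anti (u := x + j + s / 2) (v := y + j + s / 2) hs (by have : 0 < x + j := by positivity
                                                                          linarith) (by linarith)
    rw [← h1, ← h2] at h3
    push_cast
    rw [← add_assoc, ← add_assoc]
    linarith
  have mono : ∀ j : ℕ, gg s (x + (j + 1 : ℕ)) - gg s (y + (j + 1 : ℕ)) ≤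
      gg s (x + (1 : ℕ)) - gg s (y + (1 : ℕ)) := by
    intro j
    induction j with
    | zero => simp
    | succ j ih => exact (step (j + 1)).le.trans ih
  have lim : Tendsto (fun j : ℕ => gg s (x + (j + 1 : ℕ)) - gg s (y + (j + 1 : ℕ))) atTop (𝓝 (0 - 0)) := by
    have h1 : ∀ z : ℝ, Tendsto (fun j : ℕ => gg s (z + (j + 1 : ℕ))) atTop (𝓝 0) := fun z =>
      (tendsto_gg hs).comp (tendsto_atTop_add_const_left _ _
        (tendsto_natCast_atTop_atTop.comp (tendsto_add_atTop_nat 1)))
    exact (h1 x).sub (h1 y)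
  rw [sub_zero] at lim
  have h0 : 0 ≤ gg s (x + (1 : ℕ)) - gg s (y + (1 : ℕ)) := le_of_tendsto' lim mono
  have h1 := step 0
  simp only [zero_add, Nat.cast_zero, add_zero] at h1
  linarith

end Pool.Agent.FujCyl
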