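import Mathlib

/-!
# Radial integrals, the orthogonal splitting, the derivative and the equation of `c |P y|^(-θ)`

The section `Equation` is by helper94.
-/

namespace Pool.Agent.FujCyl

open Real Filter Topology MeasureTheory Module
open scoped ContDiff

section
variable {F : Type*} [NormedAddCommGroup F] [InnerProductSpace ℝ F] [FiniteDimensional ℝ F]
  [MeasurableSpace F] [BorelSpace F]

theorem int_pow (hF : 0 < finrank ℝ F) {a : ℝ} (ha : a < finrank ℝ F) :
    ∫ x : F, ‖x‖ ^ (-a) * exp (-‖x‖ ^ 2 / 4) =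
      (4 * π) ^ ((finrank ℝ F : ℝ) / 2) * ((2 : ℝ) ^ (-a) * Gamma ((finrank ℝ F - a) / 2) /
        Gamma ((finrank ℝ F : ℝ) / 2)) := by
  have : Nontrivial F := Module.finrank_pos_iff.1 hF
  set k := finrank ℝ F with hk
  have hk1 : (1 : ℝ) ≤ k := by exact_mod_cast hF
  rw [integral_fun_norm_addHaar volume (fun r => r ^ (-a) * exp (-r ^ 2 / 4))]
  have h1 : ∫ y in Set.Ioi (0 : ℝ), y ^ (finrank ℝ F - 1) • (y ^ (-a) * exp (-y ^ 2 / 4)) =
      ∫ y in Set.Ioi (0 : ℝ), y ^ ((k : ℝ) - 1 - a) * exp (-(1 / 4) * y ^ (2 : ℝ)) := by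
    refine setIntegral_congr_fun measurableSet_Ioi (fun y hy => ?_)
    have hy0 : 0 < y := hy
    simp only [smul_eq_mul]
    rw [← mul_assoc, ← rpow_natCast, ← rpow_add hy0, Nat.cast_sub (by omega), rpow_two]
    congr 2
    · push_cast; ring
    · ring
  rw [h1, integral_rpow_mul_exp_neg_mul_rpow (by norm_num) (by linarith) (by norm_num)]
  rw [measureReal_def, InnerProductSpace.volume_ball, ← hk]
  rw [ENNReal.ofReal_one, one_pow, one_mul, ENNReal.toReal_ofReal (by positivity)]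
  have h2 : Gamma ((k : ℝ) / 2 + 1) = k / 2 * Gamma ((k : ℝ) / 2) := Gamma_add_one (by positivity)
  have h3 : 0 < Gamma ((k : ℝ) / 2) := Gamma_pos_of_pos (by positivity)
  rw [h2, nsmul_eq_mul, smul_eq_mul]
  have h4 : ((1 : ℝ) / 4) ^ (-((k : ℝ) - 1 - a + 1) / 2) = 2 ^ (k : ℝ) * 2 ^ (-a) := by
    rw [show ((1 : ℝ) / 4) = 2 ^ (-2 : ℝ) by norm_num [rpow_neg], ← rpow_mul (by norm_num), ← rpow_add (by norm_num)]
    congr 1
    ring
  have h5 : (4 * π) ^ ((k : ℝ) / 2) = 2 ^ (k : ℝ) * √π ^ k := by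
    rw [mul_rpow (by norm_num) pi_pos.le, show (4 : ℝ) = 2 ^ (2 : ℝ) by norm_num, ← rpow_mul (by norm_num)]
    congr 1
    · congr 1
      ring
    · rw [sqrt_eq_rpow, ← rpow_natCast, ← rpow_mul pi_pos.le]
      congr 1
      ring
  rw [h4, h5, show ((k : ℝ) - 1 - a + 1) / 2 = (k - a) / 2 by ring]
  field_simp

theorem split_int {F : Type*} [NormedAddCommGroup F] [InnerProductSpace ℝ F] [FiniteDimensional ℝ F]
    [MeasurableSpace F] [BorelSpace F] (V : Submodule ℝ F) (f : ℝ → ℝ) :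
    ∫ y : F, f ‖V.starProjection y‖ * exp (-‖y‖ ^ 2 / 4) =
      (∫ v : V, f ‖v‖ * exp (-‖v‖ ^ 2 / 4)) * (4 * π) ^ ((finrank ℝ Vᗮ : ℝ) / 2) := by
  have hT : MeasurePreserving (fun y : F => WithLp.ofLp (V.orthogonalDecomposition y)) :=
    (WithLp.volume_preserving_ofLp _ _).comp V.orthogonalDecomposition.measurePreserving
  have hE : MeasurableEmbedding (fun y : F => WithLp.ofLp (V.orthogonalDecomposition y)) :=
    (V.orthogonalDecomposition.toHomeomorph.toMeasurableEquiv.trans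
      (MeasurableEquiv.toLp 2 (V × Vᗮ)).symm).measurableEmbedding
  have h1 := hT.integral_comp hE
    (fun q : V × Vᗮ => (f ‖q.1‖ * exp (-‖q.1‖ ^ 2 / 4)) * exp (-(1 / 4) * ‖q.2‖ ^ 2))
  have h2 : (fun y : F => f ‖V.starProjection y‖ * exp (-‖y‖ ^ 2 / 4)) = fun y : F =>
      (fun q : V × Vᗮ => (f ‖q.1‖ * exp (-‖q.1‖ ^ 2 / 4)) * exp (-(1 / 4) * ‖q.2‖ ^ 2))
        (WithLp.ofLp (V.orthogonalDecomposition y)) := by
    funext y
    simp only [Submodule.orthogonalDecomposition_apply]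
    rw [mul_assoc, ← exp_add]
    have h3 : ‖y‖ ^ 2 = ‖V.orthogonalProjectionOnto y‖ ^ 2 + ‖Vᗮ.orthogonalProjectionOnto y‖ ^ 2 := by
      exact V.norm_sq_eq_add_norm_sq_projection y
    congr 2
    rw [h3]
    ring
  rw [h2, h1]
  rw [show (volume : Measure (V × Vᗮ)) = volume.prod volume from rfl,
    integral_prod_mul (fun v : V => f ‖v‖ * exp (-‖v‖ ^ 2 / 4))
      (fun u : Vᗮ => exp (-(1 / 4) * ‖u‖ ^ 2))]
  congr 1
  rw [GaussianFourier.integral_rexp_neg_mul_sq_norm (by norm_num)]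
  congr 1
  ring
end

/-- norm of the derivative of `c |P_V y|^(-θ)` -/
theorem norm_fderiv_cyl {F : Type*} [NormedAddCommGroup F] [InnerProductSpace ℝ F]
    [FiniteDimensional ℝ F] (V : Submodule ℝ F) {c θ : ℝ} (hc : 0 < c) (hθ : 0 < θ) {y : F}
    (hy : V.starProjection y ≠ 0) :
    ‖fderiv ℝ (fun y => c * ‖V.starProjection y‖ ^ (-θ)) y‖ =
      c * θ * ‖V.starProjection y‖ ^ (-θ - 1) := by
  set P : F →L[ℝ] F := V.starProjection with hP
  have h0 : 0 < ‖P y‖ := norm_pos_iff.2 hy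
  have hfun : (fun y => c * ‖P y‖ ^ (-θ)) = fun y => c * (‖P y‖ ^ 2) ^ (-θ / 2) := by
    funext z
    rw [← rpow_natCast (‖P z‖) 2, ← rpow_mul (norm_nonneg _)]
    congr 2
    push_cast
    ring
  have h1 : HasFDerivAt (fun y => ‖P y‖ ^ 2) (2 • (innerSL ℝ (P y)).comp P) y :=
    (P.hasFDerivAt (x := y)).norm_sq
  have h2 : HasFDerivAt (fun y => c * (‖P y‖ ^ 2) ^ (-θ / 2))
      (c • ((-θ / 2 * (‖P y‖ ^ 2) ^ (-θ / 2 - 1)) • (2 • (innerSL ℝ (P y)).comp P))) y :=
    (h1.rpow_const (Or.inl (by positivity))).const_mul c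
  rw [hfun, h2.fderiv]
  have h3 : (innerSL ℝ (P y)).comp P = innerSL ℝ (P y) := by
    ext v
    simp only [ContinuousLinearMap.comp_apply, innerSL_apply_apply]
    have e1 : P (P v) = P v := Submodule.starProjection_eq_self_iff.2 (V.starProjection_apply_mem v)
    have e2 : inner ℝ (P y) (P v) = inner ℝ y (P (P v)) :=
      Submodule.inner_starProjection_left_eq_right V y (P v)
    have e3 : inner ℝ (P y) v = inner ℝ y (P v) :=
      Submodule.inner_starProjection_left_eq_right V y v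
    rw [e2, e3, e1]
  rw [h3, norm_smul, norm_smul, ← Nat.cast_smul_eq_nsmul ℝ, norm_smul, innerSL_apply_norm]
  have h4 : (‖P y‖ ^ 2) ^ (-θ / 2 - 1) = ‖P y‖ ^ (-θ - 1) * ‖P y‖ ^ (-1 : ℝ) := by
    rw [← rpow_natCast (‖P y‖) 2, ← rpow_mul (norm_nonneg _), ← rpow_add h0]
    congr 1
    push_cast
    ring
  rw [h4, norm_mul, norm_mul, norm_of_nonneg hc.le, norm_of_nonneg (rpow_nonneg (norm_nonneg _) (-θ - 1)),
    norm_of_nonneg (rpow_nonneg (norm_nonneg _) (-1)), rpow_neg_one]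
  have h5 : ‖-θ / 2‖ = θ / 2 := by
    rw [norm_eq_abs, abs_of_neg (by linarith)]
    ring
  rw [h5]
  norm_num
  field_simp

section Equation

open InnerProductSpace

variable {F : Type*} [NormedAddCommGroup F] [InnerProductSpace ℝ F] [FiniteDimensional ℝ F]

/-- first derivative of `A (‖P z‖²)^c` off the kernel of `P` -/
lemma hasFDerivAt_pow (V : Submodule ℝ F) (A c : ℝ) {y : F} (hy : V.starProjection y ≠ 0) :
    HasFDerivAt (fun z : F => A * (‖V.starProjection z‖ ^ 2) ^ c)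
      ((A * (2 * c) * (‖V.starProjection y‖ ^ 2) ^ (c - 1)) •
        (innerSL ℝ (V.starProjection y)).comp V.starProjection) y := by
  have hr : ‖V.starProjection y‖ ^ 2 ≠ 0 := by positivity
  have h1 := (V.starProjection.hasFDerivAt (x := y)).norm_sq
  have h2 := (h1.rpow_const (p := c) (Or.inl hr)).const_mul A
  refine h2.congr_fderiv ?_
  ext e
  simp
  ring

/-- the linear map `z ↦ ⟨P z, P ·⟩` -/
noncomputable def Lmap (V : Submodule ℝ F) : F →L[ℝ] (F →L[ℝ] ℝ) :=
  ((ContinuousLinearMap.compL ℝ F F ℝ).flip V.starProjection).comp ((innerSL ℝ).comp V.starProjection)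

lemma Lmap_apply (V : Submodule ℝ F) (z : F) :
    Lmap V z = (innerSL ℝ (V.starProjection z)).comp V.starProjection := rfl

lemma second_deriv (V : Submodule ℝ F) (A c : ℝ) {y : F} (hy : V.starProjection y ≠ 0) (e : F) :
    fderiv ℝ (fderiv ℝ (fun z : F => A * (‖V.starProjection z‖ ^ 2) ^ c)) y e e
      = A * (2 * c) * (‖V.starProjection y‖ ^ 2) ^ (c - 1) * ‖V.starProjection e‖ ^ 2
        + A * (4 * c * (c - 1)) * (‖V.starProjection y‖ ^ 2) ^ (c - 2)
          * (inner ℝ (V.starProjection y) (V.starProjection e)) ^ 2 := by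
  have hev : fderiv ℝ (fun z : F => A * (‖V.starProjection z‖ ^ 2) ^ c) =ᶠ[𝓝 y]
      fun z => (A * (2 * c) * (‖V.starProjection z‖ ^ 2) ^ (c - 1)) • Lmap V z := by
    have : ∀ᶠ z in 𝓝 y, V.starProjection z ≠ 0 :=
      V.starProjection.continuous.continuousAt.eventually_ne hy
    filter_upwards [this] with z hz
    exact (hasFDerivAt_pow V A c hz).fderiv
  have h1 := hasFDerivAt_pow V (A * (2 * c)) (c - 1) hy
  have h2 := h1.smul (Lmap V).hasFDerivAt
  have h3 : fderiv ℝ (fun z => (A * (2 * c) * (‖V.starProjection z‖ ^ 2) ^ (c - 1)) • Lmap V z) y = _ :=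
    h2.fderiv
  rw [hev.fderiv_eq, h3]
  simp only [add_apply, smul_apply,
    ContinuousLinearMap.smulRight_apply, Lmap_apply, ContinuousLinearMap.comp_apply,
    innerSL_apply_apply, smul_eq_mul, real_inner_self_eq_norm_sq]
  rw [show c - 1 - 1 = c - 2 by ring]
  ring

lemma sum_norm_sq (V : Submodule ℝ F) :
    ∑ i, ‖V.starProjection (stdOrthonormalBasis ℝ F i)‖ ^ 2 = (Module.finrank ℝ V : ℝ) := by
  have hp : LinearMap.IsProj V (V.starProjection : F →ₗ[ℝ] F) :=
    ⟨fun x => V.starProjection_apply_mem x, fun x hx => V.starProjection_eq_self_iff.2 hx⟩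
  have h1 := hp.trace
  rw [LinearMap.trace_eq_sum_inner _ (stdOrthonormalBasis ℝ F)] at h1
  rw [← h1]
  refine Finset.sum_congr rfl fun i _ => ?_
  have := V.re_inner_starProjection_eq_normSq (𝕜 := ℝ) (stdOrthonormalBasis ℝ F i)
  simp at this ⊢
  rw [real_inner_comm]
  exact this.symm

lemma sum_inner_sq (V : Submodule ℝ F) (y : F) :
    ∑ i, (inner ℝ (V.starProjection y) (V.starProjection (stdOrthonormalBasis ℝ F i))) ^ 2
      = ‖V.starProjection y‖ ^ 2 := by
  have h := (stdOrthonormalBasis ℝ F).sum_sq_norm_inner_left (V.starProjection y)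
  rw [← h]
  refine Finset.sum_congr rfl fun i _ => ?_
  have h1 : inner ℝ (V.starProjection y) (V.starProjection (stdOrthonormalBasis ℝ F i))
      = inner ℝ (V.starProjection y) (stdOrthonormalBasis ℝ F i) := by
    rw [← V.inner_starProjection_left_eq_right]
    rw [V.starProjection_eq_self_iff.2 (V.starProjection_apply_mem y)]
  rw [h1]
  simp

lemma laplacian_pow (V : Submodule ℝ F) (A c : ℝ) {y : F} (hy : V.starProjection y ≠ 0) :
    Laplacian.laplacian (fun z : F => A * (‖V.starProjection z‖ ^ 2) ^ c) y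
      = A * (2 * c) * (2 * c - 2 + Module.finrank ℝ V) * (‖V.starProjection y‖ ^ 2) ^ (c - 1) := by
  have hr : 0 < ‖V.starProjection y‖ ^ 2 := by positivity
  rw [laplacian_eq_iteratedFDeriv_stdOrthonormalBasis]
  simp only [iteratedFDeriv_two_apply, Matrix.cons_val_zero, Matrix.cons_val_one]
  simp only [second_deriv V A c hy]
  rw [Finset.sum_add_distrib, ← Finset.mul_sum, ← Finset.mul_sum, sum_norm_sq, sum_inner_sq]
  have e : (‖V.starProjection y‖ ^ 2) ^ (c - 1)
      = (‖V.starProjection y‖ ^ 2) ^ (c - 2) * ‖V.starProjection y‖ ^ 2 := by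
    rw [← Real.rpow_add_one hr.ne']; congr 1; ring
  rw [e]
  ring

/-- The cylinder `w(y) = (θ(k-2-θ))^(1/(p-1)) |P y|^(-θ)`, `θ = 2/(p-1)`, `P` the orthogonal projection onto a
`k`-dimensional subspace `V`, solves (S) off the kernel of `P`. -/
theorem cyl_solves (V : Submodule ℝ F) {p θ : ℝ} (hp : 1 < p) (hθ : θ = 2 / (p - 1))
    (hk : 0 < θ * ((Module.finrank ℝ V : ℝ) - 2 - θ)) {y : F} (hy : V.starProjection y ≠ 0)
    {w : F → ℝ} (hw : w = fun z : F =>
      (θ * ((Module.finrank ℝ V : ℝ) - 2 - θ)) ^ (1 / (p - 1)) * ‖V.starProjection z‖ ^ (-θ)) :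
    Laplacian.laplacian w y - 1 / 2 * fderiv ℝ w y y - 1 / (p - 1) * w y + |w y| ^ (p - 1) * w y = 0 := by
  set A : ℝ := (θ * ((Module.finrank ℝ V : ℝ) - 2 - θ)) ^ (1 / (p - 1)) with hA
  have hp1 : 0 < p - 1 := by linarith
  have hA0 : 0 < A := by rw [hA]; positivity
  have hAp : A ^ (p - 1) = θ * ((Module.finrank ℝ V : ℝ) - 2 - θ) := by
    rw [hA, ← Real.rpow_mul hk.le, one_div_mul_cancel hp1.ne', Real.rpow_one]
  have hr : 0 < ‖V.starProjection y‖ := by positivity
  have hr2 : 0 < ‖V.starProjection y‖ ^ 2 := by positivity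
  have hw2 : w = fun z : F => A * (‖V.starProjection z‖ ^ 2) ^ (-θ / 2) := by
    rw [hw]
    funext z
    rw [← Real.rpow_natCast, ← Real.rpow_mul (norm_nonneg _)]
    congr 2
    push_cast; ring
  have L : Laplacian.laplacian w y
      = A * (2 * (-θ / 2)) * (2 * (-θ / 2) - 2 + Module.finrank ℝ V)
        * (‖V.starProjection y‖ ^ 2) ^ (-θ / 2 - 1) := by
    rw [hw2]; exact laplacian_pow V A (-θ / 2) hy
  have e : (‖V.starProjection y‖ ^ 2) ^ (-θ / 2)
      = (‖V.starProjection y‖ ^ 2) ^ (-θ / 2 - 1) * ‖V.starProjection y‖ ^ 2 := by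
    rw [← Real.rpow_add_one hr2.ne']; congr 1; ring
  have D : fderiv ℝ w y y = -θ * w y := by
    rw [hw2, (hasFDerivAt_pow V A (-θ / 2) hy).fderiv]
    have hin : inner ℝ (V.starProjection y) (V.starProjection y) = ‖V.starProjection y‖ ^ 2 :=
      real_inner_self_eq_norm_sq _
    simp only [smul_apply, ContinuousLinearMap.comp_apply, innerSL_apply_apply,
      smul_eq_mul, hin]
    rw [e]; ring
  have W : |w y| ^ (p - 1) = θ * ((Module.finrank ℝ V : ℝ) - 2 - θ) * (‖V.starProjection y‖ ^ 2) ^ (-(1 : ℝ)) := by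
    have hwy : w y = A * (‖V.starProjection y‖ ^ 2) ^ (-θ / 2) := by rw [hw2]
    have hwp : 0 < w y := by rw [hwy]; positivity
    rw [abs_of_pos hwp, hwy, Real.mul_rpow hA0.le (by positivity), hAp, ← Real.rpow_mul hr2.le]
    congr 2
    rw [hθ]; field_simp
  have hwy : w y = A * ((‖V.starProjection y‖ ^ 2) ^ (-θ / 2 - 1) * ‖V.starProjection y‖ ^ 2) := by
    rw [hw2]; simp only [e]
  rw [L, D, W, hwy, Real.rpow_neg_one]
  have h1 : 1 / (p - 1) = θ / 2 := by rw [hθ]; field_simp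
  rw [h1]
  field_simp
  ring

/-- the cylinder is smooth and positive off the kernel of `P` -/
theorem cyl_smooth (V : Submodule ℝ F) {p θ : ℝ}
    (hk : 0 < θ * ((Module.finrank ℝ V : ℝ) - 2 - θ)) {y : F} (hy : V.starProjection y ≠ 0)
    {w : F → ℝ} (hw : w = fun z : F =>
      (θ * ((Module.finrank ℝ V : ℝ) - 2 - θ)) ^ (1 / (p - 1)) * ‖V.starProjection z‖ ^ (-θ)) :
    ContDiffAt ℝ (⊤ : ℕ∞) w y ∧ 0 < w y := by
  have hr : 0 < ‖V.starProjection y‖ := by positivity
  constructor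
  · rw [hw]
    exact contDiffAt_const.mul
      ((V.starProjection.contDiff.contDiffAt.norm ℝ hy).rpow_const_of_ne hr.ne')
  · rw [hw]; positivity

end Equation

end Pool.Agent.FujCyl
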