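import Mathlib

/-!
# Integration by parts, the weak gradient and condition 1 for `c |P y|^(-θ)`

`parts_one`, `div_radial`, `dvg`, `div_field` are by helper94.
-/

namespace Pool.Agent.FujCyl

open Real Filter Topology MeasureTheory Module
open scoped ContDiff

section

/-- one coordinate of the integration by parts: `∫ f ∂_v g = - ∫ ∂_v f g`, `g` of compact support -/
theorem parts_one {E : Type*} [NormedAddCommGroup E] [InnerProductSpace ℝ E] [FiniteDimensional ℝ E]
    [MeasurableSpace E] [BorelSpace E] (f g : E → ℝ) (hf : ContDiff ℝ 1 f) (hg : ContDiff ℝ 1 g)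
    (hc : HasCompactSupport g) (v : E) :
    Integrable (fun y => f y * fderiv ℝ g y v) ∧ Integrable (fun y => fderiv ℝ f y v * g y) ∧
    ∫ y, f y * fderiv ℝ g y v = - ∫ y, fderiv ℝ f y v * g y := by
  have cf' : Continuous fun y => fderiv ℝ f y v :=
    (hf.continuous_fderiv one_ne_zero).clm_apply continuous_const
  have cg' : Continuous fun y => fderiv ℝ g y v :=
    (hg.continuous_fderiv one_ne_zero).clm_apply continuous_const
  have hc' : HasCompactSupport fun y => fderiv ℝ g y v := hc.fderiv_apply ℝ v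
  have i1 : Integrable (fun y => fderiv ℝ f y v * g y) :=
    (cf'.mul hg.continuous).integrable_of_hasCompactSupport hc.mul_left
  have i2 : Integrable (fun y => f y * fderiv ℝ g y v) :=
    (hf.continuous.mul cg').integrable_of_hasCompactSupport hc'.mul_left
  have i3 : Integrable (fun y => f y * g y) :=
    (hf.continuous.mul hg.continuous).integrable_of_hasCompactSupport hc.mul_left
  exact ⟨i2, i1, integral_mul_fderiv_eq_neg_fderiv_mul_of_integrable i1 i2 i3
    (fun x _ => (hf.differentiable one_ne_zero) x) (fun x _ => (hg.differentiable one_ne_zero) x)⟩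

/-- **T1.** `∫ ∇g · P y = - k ∫ g` -/
theorem div_radial {n : ℕ} (V : Submodule ℝ (EuclideanSpace ℝ (Fin n)))
    (g : EuclideanSpace ℝ (Fin n) → ℝ) (hg : ContDiff ℝ 1 g) (hc : HasCompactSupport g) :
    ∫ y, fderiv ℝ g y (V.starProjection y) = -(Module.finrank ℝ V : ℝ) * ∫ y, g y := by
  set b := stdOrthonormalBasis ℝ (EuclideanSpace ℝ (Fin n)) with hb
  have hp : LinearMap.IsProj V (V.starProjection : EuclideanSpace ℝ (Fin n) →ₗ[ℝ] _) :=
    ⟨fun x => V.starProjection_apply_mem x, fun x hx => V.starProjection_eq_self_iff.2 hx⟩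
  have htr := hp.trace
  rw [LinearMap.trace_eq_sum_inner _ b] at htr
  have e1 : ∀ y, fderiv ℝ g y (V.starProjection y)
      = ∑ i, inner ℝ (b i) (V.starProjection y) * fderiv ℝ g y (b i) := by
    intro y
    conv_lhs => rw [← b.sum_repr' (V.starProjection y)]
    rw [map_sum]
    simp
  have hl : ∀ i, ContDiff ℝ 1 fun y : EuclideanSpace ℝ (Fin n) => inner ℝ (b i) (V.starProjection y) := by
    intro i
    exact contDiff_const.inner ℝ V.starProjection.contDiff
  have hd : ∀ i y, fderiv ℝ (fun y : EuclideanSpace ℝ (Fin n) => inner ℝ (b i) (V.starProjection y)) y (b i)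
      = inner ℝ (b i) (V.starProjection (b i)) := by
    intro i y
    have : HasFDerivAt (fun y : EuclideanSpace ℝ (Fin n) => inner ℝ (b i) (V.starProjection y))
        ((innerSL ℝ (b i)).comp V.starProjection) y :=
      ((innerSL ℝ (b i)).comp V.starProjection).hasFDerivAt
    rw [this.fderiv]; rfl
  simp_rw [e1]
  rw [integral_finsetSum _ (fun i _ => (parts_one _ g (hl i) hg hc (b i)).1)]
  have e2 : ∀ i, ∫ y, inner ℝ (b i) (V.starProjection y) * fderiv ℝ g y (b i)
      = -(inner ℝ (b i) (V.starProjection (b i)) * ∫ y, g y) := by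
    intro i
    rw [(parts_one _ g (hl i) hg hc (b i)).2.2]
    simp_rw [hd i]
    rw [integral_const_mul]
  simp_rw [e2]
  rw [Finset.sum_neg_distrib, ← Finset.sum_mul]
  have : ∑ i, inner ℝ (b i) (V.starProjection (b i)) = (Module.finrank ℝ V : ℝ) := htr
  rw [this]; ring

/-- the divergence of a vector field -/
noncomputable def dvg {n : ℕ} (Y : EuclideanSpace ℝ (Fin n) → EuclideanSpace ℝ (Fin n))
    (y : EuclideanSpace ℝ (Fin n)) : ℝ :=
  ∑ i, fderiv ℝ Y y (EuclideanSpace.single i 1) i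

/-- **T2.** `∫ ∇f · Y = - ∫ f div Y` -/
theorem div_field {n : ℕ} (f : EuclideanSpace ℝ (Fin n) → ℝ) (hf : ContDiff ℝ 1 f)
    (Y : EuclideanSpace ℝ (Fin n) → EuclideanSpace ℝ (Fin n)) (hY : ContDiff ℝ 1 Y)
    (hc : HasCompactSupport Y) :
    ∫ y, fderiv ℝ f y (Y y) = -∫ y, f y * dvg Y y := by
  have hYi : ∀ i, ContDiff ℝ 1 fun y => Y y i := by
    intro i
    exact (contDiff_euclidean.1 hY) i
  have hci : ∀ i, HasCompactSupport fun y => Y y i := by
    intro i
    exact hc.comp_left (g := fun z : EuclideanSpace ℝ (Fin n) => z i) rfl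
  have hdi : ∀ i y v, fderiv ℝ (fun y => Y y i) y v = fderiv ℝ Y y v i := by
    intro i y v
    have h1 : HasFDerivAt Y (fderiv ℝ Y y) y := ((hY.differentiable one_ne_zero) y).hasFDerivAt
    have h2 := (EuclideanSpace.proj (𝕜 := ℝ) i).hasFDerivAt.comp y h1
    have h3 : fderiv ℝ (fun y => Y y i) y = (EuclideanSpace.proj (𝕜 := ℝ) i).comp (fderiv ℝ Y y) :=
      h2.fderiv
    rw [h3]; rfl
  have e1 : ∀ y, fderiv ℝ f y (Y y) = ∑ i, Y y i * fderiv ℝ f y (EuclideanSpace.single i 1) := by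
    intro y
    have : Y y = ∑ i, Y y i • EuclideanSpace.single i (1 : ℝ) := by
      ext j; simp [Finset.sum_apply, Pi.single_apply]
    conv_lhs => rw [this]
    rw [map_sum]
    simp
  have P : ∀ i, Integrable (fun y => Y y i * fderiv ℝ f y (EuclideanSpace.single i 1)) ∧
      Integrable (fun y => f y * fderiv ℝ Y y (EuclideanSpace.single i 1) i) ∧
      ∫ y, Y y i * fderiv ℝ f y (EuclideanSpace.single i 1)
        = - ∫ y, f y * fderiv ℝ Y y (EuclideanSpace.single i 1) i := by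
    intro i
    obtain ⟨a1, a2, a3⟩ := parts_one f (fun y => Y y i) hf (hYi i) (hci i) (EuclideanSpace.single i 1)
    simp_rw [hdi] at a1 a3
    refine ⟨by simpa [mul_comm] using a2, a1, ?_⟩
    rw [a3, neg_neg]
    simp_rw [mul_comm]
  simp_rw [e1]
  rw [integral_finsetSum _ (fun i _ => (P i).1)]
  simp_rw [fun i => (P i).2.2]
  rw [Finset.sum_neg_distrib, ← integral_finsetSum _ (fun i _ => (P i).2.1)]
  simp_rw [dvg, Finset.mul_sum]


end



variable {n : ℕ} (V : Submodule ℝ (EuclideanSpace ℝ (Fin n)))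

/-- the bound, supplied by the radial integrals -/
def Pw (V : Submodule ℝ (EuclideanSpace ℝ (Fin n))) : Prop :=
  ∀ a : ℝ, a < finrank ℝ V →
    Integrable (fun y : EuclideanSpace ℝ (Fin n) => ‖V.starProjection y‖ ^ (-a) * exp (-‖y‖ ^ 2 / 4))

def Ne (V : Submodule ℝ (EuclideanSpace ℝ (Fin n))) : Prop :=
  ∀ᵐ y : EuclideanSpace ℝ (Fin n), V.starProjection y ≠ 0

variable {V}

theorem term_bound {a K : ℝ} {m : ℕ} (hb : 0 ≤ a + m) {F : EuclideanSpace ℝ (Fin n) → ℝ}
    (hF : ∀ y, |F y| ≤ K * ‖V.starProjection y‖ ^ m) {ε : ℝ} {y : EuclideanSpace ℝ (Fin n)}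
    (hy : V.starProjection y ≠ 0) :
    ‖(‖V.starProjection y‖ ^ 2 + ε ^ 2) ^ (-(a + m) / 2) * F y * exp (-‖y‖ ^ 2 / 4)‖ ≤
      K * (‖V.starProjection y‖ ^ (-a) * exp (-‖y‖ ^ 2 / 4)) := by
  have h0 : 0 < ‖V.starProjection y‖ := norm_pos_iff.2 hy
  have h1 : (‖V.starProjection y‖ ^ 2 + ε ^ 2) ^ (-(a + m) / 2) ≤
      (‖V.starProjection y‖ ^ 2) ^ (-(a + m) / 2) :=
    rpow_le_rpow_of_nonpos (by positivity) (by nlinarith [sq_nonneg ε]) (by linarith)
  have h2 : (‖V.starProjection y‖ ^ 2) ^ (-(a + m) / 2) =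
      ‖V.starProjection y‖ ^ (-a) * (‖V.starProjection y‖ ^ m)⁻¹ := by
    rw [← rpow_natCast _ 2, ← rpow_mul h0.le, ← rpow_natCast _ m, ← rpow_neg h0.le, ← rpow_add h0]
    congr 1
    push_cast
    ring
  have h3 : 0 ≤ (‖V.starProjection y‖ ^ 2 + ε ^ 2) ^ (-(a + m) / 2) := by positivity
  rw [norm_mul, norm_mul, norm_of_nonneg h3, norm_of_nonneg (exp_pos _).le, Real.norm_eq_abs,
    ← mul_assoc]
  refine mul_le_mul_of_nonneg_right ?_ (exp_pos _).le
  calc (‖V.starProjection y‖ ^ 2 + ε ^ 2) ^ (-(a + m) / 2) * |F y|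
      ≤ (‖V.starProjection y‖ ^ (-a) * (‖V.starProjection y‖ ^ m)⁻¹) *
          (K * ‖V.starProjection y‖ ^ m) := by
        rw [← h2]
        exact mul_le_mul h1 (hF y) (abs_nonneg _) (by positivity)
    _ = K * ‖V.starProjection y‖ ^ (-a) := by
        field_simp

theorem term_meas {b : ℝ} {F : EuclideanSpace ℝ (Fin n) → ℝ} (hFc : Continuous F) (ε : ℝ) :
    AEStronglyMeasurable (fun y : EuclideanSpace ℝ (Fin n) =>
      (‖V.starProjection y‖ ^ 2 + ε ^ 2) ^ b * F y * exp (-‖y‖ ^ 2 / 4)) := by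
  have h1 : Measurable (fun y : EuclideanSpace ℝ (Fin n) => (‖V.starProjection y‖ ^ 2 + ε ^ 2) ^ b) :=
    ((V.starProjection.continuous.norm.pow 2).add continuous_const).measurable.pow_const b
  have h2 : Continuous (fun y : EuclideanSpace ℝ (Fin n) => exp (-‖y‖ ^ 2 / 4)) := by fun_prop
  exact ((h1.mul hFc.measurable).mul h2.measurable).aestronglyMeasurable

theorem term_int (hP : Pw V) (hN : Ne V) {a K : ℝ} {m : ℕ} (ha : a < finrank ℝ V)
    (hb : 0 ≤ a + m) {F : EuclideanSpace ℝ (Fin n) → ℝ} (hFc : Continuous F)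
    (hF : ∀ y, |F y| ≤ K * ‖V.starProjection y‖ ^ m) (ε : ℝ) :
    Integrable (fun y : EuclideanSpace ℝ (Fin n) =>
      (‖V.starProjection y‖ ^ 2 + ε ^ 2) ^ (-(a + m) / 2) * F y * exp (-‖y‖ ^ 2 / 4)) := by
  refine ((hP a ha).const_mul K).mono' (term_meas hFc ε) ?_
  filter_upwards [hN] with y hy
  exact term_bound hb hF hy

theorem term_lim (hP : Pw V) (hN : Ne V) {a K : ℝ} {m : ℕ} (ha : a < finrank ℝ V)
    (hb : 0 ≤ a + m) {F : EuclideanSpace ℝ (Fin n) → ℝ} (hFc : Continuous F)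
    (hF : ∀ y, |F y| ≤ K * ‖V.starProjection y‖ ^ m) :
    Tendsto (fun ε : ℝ => ∫ y : EuclideanSpace ℝ (Fin n),
      (‖V.starProjection y‖ ^ 2 + ε ^ 2) ^ (-(a + m) / 2) * F y * exp (-‖y‖ ^ 2 / 4)) (𝓝[>] 0)
      (𝓝 (∫ y : EuclideanSpace ℝ (Fin n),
        (‖V.starProjection y‖ ^ 2 + 0 ^ 2) ^ (-(a + m) / 2) * F y * exp (-‖y‖ ^ 2 / 4))) := by
  refine tendsto_integral_filter_of_dominated_convergence
    (fun y => K * (‖V.starProjection y‖ ^ (-a) * exp (-‖y‖ ^ 2 / 4))) ?_ ?_
    ((hP a ha).const_mul K) ?_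
  · exact Eventually.of_forall fun ε => term_meas hFc ε
  · refine Eventually.of_forall fun ε => ?_
    filter_upwards [hN] with y hy
    exact term_bound hb hF hy
  · filter_upwards [hN] with y hy
    have h0 : 0 < ‖V.starProjection y‖ := norm_pos_iff.2 hy
    have h1 : Tendsto (fun ε : ℝ => (‖V.starProjection y‖ ^ 2 + ε ^ 2) ^ (-(a + m) / 2)) (𝓝[>] 0)
        (𝓝 ((‖V.starProjection y‖ ^ 2 + 0 ^ 2) ^ (-(a + m) / 2))) := by
      have h2 : ContinuousAt (fun ε : ℝ => (‖V.starProjection y‖ ^ 2 + ε ^ 2) ^ (-(a + m) / 2)) 0 := by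
        refine ContinuousAt.rpow_const (by fun_prop) (Or.inl ?_)
        positivity
      exact h2.tendsto.mono_left nhdsWithin_le_nhds
    exact (h1.mul_const _).mul_const _

/-! ### derivative of the regularised powers -/

section
variable (V)

theorem hasFDerivAt_T (b ε : ℝ) (hε : 0 < ε) (y : EuclideanSpace ℝ (Fin n)) :
    HasFDerivAt (fun z : EuclideanSpace ℝ (Fin n) => (‖V.starProjection z‖ ^ 2 + ε ^ 2) ^ b)
      ((2 * b * (‖V.starProjection y‖ ^ 2 + ε ^ 2) ^ (b - 1)) •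
        innerSL ℝ (V.starProjection y)) y := by
  have h1 := ((V.starProjection.hasFDerivAt (x := y)).norm_sq).add_const (ε ^ 2)
  have hne : ‖V.starProjection y‖ ^ 2 + ε ^ 2 ≠ 0 := by positivity
  have h2 := h1.rpow_const (p := b) (Or.inl hne)
  refine h2.congr_fderiv ?_
  ext v
  have e1 : V.starProjection (V.starProjection v) = V.starProjection v :=
    Submodule.starProjection_eq_self_iff.2 (V.starProjection_apply_mem v)
  have e2 : inner ℝ (V.starProjection y) (V.starProjection v) =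
      inner ℝ y (V.starProjection (V.starProjection v)) :=
    Submodule.inner_starProjection_left_eq_right V y (V.starProjection v)
  have e3 : inner ℝ (V.starProjection y) v = inner ℝ y (V.starProjection v) :=
    Submodule.inner_starProjection_left_eq_right V y v
  simp only [smul_apply, ContinuousLinearMap.comp_apply, innerSL_apply_apply,
    smul_eq_mul, nsmul_eq_mul]
  rw [e2, e3, e1]
  push_cast
  ring

theorem contDiff_T (b ε : ℝ) (hε : 0 < ε) :
    ContDiff ℝ ∞ (fun z : EuclideanSpace ℝ (Fin n) => (‖V.starProjection z‖ ^ 2 + ε ^ 2) ^ b) := by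
  refine contDiff_iff_contDiffAt.2 fun y => ?_
  refine ContDiffAt.rpow_const_of_ne ?_ (by positivity)
  exact (((contDiff_norm_sq ℝ).comp V.starProjection.contDiff).add contDiff_const).contDiffAt

variable {V}

/-- A function with compact support times the inverse weight is bounded. -/
theorem bdd_of_compact {F : EuclideanSpace ℝ (Fin n) → ℝ} (hF : Continuous F)
    (hc : HasCompactSupport F) : ∃ K : ℝ, 0 ≤ K ∧ ∀ y, |F y| ≤ K := by
  obtain ⟨K, hK⟩ := hF.bounded_above_of_compact_support hc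
  exact ⟨max K 0, le_max_right _ _, fun y => (hK y).trans (le_max_left _ _)⟩

theorem hasFDerivAt_wt (y : EuclideanSpace ℝ (Fin n)) :
    HasFDerivAt (fun z : EuclideanSpace ℝ (Fin n) => exp (-‖z‖ ^ 2 / 4))
      ((-(1 / 2) * exp (-‖y‖ ^ 2 / 4)) • innerSL ℝ y) y := by
  have h1 : HasFDerivAt (fun z : EuclideanSpace ℝ (Fin n) => ‖z‖ ^ 2) (2 • innerSL ℝ y) y := by
    have := (hasFDerivAt_id (𝕜 := ℝ) y).norm_sq
    simpa using this
  have h2 : HasFDerivAt (fun z : EuclideanSpace ℝ (Fin n) => -‖z‖ ^ 2 / 4)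
      ((-(1 / 4) : ℝ) • (2 • innerSL ℝ y)) y := by
    have := h1.const_mul (-(1 / 4) : ℝ)
    refine (this.congr_of_eventuallyEq (Eventually.of_forall fun z => ?_))
    ring
  refine h2.exp.congr_fderiv ?_
  ext v
  simp
  ring

/-- The weak gradient. -/
theorem weak_grad (hP : Pw V) (hN : Ne V) {c θ : ℝ} (hθ : 0 < θ) (hk : θ + 1 < finrank ℝ V)
    {η : EuclideanSpace ℝ (Fin n) → ℝ} (hη : ContDiff ℝ ∞ η) (hηc : HasCompactSupport η)
    (v : EuclideanSpace ℝ (Fin n)) :
    ∫ y, c * (‖V.starProjection y‖ ^ 2 + 0 ^ 2) ^ (-θ / 2) * fderiv ℝ η y v =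
      -∫ y, (-(c * θ) * (‖V.starProjection y‖ ^ 2 + 0 ^ 2) ^ (-θ / 2 - 1) *
        inner ℝ (V.starProjection y) v) * η y := by
  have hηC : Continuous η := hη.continuous
  have hdC : Continuous (fun y => fderiv ℝ η y v) :=
    (hη.continuous_fderiv (by simp)).clm_apply continuous_const
  have hdc : HasCompactSupport (fun y => fderiv ℝ η y v) := by
    exact (hηc.fderiv (𝕜 := ℝ)).comp_left (g := fun L : EuclideanSpace ℝ (Fin n) →L[ℝ] ℝ => L v) rfl
  -- the functions in the term lemma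
  set F1 : EuclideanSpace ℝ (Fin n) → ℝ := fun y => c * fderiv ℝ η y v * exp (‖y‖ ^ 2 / 4) with hF1
  set F2 : EuclideanSpace ℝ (Fin n) → ℝ := fun y =>
    -(c * θ) * inner ℝ (V.starProjection y) v * (η y * exp (‖y‖ ^ 2 / 4)) with hF2
  have cF1 : Continuous F1 := by rw [hF1]; fun_prop
  have cF2 : Continuous F2 := by rw [hF2]; fun_prop
  obtain ⟨K1, hK1, bF1⟩ : ∃ K : ℝ, 0 ≤ K ∧ ∀ y, |F1 y| ≤ K := by
    refine bdd_of_compact cF1 ?_
    have : HasCompactSupport (fun y => c * fderiv ℝ η y v) := hdc.mul_left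
    exact this.mul_right
  obtain ⟨K2, hK2, bF2⟩ : ∃ K : ℝ, 0 ≤ K ∧ ∀ y, |η y * exp (‖y‖ ^ 2 / 4)| ≤ K :=
    bdd_of_compact (by fun_prop) hηc.mul_right
  have bF2' : ∀ y, |F2 y| ≤ (|c * θ| * ‖v‖ * K2) * ‖V.starProjection y‖ ^ 1 := by
    intro y
    rw [hF2]
    dsimp only
    rw [abs_mul, abs_mul, abs_neg, pow_one]
    calc |c * θ| * |inner ℝ (V.starProjection y) v| * |η y * exp (‖y‖ ^ 2 / 4)|
        ≤ |c * θ| * (‖V.starProjection y‖ * ‖v‖) * K2 := by
          refine mul_le_mul (mul_le_mul_of_nonneg_left (abs_real_inner_le_norm _ _) (abs_nonneg _))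
            (bF2 y) (abs_nonneg _) (by positivity)
      _ = _ := by ring
  have L1 := term_lim hP hN (a := θ) (m := 0) (K := K1) (by linarith) (by simpa using hθ.le) cF1
    (fun y => by simpa using bF1 y)
  have L2 := term_lim hP hN (a := θ + 1) (m := 1) (by linarith) (by positivity) cF2 bF2'
  have ew : ∀ y : EuclideanSpace ℝ (Fin n), exp (‖y‖ ^ 2 / 4) * exp (-‖y‖ ^ 2 / 4) = 1 := by
    intro y
    rw [← exp_add]
    simp [neg_div]
  have eq1 : ∀ (ε : ℝ) (y : EuclideanSpace ℝ (Fin n)),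
      (‖V.starProjection y‖ ^ 2 + ε ^ 2) ^ (-(θ + (0 : ℕ)) / 2) * F1 y * exp (-‖y‖ ^ 2 / 4) =
      c * (‖V.starProjection y‖ ^ 2 + ε ^ 2) ^ (-θ / 2) * fderiv ℝ η y v := by
    intro ε y
    rw [hF1]
    simp only [Nat.cast_zero, add_zero]
    linear_combination (c * (‖V.starProjection y‖ ^ 2 + ε ^ 2) ^ (-θ / 2) * fderiv ℝ η y v) * ew y
  have eq2 : ∀ (ε : ℝ) (y : EuclideanSpace ℝ (Fin n)),
      (‖V.starProjection y‖ ^ 2 + ε ^ 2) ^ (-(θ + 1 + (1 : ℕ)) / 2) * F2 y * exp (-‖y‖ ^ 2 / 4) =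
      (-(c * θ) * (‖V.starProjection y‖ ^ 2 + ε ^ 2) ^ (-θ / 2 - 1) *
        inner ℝ (V.starProjection y) v) * η y := by
    intro ε y
    rw [hF2]
    simp only [Nat.cast_one]
    rw [show -(θ + 1 + 1) / 2 = -θ / 2 - 1 by ring]
    linear_combination ((-(c * θ) * (‖V.starProjection y‖ ^ 2 + ε ^ 2) ^ (-θ / 2 - 1) *
        inner ℝ (V.starProjection y) v) * η y) * ew y
  simp only [eq1] at L1
  simp only [eq2] at L2
  refine tendsto_nhds_unique L1 (L2.neg.congr' ?_)
  filter_upwards [self_mem_nhdsWithin] with ε hε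
  have hε' : 0 < ε := hε
  have hd : ∀ y : EuclideanSpace ℝ (Fin n), HasFDerivAt
      (fun z => c * (‖V.starProjection z‖ ^ 2 + ε ^ 2) ^ (-θ / 2))
      (c • ((2 * (-θ / 2) * (‖V.starProjection y‖ ^ 2 + ε ^ 2) ^ (-θ / 2 - 1)) •
        innerSL ℝ (V.starProjection y))) y := fun y => (hasFDerivAt_T V _ ε hε' y).const_mul c
  have cT : Continuous (fun z : EuclideanSpace ℝ (Fin n) =>
      c * (‖V.starProjection z‖ ^ 2 + ε ^ 2) ^ (-θ / 2)) :=
    (contDiff_const.mul (contDiff_T V (-θ / 2) ε hε')).continuous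
  have cT' : Continuous (fun z : EuclideanSpace ℝ (Fin n) =>
      (‖V.starProjection z‖ ^ 2 + ε ^ 2) ^ (-θ / 2 - 1)) :=
    (contDiff_T V (-θ / 2 - 1) ε hε').continuous
  have e3 : ∀ y : EuclideanSpace ℝ (Fin n),
      fderiv ℝ (fun z => c * (‖V.starProjection z‖ ^ 2 + ε ^ 2) ^ (-θ / 2)) y v =
      -(c * θ) * (‖V.starProjection y‖ ^ 2 + ε ^ 2) ^ (-θ / 2 - 1) *
        inner ℝ (V.starProjection y) v := by
    intro y
    rw [(hd y).fderiv]
    simp only [smul_apply, innerSL_apply_apply, smul_eq_mul]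
    ring
  have hmain := integral_mul_fderiv_eq_neg_fderiv_mul_of_integrable (𝕜 := ℝ)
    (μ := (volume : Measure (EuclideanSpace ℝ (Fin n))))
    (f := fun z : EuclideanSpace ℝ (Fin n) => c * (‖V.starProjection z‖ ^ 2 + ε ^ 2) ^ (-θ / 2))
    (g := η) (v := v) ?_ ?_ ?_ ?_ ?_
  · simp only [e3] at hmain
    exact hmain.symm
  · simp only [e3]
    refine Continuous.integrable_of_hasCompactSupport (by fun_prop) hηc.mul_left
  · exact Continuous.integrable_of_hasCompactSupport (by fun_prop) hdc.mul_left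
  · exact Continuous.integrable_of_hasCompactSupport (by fun_prop) hηc.mul_left
  · exact fun x _ => (hd x).differentiableAt
  · exact fun x _ => (hη.differentiable (by simp)).differentiableAt

end

/-! ### Families of integrals -/

/-- All integrals exist and converge as `ε → 0` to the integral at `ε = 0`. -/
def Good (G : ℝ → EuclideanSpace ℝ (Fin n) → ℝ) : Prop :=
  (∀ ε, Integrable (G ε)) ∧ Tendsto (fun ε => ∫ y, G ε y) (𝓝[>] 0) (𝓝 (∫ y, G 0 y))

theorem Good.add {G H : ℝ → EuclideanSpace ℝ (Fin n) → ℝ} (hG : Good G) (hH : Good H) :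
    Good (fun ε y => G ε y + H ε y) := by
  refine ⟨fun ε => (hG.1 ε).add (hH.1 ε), ?_⟩
  have h := hG.2.add hH.2
  rw [← integral_add (hG.1 0) (hH.1 0)] at h
  refine h.congr fun ε => ?_
  rw [integral_add (hG.1 ε) (hH.1 ε)]

theorem Good.eq_zero {G : ℝ → EuclideanSpace ℝ (Fin n) → ℝ} (hG : Good G)
    (h : ∀ ε, 0 < ε → ∫ y, G ε y = 0) : ∫ y, G 0 y = 0 := by
  refine tendsto_nhds_unique hG.2 (tendsto_const_nhds.congr' ?_)
  filter_upwards [self_mem_nhdsWithin] with ε hε
  exact (h ε hε).symm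

theorem good_term (V : Submodule ℝ (EuclideanSpace ℝ (Fin n))) (hP : Pw V) (hN : Ne V) (b : ℝ)
    (m : ℕ) (K : ℝ) (hb : b ≤ 0) (hk : -2 * b - m < finrank ℝ V)
    {F : EuclideanSpace ℝ (Fin n) → ℝ} (hFc : Continuous F)
    (hF : ∀ y, |F y| ≤ K * ‖V.starProjection y‖ ^ m) :
    Good (fun (ε : ℝ) (y : EuclideanSpace ℝ (Fin n)) =>
      (‖V.starProjection y‖ ^ 2 + ε ^ 2) ^ b * F y * exp (-‖y‖ ^ 2 / 4)) := by
  have e : b = -((-2 * b - m) + m) / 2 := by ring
  rw [e]
  exact ⟨fun ε => term_int hP hN hk (by linarith) hFc hF ε,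
    term_lim hP hN hk (by linarith) hFc hF⟩

theorem bd2 (C r : ℝ) {K x : ℝ} (h : |x| ≤ K) : |C * (r ^ 2 * x)| ≤ |C| * K * r ^ 2 := by
  have h1 : |r ^ 2 * x| = r ^ 2 * |x| := by rw [abs_mul, abs_of_nonneg (sq_nonneg r)]
  rw [abs_mul C, h1]
  have := mul_le_mul_of_nonneg_left (mul_le_mul_of_nonneg_left h (sq_nonneg r)) (abs_nonneg C)
  linarith

/-- Condition 1. -/
theorem weak_eq (V : Submodule ℝ (EuclideanSpace ℝ (Fin n))) (hP : Pw V) (hN : Ne V) {c θ : ℝ}
    (hθ : 0 < θ) (hk : θ + 2 < finrank ℝ V)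
    {η : EuclideanSpace ℝ (Fin n) → ℝ} (hη : ContDiff ℝ ∞ η) (hηc : HasCompactSupport η) :
    ∫ y, (-(c * θ) * (‖V.starProjection y‖ ^ 2) ^ (-θ / 2 - 1) * fderiv ℝ η y (V.starProjection y) +
      η y * (θ / 2 * (c * (‖V.starProjection y‖ ^ 2) ^ (-θ / 2)) -
        c * θ * (finrank ℝ V - 2 - θ) * (‖V.starProjection y‖ ^ 2) ^ (-θ / 2 - 1))) *
      exp (-‖y‖ ^ 2 / 4) = 0 := by
  set k : ℝ := (finrank ℝ V : ℝ) with hkdef
  have hηC : Continuous η := hη.continuous
  have hf' : Continuous (fderiv ℝ η) := hη.continuous_fderiv (by simp)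
  have hdC : Continuous (fun y => fderiv ℝ η y (V.starProjection y)) :=
    hf'.clm_apply V.starProjection.continuous
  obtain ⟨K0, hK0, bη⟩ := bdd_of_compact hηC hηc
  obtain ⟨K1, hK1⟩ := hf'.bounded_above_of_compact_support (hηc.fderiv (𝕜 := ℝ))
  have G1 := good_term V hP hN (-θ / 2 - 1) 1 (|c * θ| * K1) (by linarith) (by push_cast; linarith)
    (F := fun y => -(c * θ) * fderiv ℝ η y (V.starProjection y)) (by fun_prop) (fun y => by
      rw [abs_mul, abs_neg, pow_one, mul_assoc]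
      refine mul_le_mul_of_nonneg_left ?_ (abs_nonneg _)
      exact ((fderiv ℝ η y).le_opNorm _).trans
        (mul_le_mul_of_nonneg_right (hK1 y) (norm_nonneg _)))
  have G2 := good_term V hP hN (-θ / 2 - 2) 2 (|c * θ * (θ + 2)| * K0) (by linarith)
    (by push_cast; linarith)
    (F := fun y => c * θ * (θ + 2) * (‖V.starProjection y‖ ^ 2 * η y)) (by fun_prop)
    (fun y => bd2 _ _ (bη y))
  have G3 := good_term V hP hN (-θ / 2 - 1) 2 (|1 / 2 * c * θ| * K0) (by linarith)
    (by push_cast; linarith)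
    (F := fun y => 1 / 2 * c * θ * (‖V.starProjection y‖ ^ 2 * η y)) (by fun_prop)
    (fun y => bd2 _ _ (bη y))
  have G4 := good_term V hP hN (-θ / 2 - 1) 0 (|k * c * θ| * K0) (by linarith)
    (by push_cast; linarith)
    (F := fun y => -(k * c * θ) * η y) (by fun_prop) (fun y => by
      rw [abs_mul, abs_neg, pow_zero, mul_one]
      exact mul_le_mul_of_nonneg_left (bη y) (abs_nonneg _))
  have G := ((G1.add G2).add G3).add G4
  have H := G.eq_zero ?_
  · rw [← H]
    refine integral_congr_ae ?_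
    filter_upwards [hN] with y hy
    have h0 : 0 < ‖V.starProjection y‖ ^ 2 := by positivity
    have e1 : (‖V.starProjection y‖ ^ 2) ^ (-θ / 2 - 1) =
        (‖V.starProjection y‖ ^ 2) ^ (-θ / 2 - 2) * ‖V.starProjection y‖ ^ 2 := by
      rw [← rpow_add_one h0.ne']
      congr 1
      ring
    have e2 : (‖V.starProjection y‖ ^ 2) ^ (-θ / 2) =
        (‖V.starProjection y‖ ^ 2) ^ (-θ / 2 - 2) * ‖V.starProjection y‖ ^ 2 *
          ‖V.starProjection y‖ ^ 2 := by
      rw [← rpow_add_one h0.ne', ← rpow_add_one h0.ne']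
      congr 1
      ring
    simp only [ne_eq, OfNat.ofNat_ne_zero, not_false_eq_true, zero_pow, add_zero]
    rw [e1, e2]
    ring
  · intro ε hε
    set g : EuclideanSpace ℝ (Fin n) → ℝ := fun y =>
      η y * ((‖V.starProjection y‖ ^ 2 + ε ^ 2) ^ (-θ / 2 - 1) *
        (-(c * θ) * exp (-‖y‖ ^ 2 / 4))) with hg
    have cg : ContDiff ℝ 1 g := by
      have h1 : ContDiff ℝ ∞ (fun y : EuclideanSpace ℝ (Fin n) => exp (-‖y‖ ^ 2 / 4)) := by
        have : ContDiff ℝ ∞ (fun y : EuclideanSpace ℝ (Fin n) => ‖y‖ ^ 2) := contDiff_norm_sq ℝ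
        exact (this.neg.div_const 4).exp
      exact (hη.mul ((contDiff_T V _ ε hε).mul (contDiff_const.mul h1))).of_le (by simp)
    have hgc : HasCompactSupport g := hηc.mul_right
    have hdiv := div_radial V g cg hgc
    have hder : ∀ y, fderiv ℝ g y (V.starProjection y) =
        fderiv ℝ η y (V.starProjection y) * ((‖V.starProjection y‖ ^ 2 + ε ^ 2) ^ (-θ / 2 - 1) *
          (-(c * θ) * exp (-‖y‖ ^ 2 / 4))) +
        η y * ((2 * (-θ / 2 - 1) * (‖V.starProjection y‖ ^ 2 + ε ^ 2) ^ (-θ / 2 - 1 - 1) *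
            ‖V.starProjection y‖ ^ 2) * (-(c * θ) * exp (-‖y‖ ^ 2 / 4)) +
          (‖V.starProjection y‖ ^ 2 + ε ^ 2) ^ (-θ / 2 - 1) *
            (-(c * θ) * (-(1 / 2) * exp (-‖y‖ ^ 2 / 4) * ‖V.starProjection y‖ ^ 2))) := by
      intro y
      have d1 := (hη.differentiable (by simp) y).hasFDerivAt
      have d2 := hasFDerivAt_T V (-θ / 2 - 1) ε hε y
      have d3 := (hasFDerivAt_wt y).const_mul (-(c * θ))
      have d := d1.mul (d2.mul d3)
      have hs : inner ℝ y (V.starProjection y) = ‖V.starProjection y‖ ^ 2 := by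
        have e3 : inner ℝ (V.starProjection (V.starProjection y)) y =
            inner ℝ (V.starProjection y) (V.starProjection y) :=
          Submodule.inner_starProjection_left_eq_right V (V.starProjection y) y
        rw [Submodule.starProjection_eq_self_iff.2 (V.starProjection_apply_mem y)] at e3
        rw [real_inner_comm, e3, real_inner_self_eq_norm_sq]
      have dg : HasFDerivAt g _ y := d
      rw [dg.fderiv]
      simp only [ContinuousLinearMap.add_apply, ContinuousLinearMap.smul_apply, smul_eq_mul,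
        innerSL_apply_apply, real_inner_self_eq_norm_sq, hs, Pi.mul_apply]
      ring
    have hint : Integrable (fun y => fderiv ℝ g y (V.starProjection y)) :=
      ((cg.continuous_fderiv (by simp)).clm_apply V.starProjection.continuous).integrable_of_hasCompactSupport
        (by
          refine HasCompactSupport.intro (K := tsupport g) hgc fun y hy => ?_
          rw [fderiv_of_notMem_tsupport ℝ hy]
          rfl)
    have hint2 : Integrable g := cg.continuous.integrable_of_hasCompactSupport hgc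
    calc ∫ y, _ = ∫ y, (fderiv ℝ g y (V.starProjection y) + k * g y) := by
          refine integral_congr_ae (Eventually.of_forall fun y => ?_)
          dsimp only
          rw [hder y, hg, show -θ / 2 - 1 - 1 = -θ / 2 - 2 by ring]
          ring
      _ = 0 := by
          rw [integral_add hint (hint2.const_mul k), hdiv, integral_const_mul]
          ring

end Pool.Agent.FujCyl
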