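import Pool.Agent.FujCyl.Def
import Pool.Agent.FujCyl.Gam
import Pool.Agent.FujCyl.Rad
import Pool.Agent.FujCyl.Weak

/-!
# The cylinders are suitable weak solutions; their energy

`gradient_cyl`, `norm_gradient`, `inner_gradient` are by helper27 and `reg_pos` is by helper64.
-/

namespace Pool.Agent.FujCyl

open Real Filter Topology MeasureTheory Module
open scoped ContDiff

/-! ### The integrals -/

theorem int_rho {n : ℕ} (V : Submodule ℝ (EuclideanSpace ℝ (Fin n))) (hV : 0 < finrank ℝ V)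
    {a : ℝ} (ha : a < finrank ℝ V) :
    ∫ y, ‖V.starProjection y‖ ^ (-a) * rho n y =
      (2 : ℝ) ^ (-a) * Gamma ((finrank ℝ V - a) / 2) / Gamma ((finrank ℝ V : ℝ) / 2) := by
  have h1 : ∀ y : EuclideanSpace ℝ (Fin n), ‖V.starProjection y‖ ^ (-a) * rho n y =
      (4 * π) ^ (-(n : ℝ) / 2) * (‖V.starProjection y‖ ^ (-a) * exp (-‖y‖ ^ 2 / 4)) := by
    intro y
    unfold rho
    ring
  simp_rw [h1]
  rw [integral_const_mul, split_int V (fun r => r ^ (-a)), int_pow hV ha]
  have h2 : (finrank ℝ V : ℝ) + finrank ℝ Vᗮ = n := by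
    have := V.finrank_add_finrank_orthogonal
    rw [finrank_euclideanSpace_fin] at this
    exact_mod_cast this
  have h3 : (4 * π) ^ (-(n : ℝ) / 2) * (4 * π) ^ ((finrank ℝ V : ℝ) / 2) *
      (4 * π) ^ ((finrank ℝ Vᗮ : ℝ) / 2) = 1 := by
    rw [← rpow_add (by positivity), ← rpow_add (by positivity),
      show -(n : ℝ) / 2 + (finrank ℝ V : ℝ) / 2 + (finrank ℝ Vᗮ : ℝ) / 2 = 0 by
        rw [← h2]; ring, rpow_zero]
  linear_combination ((2 : ℝ) ^ (-a) * Gamma ((finrank ℝ V - a) / 2) /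
    Gamma ((finrank ℝ V : ℝ) / 2)) * h3

theorem integrable_rho {n : ℕ} (V : Submodule ℝ (EuclideanSpace ℝ (Fin n))) (hV : 0 < finrank ℝ V)
    {a : ℝ} (ha : a < finrank ℝ V) :
    Integrable (fun y => ‖V.starProjection y‖ ^ (-a) * rho n y) := by
  by_contra h
  have h1 := integral_undef h
  rw [int_rho V hV ha] at h1
  have hk : (0 : ℝ) < finrank ℝ V := by exact_mod_cast hV
  have h2 : 0 < (2 : ℝ) ^ (-a) * Gamma ((finrank ℝ V - a) / 2) / Gamma ((finrank ℝ V : ℝ) / 2) :=
    div_pos (mul_pos (by positivity) (Gamma_pos_of_pos (by linarith)))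
      (Gamma_pos_of_pos (by positivity))
  linarith

theorem rho_eq {n : ℕ} (y : EuclideanSpace ℝ (Fin n)) :
    exp (-‖y‖ ^ 2 / 4) = (4 * π) ^ ((n : ℝ) / 2) * rho n y := by
  unfold rho
  rw [← mul_assoc, ← rpow_add (by positivity), show (n : ℝ) / 2 + -(n : ℝ) / 2 = 0 by ring,
    rpow_zero, one_mul]

theorem pw {n : ℕ} (V : Submodule ℝ (EuclideanSpace ℝ (Fin n))) (hV : 0 < finrank ℝ V) :
    Pw V := by
  intro a ha
  refine ((integrable_rho V hV ha).const_mul ((4 * π) ^ ((n : ℝ) / 2))).congr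
    (Eventually.of_forall fun y => ?_)
  dsimp only
  rw [rho_eq y]
  ring

theorem ae_ne {n : ℕ} (V : Submodule ℝ (EuclideanSpace ℝ (Fin n))) (hV : 0 < finrank ℝ V) :
    Ne V := by
  have hne : Vᗮ ≠ ⊤ := by
    intro h
    have h1 := V.finrank_add_finrank_orthogonal
    rw [h, finrank_top] at h1
    omega
  have h0 := Measure.addHaar_submodule (volume : Measure (EuclideanSpace ℝ (Fin n))) Vᗮ hne
  have h2 : ∀ᵐ y : EuclideanSpace ℝ (Fin n), y ∉ (Vᗮ : Set (EuclideanSpace ℝ (Fin n))) :=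
    measure_eq_zero_iff_ae_notMem.1 h0
  unfold Ne
  filter_upwards [h2] with y hy h3
  exact hy ((Submodule.starProjection_apply_eq_zero_iff V).1 h3)

theorem int_const (n : ℕ) : ∫ y, rho n y = 1 := by
  unfold rho
  rw [integral_const_mul]
  have h1 : ∀ y : EuclideanSpace ℝ (Fin n), exp (-‖y‖ ^ 2 / 4) = exp (-(1 / 4) * ‖y‖ ^ 2) := by
    intro y
    congr 1
    ring
  simp_rw [h1]
  rw [GaussianFourier.integral_rexp_neg_mul_sq_norm (by norm_num), finrank_euclideanSpace_fin,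
    show π / (1 / 4) = 4 * π by ring, ← rpow_add (by positivity),
    show -(n : ℝ) / 2 + (n : ℝ) / 2 = 0 by ring, rpow_zero]

theorem kappa_pow {p : ℝ} (hp : 1 < p) : kappa p ^ (p - 1) = 1 / (p - 1) := by
  unfold kappa
  have h : p - 1 ≠ 0 := by linarith
  rw [← rpow_mul (by linarith), div_mul_cancel₀ _ h, rpow_neg_one, one_div]

theorem kappa_pos {p : ℝ} (hp : 1 < p) : 0 < kappa p := rpow_pos_of_pos (by linarith) _

theorem energy_kappa (n : ℕ) {p : ℝ} (hp : 1 < p) :
    energy n p (fun _ => kappa p) (fun _ => 0) = (1 / 2 - 1 / (p + 1)) * (kappa p ^ 2 / (p - 1)) := by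
  have hk := kappa_pos hp
  unfold energy
  have h1 : ∫ y : EuclideanSpace ℝ (Fin n), ‖(0 : EuclideanSpace ℝ (Fin n))‖ ^ 2 * rho n y = 0 := by
    simp
  have h2 : ∫ y : EuclideanSpace ℝ (Fin n), kappa p ^ 2 * rho n y = kappa p ^ 2 := by
    rw [integral_const_mul, int_const, mul_one]
  have h3 : ∫ y : EuclideanSpace ℝ (Fin n), |kappa p| ^ (p + 1) * rho n y = kappa p ^ 2 / (p - 1) := by
    rw [integral_const_mul, int_const, mul_one, abs_of_pos hk,
      show p + 1 = 2 + (p - 1) by ring, rpow_add hk, kappa_pow hp, rpow_two]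
    ring
  rw [h1, h2, h3]
  have : p - 1 ≠ 0 := by linarith
  have : p + 1 ≠ 0 := by linarith
  field_simp
  ring

/-! ### The gradient (helper27) -/

theorem inner_proj_self' {n : ℕ} (V : Submodule ℝ (EuclideanSpace ℝ (Fin n)))
    (y h : EuclideanSpace ℝ (Fin n)) :
    inner ℝ (V.starProjection y) (V.starProjection h) = inner ℝ (V.starProjection y) h := by
  rw [← Submodule.inner_starProjection_left_eq_right]
  congr 1
  exact Submodule.starProjection_eq_self_iff.2 (Submodule.starProjection_apply_mem V y)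

theorem hasGradientAt_norm_rpow {n : ℕ} (V : Submodule ℝ (EuclideanSpace ℝ (Fin n))) (c θ : ℝ)
    (y : EuclideanSpace ℝ (Fin n)) (hy : V.starProjection y ≠ 0) :
    HasGradientAt (fun y => c * ‖V.starProjection y‖ ^ (-θ))
      ((-(c * θ) * ‖V.starProjection y‖ ^ (-θ - 2)) • V.starProjection y) y := by
  have hn := norm_pos_iff.2 hy
  have hq : 0 < ‖V.starProjection y‖ ^ 2 := by positivity
  have h1 : HasFDerivAt (fun y => ‖V.starProjection y‖ ^ 2)
      ((2 : ℝ) • (innerSL ℝ (V.starProjection y) : EuclideanSpace ℝ (Fin n) →L[ℝ] ℝ)) y := by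
    have h := (V.starProjection.hasFDerivAt (x := y)).norm_sq
    refine h.congr_fderiv ?_
    ext z
    simp [inner_proj_self']
  have h2 := (h1.rpow_const (p := -(θ / 2)) (Or.inl hq.ne')).const_mul c
  have h3 : (fun y => c * ‖V.starProjection y‖ ^ (-θ)) =
      fun y => c * (‖V.starProjection y‖ ^ 2) ^ (-(θ / 2)) := by
    funext z
    rw [← Real.rpow_natCast _ 2, ← Real.rpow_mul (norm_nonneg _)]
    congr 2
    push_cast
    ring
  rw [hasGradientAt_iff_hasFDerivAt, h3]
  refine h2.congr_fderiv ?_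
  ext z
  have h4 : (‖V.starProjection y‖ ^ 2) ^ (-(θ / 2) - 1) = ‖V.starProjection y‖ ^ (-θ - 2) := by
    rw [← Real.rpow_natCast _ 2, ← Real.rpow_mul (norm_nonneg _)]
    congr 1
    push_cast
    ring
  simp only [smul_apply, smul_eq_mul, innerSL_apply_apply, InnerProductSpace.toDual_apply_apply,
    real_inner_smul_left, h4]
  ring

theorem gradient_cyl {n : ℕ} (p : ℝ) (V : Submodule ℝ (EuclideanSpace ℝ (Fin n)))
    (y : EuclideanSpace ℝ (Fin n)) (hy : V.starProjection y ≠ 0) :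
    gradient (cyl p V) y =
      (-((2 / (p - 1) * (finrank ℝ V - 2 - 2 / (p - 1))) ^ (1 / (p - 1)) * (2 / (p - 1))) *
        ‖V.starProjection y‖ ^ (-(2 / (p - 1)) - 2)) • V.starProjection y :=
  (hasGradientAt_norm_rpow V _ _ y hy).gradient

theorem norm_gradient {n : ℕ} (w : EuclideanSpace ℝ (Fin n) → ℝ) (y : EuclideanSpace ℝ (Fin n)) :
    ‖gradient w y‖ = ‖fderiv ℝ w y‖ := by
  rw [gradient, LinearIsometryEquiv.norm_map]

/-! ### The cylinders -/

section
variable {n : ℕ} {p : ℝ} (hp : 1 < p) (V : Submodule ℝ (EuclideanSpace ℝ (Fin n)))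
  (hV : 2 * (p + 1) < finrank ℝ V * (p - 1))

include hp hV

theorem dim_pos : 0 < finrank ℝ V := by
  rcases Nat.eq_zero_or_pos (finrank ℝ V) with h | h
  · rw [h, Nat.cast_zero, zero_mul] at hV
    linarith
  · exact h

theorem dim_lt : 2 * (2 / (p - 1)) + 2 < finrank ℝ V := by
  have h : 0 < p - 1 := by linarith
  have h1 : 2 * (2 / (p - 1)) + 2 = 2 * (p + 1) / (p - 1) := by
    field_simp
    ring
  rw [h1, div_lt_iff₀ h]
  exact hV

theorem cyl_equation {y : EuclideanSpace ℝ (Fin n)} (hy : V.starProjection y ≠ 0) :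
    0 < cyl p V y ∧ ContDiffAt ℝ ∞ (cyl p V) y ∧
      Laplacian.laplacian (cyl p V) y - 1 / 2 * fderiv ℝ (cyl p V) y y -
        1 / (p - 1) * cyl p V y + |cyl p V y| ^ (p - 1) * cyl p V y = 0 := by
  have hp1 : 0 < p - 1 := by linarith
  have hlt := dim_lt hp V hV
  have hθ0 : 0 < 2 / (p - 1) := by positivity
  have hb : 0 < 2 / (p - 1) * ((finrank ℝ V : ℝ) - 2 - 2 / (p - 1)) :=
    mul_pos hθ0 (by linarith)
  have h0 : 0 < ‖V.starProjection y‖ := norm_pos_iff.2 hy
  refine ⟨mul_pos (rpow_pos_of_pos hb _) (rpow_pos_of_pos h0 _), ?_,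
    cyl_solves V hp rfl hb hy (w := cyl p V) rfl⟩
  unfold cyl
  exact contDiffAt_const.mul (((contDiffAt_norm ℝ hy).comp y
    V.starProjection.contDiff.contDiffAt).rpow_const_of_ne h0.ne')

theorem energy_cyl :
    (Integrable (fun y => ‖gradient (cyl p V) y‖ ^ 2 * rho n y) ∧
      Integrable (fun y => cyl p V y ^ 2 * rho n y) ∧
      Integrable (fun y => |cyl p V y| ^ (p + 1) * rho n y)) ∧
      energy n p (cyl p V) (gradient (cyl p V)) =
        energy n p (fun _ => kappa p) (fun _ => 0) * ratio p (finrank ℝ V) := by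
  have hp1 : 0 < p - 1 := by linarith
  have hV0 := dim_pos hp V hV
  have hlt := dim_lt hp V hV
  set θ := 2 / (p - 1) with hθ
  have hθ0 : 0 < θ := by positivity
  set k := finrank ℝ V with hk
  set c := (θ * (k - 2 - θ)) ^ (1 / (p - 1)) with hc
  have hb : 0 < θ * ((k : ℝ) - 2 - θ) := mul_pos hθ0 (by linarith)
  have hc0 : 0 < c := rpow_pos_of_pos hb _
  have hw : cyl p V = fun y => c * ‖V.starProjection y‖ ^ (-θ) := rfl
  have hθp : θ * (p + 1) = 2 * θ + 2 := by
    rw [hθ]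
    field_simp
    ring
  have hcp : c ^ (p + 1) = c ^ 2 * (θ * (k - 2 - θ)) := by
    rw [show p + 1 = 2 + (p - 1) by ring, rpow_add hc0, rpow_two]
    congr 1
    rw [hc, ← rpow_mul hb.le, div_mul_cancel₀ _ hp1.ne', rpow_one]
  have e1 : (fun y => ‖gradient (cyl p V) y‖ ^ 2 * rho n y) =ᵐ[volume]
      fun y => (c ^ 2 * θ ^ 2) * (‖V.starProjection y‖ ^ (-(2 * θ + 2)) * rho n y) := by
    filter_upwards [ae_ne V hV0] with y hy
    have h0 : 0 < ‖V.starProjection y‖ := norm_pos_iff.2 hy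
    rw [norm_gradient, hw, norm_fderiv_cyl V hc0 hθ0 hy, mul_pow, mul_pow,
      ← rpow_natCast (_ ^ (-θ - 1)) 2, ← rpow_mul h0.le,
      show (-θ - 1) * ((2 : ℕ) : ℝ) = -(2 * θ + 2) by push_cast; ring]
    ring
  have e2 : (fun y => (cyl p V y) ^ 2 * rho n y) =ᵐ[volume]
      fun y => c ^ 2 * (‖V.starProjection y‖ ^ (-(2 * θ)) * rho n y) := by
    filter_upwards [ae_ne V hV0] with y hy
    have h0 : 0 < ‖V.starProjection y‖ := norm_pos_iff.2 hy
    rw [hw]
    dsimp only
    rw [mul_pow, ← rpow_natCast (_ ^ (-θ)) 2,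
      ← rpow_mul h0.le, show -θ * ((2 : ℕ) : ℝ) = -(2 * θ) by push_cast; ring]
    ring
  have e3 : (fun y => |cyl p V y| ^ (p + 1) * rho n y) =ᵐ[volume]
      fun y => c ^ (p + 1) * (‖V.starProjection y‖ ^ (-(2 * θ + 2)) * rho n y) := by
    filter_upwards [ae_ne V hV0] with y hy
    have h0 : 0 < ‖V.starProjection y‖ := norm_pos_iff.2 hy
    rw [hw]
    dsimp only
    rw [abs_of_pos (by positivity), mul_rpow hc0.le (by positivity), ← rpow_mul h0.le, neg_mul, hθp]
    ring
  have i1 := integrable_rho V hV0 hlt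
  have i2 := integrable_rho V hV0 (a := 2 * θ) (by linarith)
  refine ⟨⟨?_, ?_, ?_⟩, ?_⟩
  · exact (i1.const_mul _).congr e1.symm
  · exact (i2.const_mul _).congr e2.symm
  · exact (i1.const_mul _).congr e3.symm
  rw [energy_kappa n hp]
  unfold energy
  rw [integral_congr_ae e1, integral_congr_ae e2, integral_congr_ae e3, integral_const_mul,
    integral_const_mul, integral_const_mul, int_rho V hV0 hlt,
    int_rho V hV0 (a := 2 * θ) (by linarith), hcp, ← hk]
  have hk0 : (0 : ℝ) < k := by exact_mod_cast hV0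
  have g1 : Gamma (((k : ℝ) - 2 * θ) / 2) = ((k - 2 * θ - 2) / 2) * Gamma ((k - (2 * θ + 2)) / 2) := by
    rw [show ((k : ℝ) - 2 * θ) / 2 = (k - (2 * θ + 2)) / 2 + 1 by ring,
      Gamma_add_one (by linarith)]
    ring
  have g2 : (2 : ℝ) ^ (-(2 * θ)) = 4 * 2 ^ (-(2 * θ + 2)) := by
    rw [show -(2 * θ) = 2 + -(2 * θ + 2) by ring, rpow_add (by norm_num)]
    norm_num
  have hGk : 0 < Gamma ((k : ℝ) / 2) := Gamma_pos_of_pos (by positivity)
  set G := Gamma (((k : ℝ) - (2 * θ + 2)) / 2) with hG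
  -- the exponents
  have s1 : (p + 1) / (p - 1) = 1 + θ := by
    rw [hθ]
    field_simp
    ring
  have s2 : p / (p - 1) = 1 + θ / 2 := by
    rw [hθ]
    field_simp
    ring
  have r1 : ratio p k = ((k - 2 - θ) / 2) ^ (1 + θ) * (G / Gamma ((k : ℝ) / 2)) := by
    unfold ratio
    rw [s1, s2, hG]
    congr 3 <;> ring
  have hx : 0 < (k : ℝ) - 2 - θ := by linarith
  -- `c² = κ² (2 (k - 2 - θ))^θ`
  have c1 : c ^ 2 = kappa p ^ 2 * (2 * (k - 2 - θ)) ^ θ := by
    have h1 : c = kappa p * (2 * (k - 2 - θ)) ^ (1 / (p - 1)) := by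
      rw [hc, kappa, show θ * ((k : ℝ) - 2 - θ) = (p - 1)⁻¹ * (2 * (k - 2 - θ)) by rw [hθ]; field_simp,
        mul_rpow (by positivity) (by positivity), inv_rpow hp1.le, ← rpow_neg hp1.le]
      congr 2
      ring
    rw [h1, mul_pow, ← rpow_natCast (_ ^ (1 / (p - 1))) 2, ← rpow_mul (by positivity)]
    congr 2
    rw [hθ]
    push_cast
    ring
  have c2 : (2 * ((k : ℝ) - 2 - θ)) ^ θ * (2 * (k - 2 - θ)) * 2 ^ (-(2 * θ + 2)) =
      ((k - 2 - θ) / 2) ^ (1 + θ) := by
    have h1 : (2 * ((k : ℝ) - 2 - θ)) ^ θ * (2 * (k - 2 - θ)) = (2 * (k - 2 - θ)) ^ (1 + θ) := by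
      rw [rpow_add (by positivity), rpow_one]
      ring
    have h2 : (2 : ℝ) ^ (-(2 * θ + 2)) = (1 / 4) ^ (1 + θ) := by
      rw [show ((1 : ℝ) / 4) = 2 ^ (-2 : ℝ) by norm_num [rpow_neg], ← rpow_mul (by norm_num)]
      congr 1
      ring
    rw [h1, h2, ← mul_rpow (by positivity) (by norm_num)]
    congr 1
    ring
  rw [r1, ← c2, g1, g2, c1]
  have d2 : 1 / (2 * (p - 1)) = θ / 4 := by rw [hθ]; field_simp; norm_num
  have d3 : kappa p ^ 2 / (p - 1) = kappa p ^ 2 * (θ / 2) := by rw [hθ]; ring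
  rw [d2, d3]
  ring

/-- The weak gradient of the cylinder. -/
theorem cyl_grad : IsWeakGradient (cyl p V) (gradient (cyl p V)) := by
  have hp1 : 0 < p - 1 := by linarith
  have hV0 := dim_pos hp V hV
  have hlt := dim_lt hp V hV
  have hP := pw V hV0
  have hN := ae_ne V hV0
  set θ := 2 / (p - 1) with hθ
  have hθ0 : 0 < θ := by positivity
  set c := (θ * ((finrank ℝ V : ℝ) - 2 - θ)) ^ (1 / (p - 1)) with hc
  have hb : 0 < θ * ((finrank ℝ V : ℝ) - 2 - θ) := mul_pos hθ0 (by linarith)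
  have hc0 : 0 < c := rpow_pos_of_pos hb _
  have hw : cyl p V = fun y => c * ‖V.starProjection y‖ ^ (-θ) := rfl
  have hg : ∀ y : EuclideanSpace ℝ (Fin n), V.starProjection y ≠ 0 → gradient (cyl p V) y =
      (-(c * θ) * ‖V.starProjection y‖ ^ (-θ - 2)) • V.starProjection y := fun y hy =>
    gradient_cyl p V y hy
  have ew : ∀ y : EuclideanSpace ℝ (Fin n), exp (‖y‖ ^ 2 / 4) * exp (-‖y‖ ^ 2 / 4) = 1 := by
    intro y
    rw [← exp_add]
    simp [neg_div]
  have cw : Continuous (fun y : EuclideanSpace ℝ (Fin n) => exp (‖y‖ ^ 2 / 4)) := by fun_prop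
  have cw' : Continuous (fun y : EuclideanSpace ℝ (Fin n) => exp (-‖y‖ ^ 2 / 4)) := by fun_prop
  refine ⟨?_, ?_, ?_⟩
  · have h1 := LocallyIntegrable.continuous_mul (cw.const_mul c)
      (hP θ (by linarith)).locallyIntegrable
    refine h1.congr (Eventually.of_forall fun y => ?_)
    rw [hw]
    dsimp only
    linear_combination (c * ‖V.starProjection y‖ ^ (-θ)) * ew y
  · have hm : Measurable (fun y : EuclideanSpace ℝ (Fin n) =>
        (-(c * θ) * ‖V.starProjection y‖ ^ (-θ - 2)) • V.starProjection y) := by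
      have h1 : Measurable (fun y : EuclideanSpace ℝ (Fin n) => ‖V.starProjection y‖ ^ (-θ - 2)) :=
        V.starProjection.continuous.norm.measurable.pow_const _
      exact (h1.const_mul _).smul V.starProjection.continuous.measurable
    have hi : Integrable (fun y : EuclideanSpace ℝ (Fin n) => exp (-‖y‖ ^ 2 / 4) •
        ((-(c * θ) * ‖V.starProjection y‖ ^ (-θ - 2)) • V.starProjection y)) := by
      refine ((hP (θ + 1) (by linarith)).const_mul (c * θ)).mono'
        (cw'.measurable.smul hm).aestronglyMeasurable ?_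
      filter_upwards [hN] with y hy
      have h0 : 0 < ‖V.starProjection y‖ := norm_pos_iff.2 hy
      rw [norm_smul, norm_smul, norm_of_nonneg (exp_pos _).le, norm_mul, norm_neg,
        norm_of_nonneg (mul_pos hc0 hθ0).le, norm_of_nonneg (rpow_nonneg h0.le _)]
      have h1 : ‖V.starProjection y‖ ^ (-(θ + 1)) =
          ‖V.starProjection y‖ ^ (-θ - 2) * ‖V.starProjection y‖ := by
        rw [← rpow_add_one h0.ne']
        congr 1
        ring
      rw [h1]
      exact le_of_eq (by ring)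
    have h1 := LocallyIntegrable.continuous_smul cw hi.locallyIntegrable
    refine h1.congr ?_
    filter_upwards [hN] with y hy
    rw [smul_smul, ew y, one_smul, hg y hy]
  · intro η hη hηc v
    have h := weak_grad (c := c) hP hN hθ0 (by linarith) hη hηc v
    simp only [ne_eq, OfNat.ofNat_ne_zero, not_false_eq_true, zero_pow, add_zero] at h
    have e1 : (fun y => c * (‖V.starProjection y‖ ^ 2) ^ (-θ / 2) * fderiv ℝ η y v) =
        fun y => cyl p V y * fderiv ℝ η y v := by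
      funext y
      rw [hw]
      dsimp only
      rw [← rpow_natCast _ 2, ← rpow_mul (norm_nonneg _),
        show ((2 : ℕ) : ℝ) * (-θ / 2) = -θ by push_cast; ring]
    have e2 : (fun y => (-(c * θ) * (‖V.starProjection y‖ ^ 2) ^ (-θ / 2 - 1) *
        inner ℝ (V.starProjection y) v) * η y) =ᵐ[volume]
        fun y => inner ℝ (gradient (cyl p V) y) v * η y := by
      filter_upwards [hN] with y hy
      rw [hg y hy, real_inner_smul_left, ← rpow_natCast _ 2, ← rpow_mul (norm_nonneg _),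
        show ((2 : ℕ) : ℝ) * (-θ / 2 - 1) = -θ - 2 by push_cast; ring]
    rw [e1, integral_congr_ae e2] at h
    exact h

/-- Condition 1 for the cylinder. -/
theorem cyl_cond1 {η : EuclideanSpace ℝ (Fin n) → ℝ} (hη : ContDiff ℝ ∞ η)
    (hηc : HasCompactSupport η) :
    ∫ y, (fderiv ℝ η y (gradient (cyl p V) y) + 1 / (p - 1) * cyl p V y * η y -
      |cyl p V y| ^ (p - 1) * cyl p V y * η y) * exp (-‖y‖ ^ 2 / 4) = 0 := by
  have hp1 : 0 < p - 1 := by linarith
  have hV0 := dim_pos hp V hV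
  have hlt := dim_lt hp V hV
  have hP := pw V hV0
  have hN := ae_ne V hV0
  set θ := 2 / (p - 1) with hθ
  have hθ0 : 0 < θ := by positivity
  set c := (θ * ((finrank ℝ V : ℝ) - 2 - θ)) ^ (1 / (p - 1)) with hc
  have hb : 0 < θ * ((finrank ℝ V : ℝ) - 2 - θ) := mul_pos hθ0 (by linarith)
  have hc0 : 0 < c := rpow_pos_of_pos hb _
  have hw : cyl p V = fun y => c * ‖V.starProjection y‖ ^ (-θ) := rfl
  have hcp : c ^ (p - 1) = θ * ((finrank ℝ V : ℝ) - 2 - θ) := by
    rw [hc, ← rpow_mul hb.le, div_mul_cancel₀ _ hp1.ne', rpow_one]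
  rw [← weak_eq V (c := c) hP hN hθ0 (by linarith) hη hηc]
  refine integral_congr_ae ?_
  filter_upwards [hN] with y hy
  have h0 : 0 < ‖V.starProjection y‖ := norm_pos_iff.2 hy
  have hg : gradient (cyl p V) y =
      (-(c * θ) * ‖V.starProjection y‖ ^ (-θ - 2)) • V.starProjection y := gradient_cyl p V y hy
  have e1 : (‖V.starProjection y‖ ^ 2) ^ (-θ / 2 - 1) = ‖V.starProjection y‖ ^ (-θ - 2) := by
    rw [← rpow_natCast _ 2, ← rpow_mul (norm_nonneg _),
      show ((2 : ℕ) : ℝ) * (-θ / 2 - 1) = -θ - 2 by push_cast; ring]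
  have e2 : (‖V.starProjection y‖ ^ 2) ^ (-θ / 2) = ‖V.starProjection y‖ ^ (-θ) := by
    rw [← rpow_natCast _ 2, ← rpow_mul (norm_nonneg _),
      show ((2 : ℕ) : ℝ) * (-θ / 2) = -θ by push_cast; ring]
  have e3 : |cyl p V y| ^ (p - 1) =
      θ * ((finrank ℝ V : ℝ) - 2 - θ) * ‖V.starProjection y‖ ^ (-2 : ℝ) := by
    rw [hw]
    dsimp only
    rw [abs_of_pos (by positivity), mul_rpow hc0.le (by positivity), hcp, ← rpow_mul h0.le]
    congr 2
    rw [hθ]
    field_simp
  have e4 : ‖V.starProjection y‖ ^ (-θ - 2) =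
      ‖V.starProjection y‖ ^ (-2 : ℝ) * ‖V.starProjection y‖ ^ (-θ) := by
    rw [← rpow_add h0]
    congr 1
    ring
  have e5 : 1 / (p - 1) = θ / 2 := by
    rw [hθ]
    ring
  rw [e1, e2, e3, e5, hg, map_smul, smul_eq_mul, hw]
  dsimp only
  rw [e4]
  ring

end

/-! ### The regular set (helper64) -/

theorem reg_pos {n : ℕ} {p : ℝ} (hp : 1 < p) (V : Submodule ℝ (EuclideanSpace ℝ (Fin n)))
    (hV : 2 * (p + 1) < finrank ℝ V * (p - 1)) {y : EuclideanSpace ℝ (Fin n)}
    (h : ∀ᶠ z in 𝓝 y, ContDiffAt ℝ ∞ (cyl p V) z) : 0 < cyl p V y := by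
  have hp1 : 0 < p - 1 := by linarith
  have hθ : 0 < 2 / (p - 1) := by positivity
  have hk : 0 < (finrank ℝ V : ℝ) - 2 - 2 / (p - 1) := by
    have e : (finrank ℝ V : ℝ) - 2 - 2 / (p - 1) = ((finrank ℝ V : ℝ) * (p - 1) - 2 * p) / (p - 1) := by
      field_simp
      ring
    rw [e]
    exact div_pos (by linarith) hp1
  have hA : 0 < (2 / (p - 1) * (finrank ℝ V - 2 - 2 / (p - 1))) ^ (1 / (p - 1)) :=
    rpow_pos_of_pos (mul_pos hθ hk) _
  by_cases hy : V.starProjection y = 0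
  · exfalso
    have hbot : V ≠ ⊥ := by
      rintro rfl
      rw [finrank_bot] at hk
      norm_num at hk
      linarith
    obtain ⟨u, huV, hu0⟩ := Submodule.exists_mem_ne_zero_of_ne_bot hbot
    have hu : ‖u‖ ≠ 0 := norm_ne_zero_iff.2 hu0
    have hvV : ‖u‖⁻¹ • u ∈ V := V.smul_mem _ huV
    have hv1 : ‖‖u‖⁻¹ • u‖ = 1 := by
      rw [norm_smul, norm_inv, norm_norm, inv_mul_cancel₀ hu]
    set v := ‖u‖⁻¹ • u
    have hc : ContinuousAt (cyl p V) y := h.self_of_nhds.continuousAt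
    have h1 : Tendsto (fun t : ℝ => y + t • v) (𝓝[>] 0) (𝓝 y) := by
      have : Tendsto (fun t : ℝ => y + t • v) (𝓝 0) (𝓝 (y + (0:ℝ) • v)) :=
        (continuous_const.add (continuous_id.smul continuous_const)).tendsto 0
      rw [zero_smul, add_zero] at this
      exact this.mono_left nhdsWithin_le_nhds
    have h2 : Tendsto (fun t : ℝ => cyl p V (y + t • v)) (𝓝[>] 0) (𝓝 (cyl p V y)) :=
      hc.tendsto.comp h1
    have h3 : ∀ t : ℝ, 0 < t → cyl p V (y + t • v) =
        (2 / (p - 1) * (finrank ℝ V - 2 - 2 / (p - 1))) ^ (1 / (p - 1)) * t ^ (-(2 / (p - 1))) := by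
      intro t ht
      have e : V.starProjection (y + t • v) = t • v := by
        rw [map_add, hy, zero_add, map_smul, Submodule.starProjection_eq_self_iff.2 hvV]
      rw [cyl, e, norm_smul, hv1, mul_one, Real.norm_of_nonneg ht.le]
    have h4 : Tendsto (fun t : ℝ => (2 / (p - 1) * (finrank ℝ V - 2 - 2 / (p - 1))) ^ (1 / (p - 1)) *
        t ^ (-(2 / (p - 1)))) (𝓝[>] 0) atTop :=
      (tendsto_rpow_neg_nhdsGT_zero (by linarith)).const_mul_atTop hA
    have h5 : Tendsto (fun t : ℝ => cyl p V (y + t • v)) (𝓝[>] 0) atTop :=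
      h4.congr' (eventually_nhdsWithin_of_forall fun t ht => (h3 t ht).symm)
    exact not_tendsto_nhds_of_tendsto_atTop h5 _ h2
  · exact mul_pos hA (rpow_pos_of_pos (norm_pos_iff.2 hy) _)

/-! ### The comparison -/

theorem log_ratio_eq {p : ℝ} (hp : 1 < p) {k : ℕ} (hk : 2 * (p + 1) < k * (p - 1)) :
    0 < ratio p k ∧ log (ratio p k) = gg ((p + 1) / (p - 1)) ((k : ℝ) / 2 - (p + 1) / (p - 1)) := by
  have hp1 : 0 < p - 1 := by linarith
  have h1 : (p + 1) / (p - 1) < (k : ℝ) / 2 := by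
    rw [div_lt_div_iff₀ hp1 (by norm_num)]
    linarith
  have hx : 0 < (k : ℝ) / 2 - (p + 1) / (p - 1) := by linarith
  have h2 : (k : ℝ) / 2 - p / (p - 1) =
      (k : ℝ) / 2 - (p + 1) / (p - 1) + ((p + 1) / (p - 1) - 1) / 2 := by
    field_simp
    ring
  have hs : 1 < (p + 1) / (p - 1) := by
    rw [one_lt_div hp1]
    linarith
  set s := (p + 1) / (p - 1) with hs'
  set x := (k : ℝ) / 2 - s with hx'
  have h3 : 0 < x + (s - 1) / 2 := by linarith
  have h4 : ratio p k = (x + (s - 1) / 2) ^ s * (Gamma x / Gamma (x + s)) := by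
    unfold ratio
    rw [h2, show (k : ℝ) / 2 = x + s by rw [hx']; ring]
    congr 3
    ring
  have g1 : 0 < Gamma x := Gamma_pos_of_pos hx
  have g2 : 0 < Gamma (x + s) := Gamma_pos_of_pos (by linarith)
  refine ⟨by rw [h4]; positivity, ?_⟩
  rw [h4, log_mul (by positivity) (by positivity), log_rpow h3, log_div g1.ne' g2.ne', gg]
  ring

theorem ratio_anti {p : ℝ} (hp : 1 < p) {k l : ℕ} (hk : 2 * (p + 1) < k * (p - 1)) (hkl : k < l) :
    ratio p l < ratio p k := by
  have hp1 : 0 < p - 1 := by linarith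
  have hs : 1 < (p + 1) / (p - 1) := by
    rw [one_lt_div hp1]
    linarith
  have hkl' : (k : ℝ) < l := by exact_mod_cast hkl
  have hl : 2 * (p + 1) < l * (p - 1) := hk.trans (mul_lt_mul_of_pos_right hkl' hp1)
  obtain ⟨h1, h2⟩ := log_ratio_eq hp hk
  obtain ⟨h3, h4⟩ := log_ratio_eq hp hl
  rw [← log_lt_log_iff h3 h1, h2, h4]
  refine gg_anti hs ?_ (by linarith)
  have : (p + 1) / (p - 1) < (k : ℝ) / 2 := by
    rw [div_lt_div_iff₀ hp1 (by norm_num)]
    linarith
  linarith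

theorem energy_all {p : ℝ} (hp : 1 < p) :
    (∀ (n : ℕ) (V : Submodule ℝ (EuclideanSpace ℝ (Fin n))),
      2 * (p + 1) < finrank ℝ V * (p - 1) →
        energy n p (fun _ => kappa p) (fun _ => 0) = (p - 1) / (2 * (p + 1)) * kappa p ^ (p + 1) ∧
        energy n p (cyl p V) (gradient (cyl p V)) =
          energy n p (fun _ => kappa p) (fun _ => 0) * ratio p (finrank ℝ V) ∧
        energy n p (fun _ => kappa p) (fun _ => 0) < energy n p (cyl p V) (gradient (cyl p V))) ∧
    (∀ k l : ℕ, 2 * (p + 1) < k * (p - 1) → k < l → ratio p l < ratio p k) ∧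
    Tendsto (fun k : ℕ => ratio p k) atTop (𝓝 1) := by
  have hp1 : 0 < p - 1 := by linarith
  have hs : 1 < (p + 1) / (p - 1) := by
    rw [one_lt_div hp1]
    linarith
  have hk := kappa_pos hp
  refine ⟨fun n V hV => ?_, fun k l h1 h2 => ratio_anti hp h1 h2, ?_⟩
  · obtain ⟨-, h2⟩ := energy_cyl hp V hV
    have h3 : energy n p (fun _ => kappa p) (fun _ => 0) =
        (p - 1) / (2 * (p + 1)) * kappa p ^ (p + 1) := by
      rw [energy_kappa n hp, show kappa p ^ (p + 1) = kappa p ^ (2 + (p - 1)) by congr 1; ring,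
        rpow_add hk, kappa_pow hp, rpow_two]
      field_simp
      ring
    have h4 : 0 < energy n p (fun _ => kappa p) (fun _ => 0) := by
      rw [h3]
      positivity
    obtain ⟨h5, h6⟩ := log_ratio_eq hp hV
    have h7 : 1 < ratio p (finrank ℝ V) := by
      rw [← log_pos_iff h5.le, h6]
      refine gg_pos hs ?_
      have : (p + 1) / (p - 1) < (finrank ℝ V : ℝ) / 2 := by
        rw [div_lt_div_iff₀ hp1 (by norm_num)]
        linarith
      linarith
    refine ⟨h3, h2, ?_⟩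
    rw [h2]
    exact lt_mul_of_one_lt_right h4 h7
  · have h1 : Tendsto (fun k : ℕ => (k : ℝ) / 2 - (p + 1) / (p - 1)) atTop atTop :=
      tendsto_atTop_add_const_right _ _ (tendsto_natCast_atTop_atTop.atTop_div_const (by norm_num))
    have h2 := (tendsto_gg hs).comp h1
    have h3 := (continuous_exp.tendsto 0).comp h2
    rw [exp_zero] at h3
    refine h3.congr' ?_
    obtain ⟨N, hN⟩ := exists_nat_gt (2 * (p + 1) / (p - 1))
    filter_upwards [eventually_ge_atTop N] with k hk'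
    have h4 : 2 * (p + 1) < k * (p - 1) := by
      rw [← div_lt_iff₀ hp1]
      exact lt_of_lt_of_le hN (by exact_mod_cast hk')
    obtain ⟨h5, h6⟩ := log_ratio_eq hp h4
    simp only [Function.comp]
    rw [← h6, exp_log h5]

end Pool.Agent.FujCyl
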