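import Pool.Agent.FujCyl.Sl

namespace Pool.Agent.FujCyl

open Real Filter Topology MeasureTheory Module
open scoped ContDiff

section Slices
variable {n k : ℕ} (L : EuclideanSpace ℝ (Fin k) →ₗᵢ[ℝ] EuclideanSpace ℝ (Fin n))
variable {H : Type*} [NormedAddCommGroup H] [NormedSpace ℝ H]

theorem sl_isometry (z : EuclideanSpace ℝ (Fin n)) :
    Isometry (fun x : EuclideanSpace ℝ (Fin k) => L x + z) := by
  refine Isometry.of_dist_eq fun x y => ?_
  rw [dist_add_right]
  exact L.isometry.dist_eq x y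

theorem slice_contDiff {η : EuclideanSpace ℝ (Fin n) → H} (hη : ContDiff ℝ ∞ η)
    (z : EuclideanSpace ℝ (Fin n)) : ContDiff ℝ ∞ (fun x => η (L x + z)) :=
  hη.comp (L.contDiff.add contDiff_const)

theorem slice_compact {η : EuclideanSpace ℝ (Fin n) → H} (hη : HasCompactSupport η)
    (z : EuclideanSpace ℝ (Fin n)) : HasCompactSupport (fun x => η (L x + z)) :=
  hη.comp_isClosedEmbedding (sl_isometry L z).isClosedEmbedding

theorem slice_fderiv {η : EuclideanSpace ℝ (Fin n) → H} (hη : ContDiff ℝ ∞ η)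
    (z : EuclideanSpace ℝ (Fin n)) (x u : EuclideanSpace ℝ (Fin k)) :
    fderiv ℝ (fun x => η (L x + z)) x u = fderiv ℝ η (L x + z) (L u) := by
  have h1 : HasFDerivAt (fun x : EuclideanSpace ℝ (Fin k) => L x + z)
      L.toContinuousLinearMap x := L.toContinuousLinearMap.hasFDerivAt.add_const z
  have h2 : HasFDerivAt η (fderiv ℝ η (L x + z)) (L x + z) :=
    ((hη.differentiable (by simp)) _).hasFDerivAt
  have h3 : HasFDerivAt (fun x : EuclideanSpace ℝ (Fin k) => η (L x + z))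
      ((fderiv ℝ η (L x + z)).comp L.toContinuousLinearMap) x := h2.comp x h1
  rw [h3.fderiv]
  rfl

end Slices

theorem int_mul_cc {E : Type*} [NormedAddCommGroup E] [InnerProductSpace ℝ E]
    [FiniteDimensional ℝ E] [MeasurableSpace E] [BorelSpace E] {g D : E → ℝ}
    (hg : Integrable g) (hD : Continuous D) (hc : HasCompactSupport D) :
    Integrable (fun y => g y * D y) := by
  obtain ⟨K, hK⟩ := hD.bounded_above_of_compact_support hc
  exact hg.mul_bdd (c := K) hD.aestronglyMeasurable (Eventually.of_forall hK)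

theorem quad_int {E : Type*} [NormedAddCommGroup E] [InnerProductSpace ℝ E]
    [FiniteDimensional ℝ E] [MeasurableSpace E] [BorelSpace E] {Y G : E → E} {e : E → ℝ}
    (hY : ContDiff ℝ ∞ Y) (hc : HasCompactSupport Y) (hG : AEStronglyMeasurable G)
    (he : Continuous e) (he0 : ∀ y, 0 ≤ e y) (hi : Integrable (fun y => ‖G y‖ ^ 2 * e y)) :
    Integrable (fun y => inner ℝ (fderiv ℝ Y y (G y)) (G y) * e y) := by
  have hf' : Continuous (fderiv ℝ Y) := hY.continuous_fderiv (by simp)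
  obtain ⟨K, hK⟩ := hf'.bounded_above_of_compact_support (hc.fderiv (𝕜 := ℝ))
  have cq : Continuous (fun q : (E →L[ℝ] E) × E => inner ℝ (q.1 q.2) q.2) :=
    (continuous_fst.clm_apply continuous_snd).inner continuous_snd
  refine (hi.const_mul K).mono' ?_ (Eventually.of_forall fun y => ?_)
  · exact (cq.comp_aestronglyMeasurable (hf'.aestronglyMeasurable.prodMk hG)).mul
      he.aestronglyMeasurable
  · rw [norm_mul, norm_of_nonneg (he0 y), ← mul_assoc]
    refine mul_le_mul_of_nonneg_right ?_ (he0 y)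
    calc ‖inner ℝ (fderiv ℝ Y y (G y)) (G y)‖ ≤ ‖fderiv ℝ Y y (G y)‖ * ‖G y‖ := norm_inner_le_norm _ _
      _ ≤ (K * ‖G y‖) * ‖G y‖ := by
          refine mul_le_mul_of_nonneg_right ?_ (norm_nonneg _)
          exact ((fderiv ℝ Y y).le_opNorm _).trans
            (mul_le_mul_of_nonneg_right (hK y) (norm_nonneg _))
      _ = K * ‖G y‖ ^ 2 := by ring

section
variable {n k : ℕ} (L : EuclideanSpace ℝ (Fin k) →ₗᵢ[ℝ] EuclideanSpace ℝ (Fin n))

theorem aesm_cyl {H : Type*} [TopologicalSpace H] {g : EuclideanSpace ℝ (Fin k) → H}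
    (hg : AEStronglyMeasurable g) : AEStronglyMeasurable (fun y => g (Ad L y)) := by
  have h1 : AEStronglyMeasurable (fun q : EuclideanSpace ℝ (Fin k) × WW L => g q.1)
      (volume.prod volume) := hg.comp_fst
  rw [← (sl_mp L).aestronglyMeasurable_comp_iff (sl_emb L)]
  refine h1.congr (Eventually.of_forall fun q => ?_)
  simp only [Function.comp, Ad_slmap]

theorem red_cond1 {p : ℝ} {w : EuclideanSpace ℝ (Fin k) → ℝ}
    {G : EuclideanSpace ℝ (Fin k) → EuclideanSpace ℝ (Fin k)}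
    (h : ∀ η : EuclideanSpace ℝ (Fin k) → ℝ, ContDiff ℝ ∞ η → HasCompactSupport η →
      ∫ y, (fderiv ℝ η y (G y) + 1 / (p - 1) * w y * η y - |w y| ^ (p - 1) * w y * η y) *
        exp (-‖y‖ ^ 2 / 4) = 0)
    {η : EuclideanSpace ℝ (Fin n) → ℝ} (hη : ContDiff ℝ ∞ η) (hc : HasCompactSupport η) :
    ∫ y, (fderiv ℝ η y (L (G (Ad L y))) + 1 / (p - 1) * w (Ad L y) * η y -
      |w (Ad L y)| ^ (p - 1) * w (Ad L y) * η y) * exp (-‖y‖ ^ 2 / 4) = 0 := by
  refine int_zero_of_slices L _ fun z => ?_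
  have h1 := h (fun x => η (L x + z)) (slice_contDiff L hη z) (slice_compact L hc z)
  rw [← mul_zero (exp (-‖z‖ ^ 2 / 4)), ← h1, ← integral_const_mul]
  refine integral_congr_ae (Eventually.of_forall fun x => ?_)
  dsimp only
  rw [Ad_slmap, exp_slmap, slice_fderiv L hη]
  simp only [slmap]
  ring

theorem red_reg {w : EuclideanSpace ℝ (Fin k) → ℝ} {y : EuclideanSpace ℝ (Fin n)}
    (hy : y ∈ Reg (fun y => w (Ad L y))) : Ad L y ∈ Reg w := by
  unfold Reg at hy ⊢
  change ∀ᶠ z in 𝓝 y, ContDiffAt ℝ ∞ (fun y => w (Ad L y)) z at hy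
  change ∀ᶠ z in 𝓝 (Ad L y), ContDiffAt ℝ ∞ w z
  set z := y - L (Ad L y) with hz
  have hAz : Ad L z = 0 := by rw [hz, map_sub, Ad_L, sub_self]
  have hc : Tendsto (fun x : EuclideanSpace ℝ (Fin k) => L x + z) (𝓝 (Ad L y)) (𝓝 y) := by
    have h1 : Continuous (fun x : EuclideanSpace ℝ (Fin k) => L x + z) :=
      L.continuous.add continuous_const
    have h2 : L (Ad L y) + z = y := by rw [hz]; abel
    have h3 := h1.tendsto (Ad L y)
    rwa [h2] at h3
  filter_upwards [hc.eventually hy] with x hx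
  have h4 : w = fun x => w (Ad L (L x + z)) := by
    funext x
    rw [map_add, Ad_L, hAz, add_zero]
  rw [h4]
  have h5 : ContDiffAt ℝ ∞ (fun y => w (Ad L y)) (L x + z) := hx
  exact ContDiffAt.comp (g := fun y => w (Ad L y)) (f := fun x => L x + z) x h5
    (L.contDiff.add contDiff_const).contDiffAt

end

end Pool.Agent.FujCyl
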