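import Pool.Agent.FujCyl.Red1

/-!
# Condition 2 for a cylinder over a member of `B_k`

`divergence_eq_trace` and `DY_slice` are by helper73.
-/

namespace Pool.Agent.FujCyl

open Real Filter Topology MeasureTheory Module
open scoped ContDiff

/-- The divergence is the trace of the derivative. -/
theorem divergence_eq_trace {n : ℕ} (Y : EuclideanSpace ℝ (Fin n) → EuclideanSpace ℝ (Fin n))
    (y : EuclideanSpace ℝ (Fin n)) :
    divergence Y y = LinearMap.trace ℝ _ (fderiv ℝ Y y).toLinearMap := by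
  rw [LinearMap.trace_eq_sum_inner _ (EuclideanSpace.basisFun (Fin n) ℝ)]
  unfold divergence
  refine Finset.sum_congr rfl fun i _ => ?_
  rw [EuclideanSpace.basisFun_apply, EuclideanSpace.inner_single_left]
  simp

/-- `D_{L A Y}` at `L x + z` is `D` of the slice `x ↦ A (Y (L x + z))` at `x`. -/
theorem DY_slice {n k : ℕ} (L : EuclideanSpace ℝ (Fin k) →ₗᵢ[ℝ] EuclideanSpace ℝ (Fin n))
    (Y : EuclideanSpace ℝ (Fin n) → EuclideanSpace ℝ (Fin n)) (hY : Differentiable ℝ Y)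
    (x : EuclideanSpace ℝ (Fin k)) (z : EuclideanSpace ℝ (Fin n))
    (hz : z ∈ (LinearMap.range L.toLinearMap)ᗮ) :
    DY (fun y => L (ContinuousLinearMap.adjoint L.toContinuousLinearMap (Y y))) (L x + z) =
      DY (fun x => ContinuousLinearMap.adjoint L.toContinuousLinearMap (Y (L x + z))) x := by
  set A := ContinuousLinearMap.adjoint L.toContinuousLinearMap with hA
  have hAinner : ∀ (u : EuclideanSpace ℝ (Fin k)) (y : EuclideanSpace ℝ (Fin n)),
      inner ℝ (L u) y = inner ℝ u (A y) := fun u y => by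
    rw [hA, ContinuousLinearMap.adjoint_inner_right]
    rfl
  have hAL : A (L x + z) = x := by
    apply ext_inner_left ℝ
    intro u
    rw [← hAinner, inner_add_right, L.inner_map_map, hz (L u) ⟨u, rfl⟩, add_zero]
  have h1 : HasFDerivAt (fun y => L (A (Y y)))
      (L.toContinuousLinearMap ∘L A ∘L fderiv ℝ Y (L x + z)) (L x + z) := by
    have h := (hY (L x + z)).hasFDerivAt
    exact (L.toContinuousLinearMap.hasFDerivAt).comp (L x + z) ((A.hasFDerivAt).comp (L x + z) h)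
  have h2 : HasFDerivAt (fun x => A (Y (L x + z)))
      (A ∘L fderiv ℝ Y (L x + z) ∘L L.toContinuousLinearMap) x := by
    have h := (hY (L x + z)).hasFDerivAt
    have h3 : HasFDerivAt (fun x => L x + z) L.toContinuousLinearMap x :=
      (L.toContinuousLinearMap.hasFDerivAt).add_const z
    exact (A.hasFDerivAt).comp x (h.comp x h3)
  unfold DY
  rw [divergence_eq_trace, divergence_eq_trace, h1.fderiv, h2.fderiv, hAinner, hAL]
  congr 1
  have e1 : (L.toContinuousLinearMap ∘L A ∘L fderiv ℝ Y (L x + z)).toLinearMap =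
      L.toLinearMap ∘ₗ (A ∘L fderiv ℝ Y (L x + z)).toLinearMap := rfl
  have e2 : (A ∘L fderiv ℝ Y (L x + z) ∘L L.toContinuousLinearMap).toLinearMap =
      (A ∘L fderiv ℝ Y (L x + z)).toLinearMap ∘ₗ L.toLinearMap := rfl
  rw [e1, e2]
  exact LinearMap.trace_comp_comm' _ _


theorem DY_add {n : ℕ} {Y Z : EuclideanSpace ℝ (Fin n) → EuclideanSpace ℝ (Fin n)}
    (hY : Differentiable ℝ Y) (hZ : Differentiable ℝ Z) (y : EuclideanSpace ℝ (Fin n)) :
    DY (fun y => Y y + Z y) y = DY Y y + DY Z y := by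
  unfold DY divergence
  have h : fderiv ℝ (fun y => Y y + Z y) y = fderiv ℝ Y y + fderiv ℝ Z y :=
    fderiv_fun_add (hY y) (hZ y)
  rw [h]
  simp only [add_apply, PiLp.add_apply, Finset.sum_add_distrib, inner_add_left]
  ring

theorem DY_cont {n : ℕ} {Y : EuclideanSpace ℝ (Fin n) → EuclideanSpace ℝ (Fin n)}
    (hY : ContDiff ℝ ∞ Y) : Continuous (DY Y) := by
  have hf' : Continuous (fderiv ℝ Y) := hY.continuous_fderiv (by simp)
  have cdvg : Continuous (divergence Y) := by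
    unfold divergence
    refine continuous_finset_sum _ fun i _ => ?_
    have : Continuous (fun y => fderiv ℝ Y y (EuclideanSpace.single i 1)) :=
      hf'.clm_apply continuous_const
    exact (EuclideanSpace.proj i : EuclideanSpace ℝ (Fin n) →L[ℝ] ℝ).continuous.comp this
  have := hY.continuous
  unfold DY
  fun_prop

theorem DY_cs {n : ℕ} {Y : EuclideanSpace ℝ (Fin n) → EuclideanSpace ℝ (Fin n)}
    (hc : HasCompactSupport Y) : HasCompactSupport (DY Y) := by
  refine HasCompactSupport.intro (K := tsupport Y) hc fun y hy => ?_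
  have h1 : fderiv ℝ Y y = 0 := fderiv_of_notMem_tsupport ℝ hy
  have h2 : Y y = 0 := image_eq_zero_of_notMem_tsupport hy
  unfold DY divergence
  rw [h1, h2]
  simp

theorem quad_split {α : Type*} [MeasurableSpace α] {μ : Measure α} {a b c d : α → ℝ}
    (ha : Integrable a μ) (hb : Integrable b μ) (hc : Integrable c μ) (hd : Integrable d μ)
    (c1 c2 c3 : ℝ) :
    ∫ x, (-(a x) + c1 * b x + c2 * c x - c3 * d x) ∂μ =
      -(∫ x, a x ∂μ) + c1 * (∫ x, b x ∂μ) + c2 * (∫ x, c x ∂μ) - c3 * ∫ x, d x ∂μ := by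
  have h1 : Integrable (fun x => -(a x)) μ := ha.neg
  have h2 : Integrable (fun x => c1 * b x) μ := hb.const_mul _
  have h3 : Integrable (fun x => c2 * c x) μ := hc.const_mul _
  have h4 : Integrable (fun x => c3 * d x) μ := hd.const_mul _
  have h5 : Integrable (fun x => -(a x) + c1 * b x) μ := h1.add h2
  have h6 : Integrable (fun x => -(a x) + c1 * b x + c2 * c x) μ := h5.add h3
  rw [integral_sub h6 h4, integral_add h5 h3, integral_add h1 h2, integral_neg,
    integral_const_mul, integral_const_mul, integral_const_mul]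

theorem red_cond2 {n k : ℕ} (L : EuclideanSpace ℝ (Fin k) →ₗᵢ[ℝ] EuclideanSpace ℝ (Fin n))
    {p : ℝ} {w : EuclideanSpace ℝ (Fin k) → ℝ}
    {G : EuclideanSpace ℝ (Fin k) → EuclideanSpace ℝ (Fin k)} (h : Suitable k p w G)
    (hS5 : ∀ (Z : EuclideanSpace ℝ (Fin n) → EuclideanSpace ℝ (Fin n)), ContDiff ℝ ∞ Z →
      HasCompactSupport Z → (∀ y, Ad L (Z y) = 0) → ∀ g : EuclideanSpace ℝ (Fin k) → ℝ,
        ∫ y, g (Ad L y) * DY Z y * exp (-‖y‖ ^ 2 / 4) = 0)
    {Y : EuclideanSpace ℝ (Fin n) → EuclideanSpace ℝ (Fin n)} (hY : ContDiff ℝ ∞ Y)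
    (hc : HasCompactSupport Y) :
    0 = -(∫ y, inner ℝ (fderiv ℝ Y y (L (G (Ad L y)))) (L (G (Ad L y))) * rho n y) +
      1 / 2 * (∫ y, ‖L (G (Ad L y))‖ ^ 2 * DY Y y * rho n y) +
      1 / (2 * (p - 1)) * (∫ y, w (Ad L y) ^ 2 * DY Y y * rho n y) -
      1 / (p + 1) * (∫ y, |w (Ad L y)| ^ (p + 1) * DY Y y * rho n y) := by
  -- the two parts of the field
  have cA : ContDiff ℝ ∞ (fun y => Ad L (Y y)) := (Ad L).contDiff.comp hY
  have cLA : ContDiff ℝ ∞ (fun y => L (Ad L (Y y))) := L.contDiff.comp cA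
  have sA : HasCompactSupport (fun y => Ad L (Y y)) := hc.comp_left (map_zero _)
  have sLA : HasCompactSupport (fun y => L (Ad L (Y y))) := sA.comp_left (map_zero _)
  set Y1 : EuclideanSpace ℝ (Fin n) → EuclideanSpace ℝ (Fin n) := fun y => L (Ad L (Y y)) with hY1
  set Y2 : EuclideanSpace ℝ (Fin n) → EuclideanSpace ℝ (Fin n) := fun y => Y y - Y1 y with hY2
  have cY2 : ContDiff ℝ ∞ Y2 := hY.sub cLA
  have sY2 : HasCompactSupport Y2 := hc.sub sLA
  have hAY2 : ∀ y, Ad L (Y2 y) = 0 := by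
    intro y
    rw [hY2, hY1]
    dsimp only
    rw [map_sub, Ad_L, sub_self]
  have hsum : ∀ y, DY Y y = DY Y1 y + DY Y2 y := by
    intro y
    rw [← DY_add (cLA.differentiable (by simp)) (cY2.differentiable (by simp))]
    congr 1
    funext y
    rw [hY2]
    dsimp only
    abel
  have ce : Continuous (fun y : EuclideanSpace ℝ (Fin n) => exp (-‖y‖ ^ 2 / 4)) := by fun_prop
  have ce' : Continuous (fun y : EuclideanSpace ℝ (Fin k) => exp (-‖y‖ ^ 2 / 4)) := by fun_prop
  -- reduction of the terms with `DY`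
  have red : ∀ g : EuclideanSpace ℝ (Fin k) → ℝ, Integrable (fun x => g x * exp (-‖x‖ ^ 2 / 4)) →
      Integrable (fun y => g (Ad L y) * DY Y1 y * exp (-‖y‖ ^ 2 / 4)) ∧
      ∫ y, g (Ad L y) * DY Y y * exp (-‖y‖ ^ 2 / 4) =
        ∫ y, g (Ad L y) * DY Y1 y * exp (-‖y‖ ^ 2 / 4) := by
    intro g hg
    have h0 := integrable_cyl L hg
    have h1 : Integrable (fun y => g (Ad L y) * DY Y1 y * exp (-‖y‖ ^ 2 / 4)) := by
      refine (int_mul_cc h0 (DY_cont cLA) (DY_cs sLA)).congr (Eventually.of_forall fun y => ?_)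
      dsimp only
      ring
    have h2 : Integrable (fun y => g (Ad L y) * DY Y2 y * exp (-‖y‖ ^ 2 / 4)) := by
      refine (int_mul_cc h0 (DY_cont cY2) (DY_cs sY2)).congr (Eventually.of_forall fun y => ?_)
      dsimp only
      ring
    refine ⟨h1, ?_⟩
    have h3 := hS5 Y2 cY2 sY2 hAY2 g
    calc ∫ y, g (Ad L y) * DY Y y * exp (-‖y‖ ^ 2 / 4)
        = ∫ y, (g (Ad L y) * DY Y1 y * exp (-‖y‖ ^ 2 / 4) +
            g (Ad L y) * DY Y2 y * exp (-‖y‖ ^ 2 / 4)) := by
          refine integral_congr_ae (Eventually.of_forall fun y => ?_)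
          dsimp only
          rw [hsum]
          ring
      _ = _ := by rw [integral_add h1 h2, h3, add_zero]
  obtain ⟨i1, r1⟩ := red (fun x => ‖G x‖ ^ 2) h.fin_grad
  obtain ⟨i2, r2⟩ := red (fun x => w x ^ 2) h.fin_sq
  obtain ⟨i3, r3⟩ := red (fun x => |w x| ^ (p + 1)) h.fin_pow
  have mG : AEStronglyMeasurable G := h.grad.2.1.aestronglyMeasurable
  have i0 : Integrable (fun y => inner ℝ (fderiv ℝ Y y (L (G (Ad L y)))) (L (G (Ad L y))) *
      exp (-‖y‖ ^ 2 / 4)) := by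
    refine quad_int (G := fun y => L (G (Ad L y))) hY hc
      (L.continuous.comp_aestronglyMeasurable (aesm_cyl L mG)) ce (fun y => (exp_pos _).le) ?_
    simp only [LinearIsometry.norm_map]
    exact integrable_cyl L h.fin_grad
  -- the sum vanishes slice by slice
  have hz : ∫ y, (-(inner ℝ (fderiv ℝ Y y (L (G (Ad L y)))) (L (G (Ad L y))) *
        exp (-‖y‖ ^ 2 / 4)) + 1 / 2 * (‖G (Ad L y)‖ ^ 2 * DY Y1 y * exp (-‖y‖ ^ 2 / 4)) +
      1 / (2 * (p - 1)) * (w (Ad L y) ^ 2 * DY Y1 y * exp (-‖y‖ ^ 2 / 4)) -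
      1 / (p + 1) * (|w (Ad L y)| ^ (p + 1) * DY Y1 y * exp (-‖y‖ ^ 2 / 4))) = 0 := by
    refine int_zero_of_slices L _ fun z => ?_
    set Yz : EuclideanSpace ℝ (Fin k) → EuclideanSpace ℝ (Fin k) :=
      fun x => Ad L (Y (L x + z)) with hYz
    have cz : ContDiff ℝ ∞ Yz := slice_contDiff L cA z
    have sz : HasCompactSupport Yz := slice_compact L sA z
    have hc2 := h.cond2 Yz cz sz
    have j0 : Integrable (fun x => inner ℝ (fderiv ℝ Yz x (G x)) (G x) * exp (-‖x‖ ^ 2 / 4)) :=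
      quad_int cz sz mG ce' (fun y => (exp_pos _).le) h.fin_grad
    have jj : ∀ g : EuclideanSpace ℝ (Fin k) → ℝ,
        Integrable (fun x => g x * exp (-‖x‖ ^ 2 / 4)) →
        Integrable (fun x => g x * DY Yz x * exp (-‖x‖ ^ 2 / 4)) := by
      intro g hg
      refine (int_mul_cc hg (DY_cont cz) (DY_cs sz)).congr (Eventually.of_forall fun y => ?_)
      dsimp only
      ring
    have j1 := jj _ h.fin_grad
    have j2 := jj _ h.fin_sq
    have j3 := jj _ h.fin_pow
    set rk : ℝ := (4 * π) ^ (-(k : ℝ) / 2) with hrk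
    have hrk0 : rk ≠ 0 := by
      rw [hrk]
      positivity
    have rr : ∀ F : EuclideanSpace ℝ (Fin k) → ℝ,
        ∫ x, F x * rho k x = rk * ∫ x, F x * exp (-‖x‖ ^ 2 / 4) := by
      intro F
      rw [← integral_const_mul]
      refine integral_congr_ae (Eventually.of_forall fun x => ?_)
      dsimp only
      unfold rho
      rw [← hrk]
      ring
    rw [rr, rr, rr, rr] at hc2
    have hc3 : -(∫ x, inner ℝ (fderiv ℝ Yz x (G x)) (G x) * exp (-‖x‖ ^ 2 / 4)) +
        1 / 2 * (∫ x, ‖G x‖ ^ 2 * DY Yz x * exp (-‖x‖ ^ 2 / 4)) +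
        1 / (2 * (p - 1)) * (∫ x, w x ^ 2 * DY Yz x * exp (-‖x‖ ^ 2 / 4)) -
        1 / (p + 1) * (∫ x, |w x| ^ (p + 1) * DY Yz x * exp (-‖x‖ ^ 2 / 4)) = 0 := by
      have := mul_left_cancel₀ hrk0 (a := rk) (b := -(∫ x, inner ℝ (fderiv ℝ Yz x (G x)) (G x) *
          exp (-‖x‖ ^ 2 / 4)) +
        1 / 2 * (∫ x, ‖G x‖ ^ 2 * DY Yz x * exp (-‖x‖ ^ 2 / 4)) +
        1 / (2 * (p - 1)) * (∫ x, w x ^ 2 * DY Yz x * exp (-‖x‖ ^ 2 / 4)) -
        1 / (p + 1) * (∫ x, |w x| ^ (p + 1) * DY Yz x * exp (-‖x‖ ^ 2 / 4))) (c := 0)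
        (by linear_combination -hc2)
      exact this
    have e1 : ∀ x, (-(inner ℝ (fderiv ℝ Y (slmap L (x, z)) (L (G (Ad L (slmap L (x, z))))))
          (L (G (Ad L (slmap L (x, z))))) * exp (-‖slmap L (x, z)‖ ^ 2 / 4)) +
        1 / 2 * (‖G (Ad L (slmap L (x, z)))‖ ^ 2 * DY Y1 (slmap L (x, z)) *
          exp (-‖slmap L (x, z)‖ ^ 2 / 4)) +
        1 / (2 * (p - 1)) * (w (Ad L (slmap L (x, z))) ^ 2 * DY Y1 (slmap L (x, z)) *
          exp (-‖slmap L (x, z)‖ ^ 2 / 4)) -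
        1 / (p + 1) * (|w (Ad L (slmap L (x, z)))| ^ (p + 1) * DY Y1 (slmap L (x, z)) *
          exp (-‖slmap L (x, z)‖ ^ 2 / 4))) =
        exp (-‖z‖ ^ 2 / 4) * (-(inner ℝ (fderiv ℝ Yz x (G x)) (G x) * exp (-‖x‖ ^ 2 / 4)) +
          1 / 2 * (‖G x‖ ^ 2 * DY Yz x * exp (-‖x‖ ^ 2 / 4)) +
          1 / (2 * (p - 1)) * (w x ^ 2 * DY Yz x * exp (-‖x‖ ^ 2 / 4)) -
          1 / (p + 1) * (|w x| ^ (p + 1) * DY Yz x * exp (-‖x‖ ^ 2 / 4))) := by
      intro x
      have d1 : DY Y1 (slmap L (x, z)) = DY Yz x :=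
        DY_slice L Y (hY.differentiable (by simp)) x z z.2
      have d2 : fderiv ℝ Yz x (G x) = Ad L (fderiv ℝ Y (slmap L (x, z)) (L (G x))) := by
        rw [hYz, slice_fderiv L cA]
        have : HasFDerivAt (fun y => Ad L (Y y))
            ((Ad L).comp (fderiv ℝ Y (slmap L (x, z)))) (slmap L (x, z)) :=
          (Ad L).hasFDerivAt.comp _ ((hY.differentiable (by simp)) _).hasFDerivAt
        change fderiv ℝ (fun y => Ad L (Y y)) (slmap L (x, z)) (L (G x)) = _
        rw [this.fderiv]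
        rfl
      have d3 : inner ℝ (fderiv ℝ Yz x (G x)) (G x) =
          inner ℝ (fderiv ℝ Y (slmap L (x, z)) (L (G x))) (L (G x)) := by
        rw [d2]
        unfold Ad
        rw [ContinuousLinearMap.adjoint_inner_left]
        rfl
      rw [Ad_slmap, exp_slmap, d1, d3]
      ring
    simp_rw [e1]
    rw [integral_const_mul, integral_sub, integral_add, integral_add, integral_neg,
      integral_const_mul, integral_const_mul, integral_const_mul, hc3, mul_zero]
    · exact j0.neg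
    · exact j1.const_mul _
    · exact j0.neg.add (j1.const_mul _)
    · exact j2.const_mul _
    · exact (j0.neg.add (j1.const_mul _)).add (j2.const_mul _)
    · exact j3.const_mul _
  have hz2 := (quad_split i0 i1 i2 i3 (1 / 2) (1 / (2 * (p - 1))) (1 / (p + 1))).symm.trans hz
  set rn : ℝ := (4 * π) ^ (-(n : ℝ) / 2) with hrn
  have rr : ∀ F : EuclideanSpace ℝ (Fin n) → ℝ,
      ∫ x, F x * rho n x = rn * ∫ x, F x * exp (-‖x‖ ^ 2 / 4) := by
    intro F
    rw [← integral_const_mul]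
    refine integral_congr_ae (Eventually.of_forall fun x => ?_)
    dsimp only
    unfold rho
    rw [← hrn]
    ring
  simp only [LinearIsometry.norm_map]
  rw [rr, rr, rr, rr, r1, r2, r3]
  linear_combination (-rn) * hz2

end Pool.Agent.FujCyl
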