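import Pool.Agent.FujCyl.Red2

/-!
# Cylinders over members of `B_k` are members of `B_n`

The theorems `continuous_divergence` to `S5` are by helper27 and `adj_L` to `weakGrad_comp` by helper94.
-/

namespace Pool.Agent.FujCyl

open Real Filter Topology MeasureTheory Module
open scoped ContDiff

section five
variable {k n : ℕ}

theorem continuous_divergence (Y : EuclideanSpace ℝ (Fin n) → EuclideanSpace ℝ (Fin n))
    (hY : ContDiff ℝ ∞ Y) : Continuous (divergence Y) := by
  unfold divergence
  apply continuous_finsetSum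
  intro i _
  have h := (hY.continuous_fderiv (by simp)).clm_apply
    (continuous_const (y := EuclideanSpace.single i (1 : ℝ)))
  exact (EuclideanSpace.proj (𝕜 := ℝ) i).continuous.comp h

theorem continuous_DY (Y : EuclideanSpace ℝ (Fin n) → EuclideanSpace ℝ (Fin n))
    (hY : ContDiff ℝ ∞ Y) : Continuous (DY Y) := by
  unfold DY
  exact (continuous_divergence Y hY).sub (continuous_const.mul (hY.continuous.inner continuous_id))

theorem support_DY (Y : EuclideanSpace ℝ (Fin n) → EuclideanSpace ℝ (Fin n))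
    (hc : HasCompactSupport Y) : HasCompactSupport (DY Y) := by
  apply HasCompactSupport.intro hc
  intro y hy
  have h1 : fderiv ℝ Y y = 0 := by
    have h2 : y ∉ tsupport (fderiv ℝ Y) := fun h => hy (tsupport_fderiv_subset ℝ h)
    exact image_eq_zero_of_notMem_tsupport h2
  have h3 : Y y = 0 := image_eq_zero_of_notMem_tsupport hy
  simp [DY, divergence, h1, h3]

/-- For a smooth compactly supported function of `A y`. -/
theorem S5_smooth (L : EuclideanSpace ℝ (Fin k) →ₗᵢ[ℝ] EuclideanSpace ℝ (Fin n))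
    (Y : EuclideanSpace ℝ (Fin n) → EuclideanSpace ℝ (Fin n)) (hY : ContDiff ℝ ∞ Y)
    (hc : HasCompactSupport Y) (hA : ∀ y, Ad L (Y y) = 0)
    (h : EuclideanSpace ℝ (Fin k) → ℝ) (hh : ContDiff ℝ ∞ h) :
    ∫ y, h (Ad L y) * DY Y y * exp (-‖y‖ ^ 2 / 4) = 0 := by
  have hY1 : ContDiff ℝ 1 Y := hY.of_le (by simp)
  have hh1 : ContDiff ℝ 1 h := hh.of_le (by simp)
  have hex : ContDiff ℝ 1 (fun y : EuclideanSpace ℝ (Fin n) => exp (-‖y‖ ^ 2 / 4)) :=
    (((contDiff_norm_sq ℝ).neg).div_const 4).exp
  have hf : ContDiff ℝ 1 (fun y => h (Ad L y) * exp (-‖y‖ ^ 2 / 4)) :=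
    (hh1.comp (Ad L).contDiff).mul hex
  have key := div_field _ hf Y hY1 hc
  have h1 : ∀ y, fderiv ℝ (fun y => h (Ad L y) * exp (-‖y‖ ^ 2 / 4)) y (Y y) =
      -(1 / 2) * (h (Ad L y) * inner ℝ (Y y) y * exp (-‖y‖ ^ 2 / 4)) := by
    intro y
    have e1 : HasFDerivAt (fun y => h (Ad L y)) ((fderiv ℝ h (Ad L y)).comp (Ad L)) y :=
      ((hh1.differentiable (by simp)) (Ad L y)).hasFDerivAt.comp y (Ad L).hasFDerivAt
    have e2 : HasFDerivAt (fun y : EuclideanSpace ℝ (Fin n) => exp (-‖y‖ ^ 2 / 4))
        ((-(1 / 2) * exp (-‖y‖ ^ 2 / 4)) • (innerSL ℝ y : EuclideanSpace ℝ (Fin n) →L[ℝ] ℝ)) y := by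
      have h := (((hasStrictFDerivAt_norm_sq y).hasFDerivAt.neg).mul_const (1 / 4 : ℝ)).exp
      have h' : HasFDerivAt (fun y : EuclideanSpace ℝ (Fin n) => Real.exp (-‖y‖ ^ 2 / 4)) _ y :=
        h.congr_of_eventuallyEq (Filter.Eventually.of_forall fun z => by
          show Real.exp (-‖z‖ ^ 2 / 4) = Real.exp (-‖z‖ ^ 2 * (1 / 4))
          congr 1; ring)
      refine h'.congr_fderiv ?_
      ext z
      have e : Real.exp (-‖y‖ ^ 2 * (1 / 4)) = Real.exp (-‖y‖ ^ 2 / 4) := by congr 1; ring
      simp only [smul_apply, neg_apply, innerSL_apply_apply, smul_eq_mul, Pi.neg_apply]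
      rw [e]
      simp
      ring
    have e3 : HasFDerivAt (fun y => h (Ad L y) * exp (-‖y‖ ^ 2 / 4)) _ y := e1.mul e2
    rw [e3.fderiv]
    simp only [add_apply, smul_apply, ContinuousLinearMap.comp_apply, innerSL_apply_apply,
      smul_eq_mul, hA y, map_zero, real_inner_comm y (Y y)]
    ring
  simp_rw [h1] at key
  rw [integral_const_mul] at key
  have i1 : Integrable (fun y => h (Ad L y) * exp (-‖y‖ ^ 2 / 4) * dvg Y y) := by
    refine Continuous.integrable_of_hasCompactSupport ?_ ?_
    · exact (hf.continuous).mul (continuous_divergence Y hY)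
    · refine HasCompactSupport.mul_left ?_
      apply HasCompactSupport.intro hc
      intro y hy
      have h1 : fderiv ℝ Y y = 0 := by
        have h2 : y ∉ tsupport (fderiv ℝ Y) := fun h => hy (tsupport_fderiv_subset ℝ h)
        exact image_eq_zero_of_notMem_tsupport h2
      simp [dvg, h1]
  have i2 : Integrable (fun y => h (Ad L y) * inner ℝ (Y y) y * exp (-‖y‖ ^ 2 / 4)) := by
    refine Continuous.integrable_of_hasCompactSupport ?_ ?_
    · exact (((hh.continuous.comp (Ad L).continuous)).mul
        (hY.continuous.inner continuous_id)).mul hex.continuous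
    · apply HasCompactSupport.intro hc
      intro y hy
      have h3 : Y y = 0 := image_eq_zero_of_notMem_tsupport hy
      simp [h3]
  have h2 : (fun y => h (Ad L y) * DY Y y * exp (-‖y‖ ^ 2 / 4)) = fun y =>
      h (Ad L y) * exp (-‖y‖ ^ 2 / 4) * dvg Y y -
        1 / 2 * (h (Ad L y) * inner ℝ (Y y) y * exp (-‖y‖ ^ 2 / 4)) := by
    funext y
    rw [DY, show divergence Y y = dvg Y y from rfl]
    ring
  rw [h2, integral_sub i1 (i2.const_mul _), integral_const_mul]
  linarith

/-- S5. -/
theorem S5 (L : EuclideanSpace ℝ (Fin k) →ₗᵢ[ℝ] EuclideanSpace ℝ (Fin n))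
    (Y : EuclideanSpace ℝ (Fin n) → EuclideanSpace ℝ (Fin n)) (hY : ContDiff ℝ ∞ Y)
    (hc : HasCompactSupport Y) (hA : ∀ y, Ad L (Y y) = 0)
    (h : EuclideanSpace ℝ (Fin k) → ℝ) :
    ∫ y, h (Ad L y) * DY Y y * exp (-‖y‖ ^ 2 / 4) = 0 := by
  set K : EuclideanSpace ℝ (Fin n) → ℝ := fun y => DY Y y * exp (-‖y‖ ^ 2 / 4) with hK
  have hKc : Continuous K := (continuous_DY Y hY).mul
    (Real.continuous_exp.comp (((continuous_norm.pow 2).neg).div_const 4))
  have hKs : HasCompactSupport K := (support_DY Y hc).mul_right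
  have hKi : Integrable K := hKc.integrable_of_hasCompactSupport hKs
  have hprod : Integrable (fun q : EuclideanSpace ℝ (Fin k) × WW L => K (slmap L q))
      (volume.prod volume) :=
    (sl_mp L).integrable_comp_of_integrable hKi
  have trans : ∀ g : EuclideanSpace ℝ (Fin k) → ℝ,
      ∫ y, g (Ad L y) * K y = ∫ q : EuclideanSpace ℝ (Fin k) × WW L, g q.1 * K (slmap L q)
        ∂(volume.prod volume) := by
    intro g
    rw [← (sl_mp L).integral_comp (sl_emb L)]
    refine integral_congr_ae (Filter.Eventually.of_forall fun q => ?_)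
    simp only [Ad_slmap]
  have hJ : ∀ᵐ x : EuclideanSpace ℝ (Fin k), ∫ z : WW L, K (slmap L (x, z)) = 0 := by
    apply ae_eq_zero_of_integral_contDiff_smul_eq_zero
      (hprod.integral_prod_left.locallyIntegrable)
    intro g hg hgs
    have h1 := S5_smooth L Y hY hc hA g hg
    have h2 : (fun y => g (Ad L y) * DY Y y * exp (-‖y‖ ^ 2 / 4)) = fun y => g (Ad L y) * K y := by
      funext y; rw [hK]; ring
    rw [h2, trans] at h1
    have h3 : Integrable (fun q : EuclideanSpace ℝ (Fin k) × WW L => g q.1 * K (slmap L q))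
        (volume.prod volume) := by
      obtain ⟨C, hC⟩ := hgs.exists_bound_of_continuous hg.continuous
      exact hprod.bdd_mul (c := C) ((hg.continuous.comp continuous_fst).aestronglyMeasurable)
        (Filter.Eventually.of_forall fun q => hC q.1)
    rw [integral_prod _ h3] at h1
    simp only [smul_eq_mul]
    rw [← h1]
    refine integral_congr_ae (Filter.Eventually.of_forall fun x => ?_)
    simp only
    rw [integral_const_mul]
  have h2 : (fun y => h (Ad L y) * DY Y y * exp (-‖y‖ ^ 2 / 4)) = fun y => h (Ad L y) * K y := by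
    funext y; rw [hK]; ring
  rw [h2, trans]
  by_cases hint : Integrable (fun q : EuclideanSpace ℝ (Fin k) × WW L => h q.1 * K (slmap L q))
      (volume.prod volume)
  · rw [integral_prod _ hint]
    rw [← integral_zero (EuclideanSpace ℝ (Fin k)) ℝ (μ := volume)]
    refine integral_congr_ae ?_
    filter_upwards [hJ] with x hx
    rw [integral_const_mul, hx, mul_zero]
  · exact integral_undef hint

end five

section three
variable {n k : ℕ} (L : EuclideanSpace ℝ (Fin k) →ₗᵢ[ℝ] EuclideanSpace ℝ (Fin n))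

lemma adj_L (x : EuclideanSpace ℝ (Fin k)) :
    ContinuousLinearMap.adjoint L.toContinuousLinearMap (L x) = x := by
  refine ext_inner_right ℝ fun u => ?_
  rw [ContinuousLinearMap.adjoint_inner_left]
  exact L.inner_map_map x u

lemma adj_W (z : EuclideanSpace ℝ (Fin n)) (hz : z ∈ (LinearMap.range L.toLinearMap)ᗮ) :
    ContinuousLinearMap.adjoint L.toContinuousLinearMap z = 0 := by
  refine ext_inner_right ℝ fun u => ?_
  rw [ContinuousLinearMap.adjoint_inner_left, inner_zero_left]
  rw [real_inner_comm]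
  exact hz _ ⟨u, rfl⟩

lemma sub_mem_W (v : EuclideanSpace ℝ (Fin n)) :
    v - L (ContinuousLinearMap.adjoint L.toContinuousLinearMap v) ∈ (LinearMap.range L.toLinearMap)ᗮ := by
  rintro _ ⟨u, rfl⟩
  show inner ℝ (L u) _ = 0
  rw [inner_sub_right, L.inner_map_map, ContinuousLinearMap.adjoint_inner_right]
  simp

variable (hS : MeasurePreserving (fun q : EuclideanSpace ℝ (Fin k) ×
    ((LinearMap.range L.toLinearMap)ᗮ : Submodule ℝ (EuclideanSpace ℝ (Fin n))) => L q.1 + (q.2 : EuclideanSpace ℝ (Fin n)))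
    (volume.prod volume) volume)
  (hE : MeasurableEmbedding (fun q : EuclideanSpace ℝ (Fin k) ×
    ((LinearMap.range L.toLinearMap)ᗮ : Submodule ℝ (EuclideanSpace ℝ (Fin n))) => L q.1 + (q.2 : EuclideanSpace ℝ (Fin n))))

include hS hE in
/-- a locally integrable function of `x` is locally integrable as a function of `y = L x + z` -/
theorem locInt_comp {X : Type*} [NormedAddCommGroup X] (w : EuclideanSpace ℝ (Fin k) → X)
    (hw : LocallyIntegrable w) :
    LocallyIntegrable (fun y => w (ContinuousLinearMap.adjoint L.toContinuousLinearMap y)) := by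
  rw [locallyIntegrable_iff]
  intro K hK
  set A := ContinuousLinearMap.adjoint L.toContinuousLinearMap with hA
  set W := (LinearMap.range L.toLinearMap)ᗮ with hW
  set S : EuclideanSpace ℝ (Fin k) × W → EuclideanSpace ℝ (Fin n) := fun q => L q.1 + (q.2 : _) with hSd
  rw [← hS.integrableOn_comp_preimage hE]
  have hK1 : IsCompact (A '' K) := hK.image A.continuous
  have hK2 : IsCompact (W.orthogonalProjectionOnto '' K) := hK.image W.orthogonalProjectionOnto.continuous
  have hsub : S ⁻¹' K ⊆ (A '' K) ×ˢ (W.orthogonalProjectionOnto '' K) := by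
    rintro ⟨x, z⟩ hq
    refine ⟨⟨_, hq, ?_⟩, ⟨_, hq, ?_⟩⟩
    · show A (L x + z) = x
      rw [map_add, adj_L, adj_W L z z.2, add_zero]
    · show W.orthogonalProjectionOnto (L x + z) = z
      rw [map_add]
      have h1 : W.orthogonalProjectionOnto (L x) = 0 := by
        rw [Submodule.orthogonalProjectionOnto_eq_zero_iff]
        exact Submodule.le_orthogonal_orthogonal _ ⟨x, rfl⟩
      rw [h1, zero_add]
      exact Submodule.orthogonalProjectionOnto_mem_subspace_eq_self z
  refine IntegrableOn.mono_set ?_ hsub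
  have e : (fun y => w (A y)) ∘ S = fun q => w q.1 := by
    funext q
    show w (A (L q.1 + q.2)) = w q.1
    rw [map_add, adj_L, adj_W L _ q.2.2, add_zero]
  rw [e]
  have i1 : IntegrableOn w (A '' K) := hw.integrableOn_isCompact hK1
  have hfin : IsFiniteMeasure ((volume : Measure W).restrict (W.orthogonalProjectionOnto '' K)) :=
    ⟨by rw [Measure.restrict_apply_univ]; exact hK2.measure_lt_top⟩
  rw [IntegrableOn, ← Measure.prod_restrict]
  exact i1.integrable.comp_fst _

include hS hE in
theorem weakGrad_comp (w : EuclideanSpace ℝ (Fin k) → ℝ)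
    (G : EuclideanSpace ℝ (Fin k) → EuclideanSpace ℝ (Fin k)) (h : Pool.Agent.FujCyl.IsWeakGradient w G) :
    Pool.Agent.FujCyl.IsWeakGradient
      (fun y => w (ContinuousLinearMap.adjoint L.toContinuousLinearMap y))
      (fun y => L (G (ContinuousLinearMap.adjoint L.toContinuousLinearMap y))) := by
  obtain ⟨hw, hG, hwG⟩ := h
  have hwA := locInt_comp L hS hE w hw
  have hGA := locInt_comp L hS hE G hG
  set A := ContinuousLinearMap.adjoint L.toContinuousLinearMap with hA
  set W := (LinearMap.range L.toLinearMap)ᗮ with hW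
  set S : EuclideanSpace ℝ (Fin k) × W → EuclideanSpace ℝ (Fin n) := fun q => L q.1 + (q.2 : _) with hSd
  have hAS : ∀ q : EuclideanSpace ℝ (Fin k) × W, A (S q) = q.1 := by
    rintro ⟨x, z⟩
    show A (L x + z) = x
    rw [map_add, adj_L, adj_W L z z.2, add_zero]
  have hLGA : LocallyIntegrable (fun y => L (G (A y))) := by
    rw [locallyIntegrable_iff] at hGA ⊢
    intro K hK
    exact L.toContinuousLinearMap.integrable_comp (hGA K hK)
  refine ⟨hwA, hLGA, fun η hη hc v => ?_⟩
  have hη1 : ContDiff ℝ 1 η := hη.of_le (by exact_mod_cast le_top)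
  have hη' : Continuous (fderiv ℝ η) := hη1.continuous_fderiv one_ne_zero
  have hcd : ∀ a, HasCompactSupport fun y => fderiv ℝ η y a := fun a => hc.fderiv_apply ℝ a
  have hcont : ∀ a, Continuous fun y => fderiv ℝ η y a := fun a => hη'.clm_apply continuous_const
  set u := A v with hu
  set v' : W := ⟨v - L u, sub_mem_W L v⟩ with hv'
  have hv : v = L u + (v' : EuclideanSpace ℝ (Fin n)) := by simp [hv']
  have I : ∀ a, Integrable fun y => w (A y) * fderiv ℝ η y a := by
    intro a
    have := hwA.integrable_smul_left_of_hasCompactSupport (hcont a) (hcd a)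
    simpa [mul_comm] using this
  have split : ∀ y, w (A y) * fderiv ℝ η y v
      = w (A y) * fderiv ℝ η y (L u) + w (A y) * fderiv ℝ η y (v' : EuclideanSpace ℝ (Fin n)) := by
    intro y
    conv_lhs => rw [hv]
    rw [map_add, mul_add]
  -- slices
  have dS : ∀ (x : EuclideanSpace ℝ (Fin k)) (z : W) (a : EuclideanSpace ℝ (Fin k)),
      fderiv ℝ (fun x => η (L x + z)) x a = fderiv ℝ η (L x + z) (L a) := by
    intro x z a
    have h1 : HasFDerivAt (fun x => L x + (z : EuclideanSpace ℝ (Fin n))) L.toContinuousLinearMap x :=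
      (L.toContinuousLinearMap.hasFDerivAt (x := x)).add_const _
    have h2 : HasFDerivAt η (fderiv ℝ η (L x + z)) (L x + z) :=
      (hη1.differentiable one_ne_zero _).hasFDerivAt
    have h3 := h2.comp x h1
    have h4 : fderiv ℝ (fun x => η (L x + z)) x = _ := h3.fderiv
    rw [h4]; rfl
  have dW : ∀ (x : EuclideanSpace ℝ (Fin k)) (z : W) (a : W),
      fderiv ℝ (fun z : W => η (L x + z)) z a = fderiv ℝ η (L x + z) (a : EuclideanSpace ℝ (Fin n)) := by
    intro x z a
    have h1 : HasFDerivAt (fun z : W => L x + (z : EuclideanSpace ℝ (Fin n))) W.subtypeL z :=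
      (W.subtypeL.hasFDerivAt (x := z)).const_add _
    have h2 : HasFDerivAt η (fderiv ℝ η (L x + z)) (L x + z) :=
      (hη1.differentiable one_ne_zero _).hasFDerivAt
    have h3 := h2.comp z h1
    have h4 : fderiv ℝ (fun z : W => η (L x + z)) z = _ := h3.fderiv
    rw [h4]; rfl
  have cS : ∀ z : W, HasCompactSupport (fun x : EuclideanSpace ℝ (Fin k) => η (L x + z)) := by
    intro z
    refine HasCompactSupport.intro (hc.isCompact.image A.continuous) fun x hx => ?_
    by_contra h0
    exact hx ⟨_, subset_tsupport η h0, hAS (x, z)⟩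
  have cW : ∀ x : EuclideanSpace ℝ (Fin k), HasCompactSupport (fun z : W => η (L x + z)) := by
    intro x
    refine HasCompactSupport.intro (hc.isCompact.image W.orthogonalProjectionOnto.continuous)
      fun z hz => ?_
    by_contra h0
    refine hz ⟨_, subset_tsupport η h0, ?_⟩
    rw [map_add]
    have h1 : W.orthogonalProjectionOnto (L x) = 0 := by
      rw [Submodule.orthogonalProjectionOnto_eq_zero_iff]
      exact Submodule.le_orthogonal_orthogonal _ ⟨x, rfl⟩
    rw [h1, zero_add]
    exact Submodule.orthogonalProjectionOnto_mem_subspace_eq_self z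
  -- the part along W
  have P2 : ∫ y, w (A y) * fderiv ℝ η y (v' : EuclideanSpace ℝ (Fin n)) = 0 := by
    have i2 : Integrable (fun q => w (A (S q)) * fderiv ℝ η (S q) (v' : EuclideanSpace ℝ (Fin n)))
        (volume.prod volume) := (hS.integrable_comp_emb hE).2 (I (v' : EuclideanSpace ℝ (Fin n)))
    rw [← hS.integral_comp hE, integral_prod _ i2]
    have : ∀ x, ∫ z : W, w (A (S (x, z))) * fderiv ℝ η (S (x, z)) (v' : EuclideanSpace ℝ (Fin n)) = 0 := by
      intro x
      simp_rw [hAS]
      rw [integral_const_mul]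
      have h1 := (parts_one (fun _ : W => (1 : ℝ)) (fun z : W => η (L x + z)) contDiff_const
        (hη1.comp (contDiff_const.add W.subtypeL.contDiff)) (cW x) v').2.2
      simp only [one_mul, fderiv_fun_const, Pi.zero_apply, zero_apply, zero_mul,
        integral_zero, neg_zero, dW] at h1
      show w x * ∫ z : W, fderiv ℝ η (L x + z) (v' : EuclideanSpace ℝ (Fin n)) = 0
      rw [h1, mul_zero]
    show ∫ x, ∫ z : W, w (A (S (x, z))) * fderiv ℝ η (S (x, z)) (v' : EuclideanSpace ℝ (Fin n)) = 0
    simp_rw [this]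
    simp
  have IG : Integrable fun y => inner ℝ (L (G (A y))) v * η y := by
    have h1 : LocallyIntegrable fun y => inner ℝ (L (G (A y))) v := by
      rw [locallyIntegrable_iff] at hLGA ⊢
      intro K hK
      exact (hLGA K hK).inner_const v
    have := h1.integrable_smul_left_of_hasCompactSupport hη1.continuous hc
    simpa [mul_comm] using this
  have P1 : ∫ y, w (A y) * fderiv ℝ η y (L u) = -∫ y, inner ℝ (L (G (A y))) v * η y := by
    have i1 : Integrable (fun q => w (A (S q)) * fderiv ℝ η (S q) (L u)) (volume.prod volume) :=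
      (hS.integrable_comp_emb hE).2 (I (L u))
    have i3 : Integrable (fun q => inner ℝ (L (G (A (S q)))) v * η (S q)) (volume.prod volume) :=
      (hS.integrable_comp_emb hE).2 IG
    rw [← hS.integral_comp hE, ← hS.integral_comp hE (fun y => inner ℝ (L (G (A y))) v * η y),
      integral_prod_symm _ i1, integral_prod_symm _ i3, ← integral_neg]
    refine integral_congr_ae (Eventually.of_forall fun z => ?_)
    show ∫ x, w (A (S (x, z))) * fderiv ℝ η (S (x, z)) (L u)
      = -∫ x, inner ℝ (L (G (A (S (x, z))))) v * η (S (x, z))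
    simp_rw [hAS]
    have h1 := hwG (fun x => η (L x + z))
      (hη.comp ((L.toContinuousLinearMap.contDiff).add contDiff_const)) (cS z) u
    simp_rw [dS] at h1
    have h2 : ∀ x, inner ℝ (L (G x)) v = inner ℝ (G x) u := by
      intro x
      rw [hu, ContinuousLinearMap.adjoint_inner_right]; rfl
    simp_rw [h2]
    exact h1
  simp_rw [split]
  rw [integral_add (I _) (I _), P1, P2, add_zero]
end three

/-- A cylinder over a member of `B_k` is a member of `B_n`. -/
theorem red_inB {n k : ℕ} (L : EuclideanSpace ℝ (Fin k) →ₗᵢ[ℝ] EuclideanSpace ℝ (Fin n)) {p : ℝ}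
    {w : EuclideanSpace ℝ (Fin k) → ℝ}
    {G : EuclideanSpace ℝ (Fin k) → EuclideanSpace ℝ (Fin k)} (h : InB k p w G) :
    InB n p (fun y => w (Ad L y)) (fun y => L (G (Ad L y))) := by
  obtain ⟨hs, hp⟩ := h
  refine ⟨⟨?_, ?_, ?_, ?_, ?_, ?_⟩, ?_⟩
  · exact weakGrad_comp L (sl_mp L) (sl_emb L) w G hs.grad
  · simp only [LinearIsometry.norm_map]
    exact integrable_cyl L (h := fun x => ‖G x‖ ^ 2) hs.fin_grad
  · exact integrable_cyl L (h := fun x => w x ^ 2) hs.fin_sq
  · exact integrable_cyl L (h := fun x => |w x| ^ (p + 1)) hs.fin_pow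
  · intro η hη hc
    exact red_cond1 L hs.cond1 hη hc
  · intro Y hY hc
    exact red_cond2 L hs (fun Z hZ hZc hZ0 g => S5 L Z hZ hZc hZ0 g) hY hc
  · intro y hy
    exact hp _ (red_reg L hy)

end Pool.Agent.FujCyl
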