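import Pool.Agent.FujCyl.Red3

/-!
# The class `B_n` for functions up to null sets, and cylinders over its members

`Reg(w)` of `Pool.Agent.FujCyl.Def` is taken for the function `w` as it stands. Here the regular points are those near
which `w` is almost everywhere equal to a smooth function `v`, and positivity is asked for `v`.
-/

namespace Pool.Agent.FujCyl

open Real Filter Topology MeasureTheory Module
open scoped ContDiff

/-- `v` is smooth near `y` and almost everywhere equal to `w` near `y`. -/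
def SmoothVersion {n : ℕ} (w v : EuclideanSpace ℝ (Fin n) → ℝ) (y : EuclideanSpace ℝ (Fin n)) : Prop :=
  (∀ᶠ z in 𝓝 y, ContDiffAt ℝ ∞ v z) ∧ ∃ U ∈ 𝓝 y, ∀ᵐ z, z ∈ U → v z = w z

/-- `w`, with weak gradient `G`, belongs to `B_n`: it is a suitable weak solution, and it is positive on `Reg(w)`, the
set of the points `y` near which `w` is (almost everywhere equal to) a smooth function `v`: for each such `v` and `y`,
`v(y) > 0`. -/
def ClassB (n : ℕ) (p : ℝ) (w : EuclideanSpace ℝ (Fin n) → ℝ)
    (G : EuclideanSpace ℝ (Fin n) → EuclideanSpace ℝ (Fin n)) : Prop :=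
  Suitable n p w G ∧ ∀ (y : EuclideanSpace ℝ (Fin n)) (v : EuclideanSpace ℝ (Fin n) → ℝ),
    SmoothVersion w v y → 0 < v y

variable {n k : ℕ} (L : EuclideanSpace ℝ (Fin k) →ₗᵢ[ℝ] EuclideanSpace ℝ (Fin n))

/-- The slice of a smooth version of a cylinder is a smooth version of the function. -/
theorem version_slice {w : EuclideanSpace ℝ (Fin k) → ℝ} {v : EuclideanSpace ℝ (Fin n) → ℝ}
    {y : EuclideanSpace ℝ (Fin n)} (h : SmoothVersion (fun y => w (Ad L y)) v y) :
    SmoothVersion w (fun x => v (L x + (y - L (Ad L y)))) (Ad L y) := by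
  obtain ⟨h1, U, hU, h2⟩ := h
  have hmem : y - L (Ad L y) ∈ WW L := by
    rintro _ ⟨u, rfl⟩
    show inner ℝ (L u) _ = 0
    rw [inner_sub_right, L.inner_map_map]
    unfold Ad
    rw [ContinuousLinearMap.adjoint_inner_right]
    simp
  set z0 : WW L := ⟨y - L (Ad L y), hmem⟩ with hz0
  have hy : slmap L (Ad L y, z0) = y := by
    unfold slmap
    simp [hz0]
  have hcont : Continuous (slmap L) := by
    unfold slmap
    exact (L.continuous.comp continuous_fst).add (continuous_subtype_val.comp continuous_snd)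
  have hpre : slmap L ⁻¹' (U ∩ {z | ContDiffAt ℝ ∞ v z}) ∈ 𝓝 (Ad L y, z0) := by
    apply hcont.continuousAt.preimage_mem_nhds
    rw [hy]
    exact inter_mem hU h1
  rw [nhds_prod_eq, mem_prod_iff] at hpre
  obtain ⟨u, hu, u', hu', hsub⟩ := hpre
  have hae : ∀ᵐ q ∂((volume : Measure (EuclideanSpace ℝ (Fin k))).prod (volume : Measure (WW L))),
      slmap L q ∈ U → v (slmap L q) = w q.1 := by
    have := (sl_mp L).quasiMeasurePreserving.ae h2
    filter_upwards [this] with q hq hqU
    rw [hq hqU, Ad_slmap]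
  have hae2 := Measure.ae_ae_of_ae_prod hae
  refine ⟨?_, u, hu, ?_⟩
  · filter_upwards [hu] with x hx
    have h3 : ContDiffAt ℝ ∞ v (L x + (y - L (Ad L y))) :=
      (hsub (Set.mk_mem_prod hx (mem_of_mem_nhds hu'))).2
    exact ContDiffAt.comp (g := v) (f := fun x => L x + (y - L (Ad L y))) x h3
      (L.contDiff.add contDiff_const).contDiffAt
  · filter_upwards [hae2] with x hx hxu
    by_contra hne
    have hc : ContinuousAt (fun z : WW L => v (slmap L (x, z))) z0 := by
      have h3 : ContDiffAt ℝ ∞ v (slmap L (x, z0)) :=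
        (hsub (Set.mk_mem_prod hxu (mem_of_mem_nhds hu'))).2
      have h4 : ContinuousAt (fun z : WW L => slmap L (x, z)) z0 :=
        (hcont.comp (Continuous.prodMk_right x)).continuousAt
      exact ContinuousAt.comp (f := fun z : WW L => slmap L (x, z)) (g := v) h3.continuousAt h4
    have hN : {z : WW L | v (slmap L (x, z)) ≠ w x} ∈ 𝓝 z0 := hc.eventually_ne hne
    have hpos := Measure.measure_pos_of_mem_nhds (volume : Measure (WW L)) (inter_mem hN hu')
    refine hpos.ne' (measure_mono_null ?_ (ae_iff.1 hx))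
    rintro z ⟨hz1, hz2⟩
    rw [Set.mem_ofPred_eq]
    intro hz3
    exact hz1 (hz3 ((hsub (Set.mk_mem_prod hxu hz2)).1))

/-- A cylinder over a member of `B_k` is a member of `B_n`, for functions up to null sets. -/
theorem red_classB {p : ℝ} {w : EuclideanSpace ℝ (Fin k) → ℝ}
    {G : EuclideanSpace ℝ (Fin k) → EuclideanSpace ℝ (Fin k)} (h : ClassB k p w G) :
    ClassB n p (fun y => w (Ad L y)) (fun y => L (G (Ad L y))) := by
  obtain ⟨hs, hp⟩ := h
  refine ⟨⟨?_, ?_, ?_, ?_, ?_, ?_⟩, ?_⟩
  · exact weakGrad_comp L (sl_mp L) (sl_emb L) w G hs.grad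
  · simp only [LinearIsometry.norm_map]
    exact integrable_cyl L (h := fun x => ‖G x‖ ^ 2) hs.fin_grad
  · exact integrable_cyl L (h := fun x => w x ^ 2) hs.fin_sq
  · exact integrable_cyl L (h := fun x => |w x| ^ (p + 1)) hs.fin_pow
  · intro η hη hc
    exact red_cond1 L hs.cond1 hη hc
  · intro Y hY hc
    exact red_cond2 L hs (fun Z hZ hZc hZ0 g => S5 L Z hZ hZc hZ0 g) hY hc
  · intro y v hv
    have h3 := hp _ _ (version_slice L hv)
    have h4 : L (Ad L y) + (y - L (Ad L y)) = y := by abel
    rwa [h4] at h3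

end Pool.Agent.FujCyl
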