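import Pool.Agent.FujCyl.Fin

namespace Pool.Agent.FujCyl

open Real Filter Topology MeasureTheory Module
open scoped ContDiff

variable {n k : ℕ} (L : EuclideanSpace ℝ (Fin k) →ₗᵢ[ℝ] EuclideanSpace ℝ (Fin n))

/-- The adjoint of the isometry. -/
noncomputable def Ad : EuclideanSpace ℝ (Fin n) →L[ℝ] EuclideanSpace ℝ (Fin k) :=
  ContinuousLinearMap.adjoint L.toContinuousLinearMap

/-- The orthogonal complement of the image. -/
noncomputable abbrev WW : Submodule ℝ (EuclideanSpace ℝ (Fin n)) :=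
  (LinearMap.range L.toLinearMap)ᗮ

/-- `(x, z) ↦ L x + z`. -/
noncomputable def slmap (q : EuclideanSpace ℝ (Fin k) × WW L) : EuclideanSpace ℝ (Fin n) :=
  L q.1 + (q.2 : EuclideanSpace ℝ (Fin n))

/-- The slicing map as a measurable equivalence. -/
noncomputable def sleq : EuclideanSpace ℝ (Fin k) × WW L ≃ᵐ EuclideanSpace ℝ (Fin n) :=
  ((MeasurableEquiv.prodCongr (L.equivRange.toHomeomorph.toMeasurableEquiv)
    (MeasurableEquiv.refl (WW L))).trans
    (MeasurableEquiv.toLp 2 (LinearMap.range L.toLinearMap × (LinearMap.range L.toLinearMap)ᗮ))).trans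
    (LinearMap.range L.toLinearMap).orthogonalDecomposition.symm.toHomeomorph.toMeasurableEquiv

theorem sleq_apply (q : EuclideanSpace ℝ (Fin k) × WW L) : sleq L q = slmap L q := by
  unfold sleq slmap
  simp
  rfl

theorem sl_mp : MeasurePreserving (slmap L) (volume.prod volume) volume := by
  have h1 : MeasurePreserving (fun q : EuclideanSpace ℝ (Fin k) × WW L => (L.equivRange q.1, q.2))
      (volume.prod volume) (volume.prod volume) :=
    (L.equivRange.measurePreserving).prod (MeasurePreserving.id _)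
  have h2 := WithLp.volume_preserving_toLp (LinearMap.range L.toLinearMap)
    ((LinearMap.range L.toLinearMap)ᗮ : Submodule ℝ (EuclideanSpace ℝ (Fin n)))
  have h3 := (LinearMap.range L.toLinearMap).orthogonalDecomposition.symm.measurePreserving
  have h4 := h3.comp (h2.comp h1)
  have e : slmap L = (LinearMap.range L.toLinearMap).orthogonalDecomposition.symm ∘
      WithLp.toLp 2 ∘ fun q : EuclideanSpace ℝ (Fin k) × WW L => (L.equivRange q.1, q.2) := by
    funext q
    simp [slmap]
    try rfl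
  rw [e]
  exact h4

theorem sl_emb : MeasurableEmbedding (slmap L) := by
  have : slmap L = sleq L := (funext (sleq_apply L)).symm
  rw [this]
  exact (sleq L).measurableEmbedding

theorem Ad_L (x : EuclideanSpace ℝ (Fin k)) : Ad L (L x) = x := by
  refine ext_inner_left ℝ fun v => ?_
  unfold Ad
  rw [ContinuousLinearMap.adjoint_inner_right]
  exact L.inner_map_map v x

theorem Ad_W (z : WW L) : Ad L (z : EuclideanSpace ℝ (Fin n)) = 0 := by
  refine ext_inner_left ℝ fun v => ?_
  unfold Ad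
  rw [ContinuousLinearMap.adjoint_inner_right, inner_zero_right]
  exact z.2 (L v) ⟨v, rfl⟩

theorem Ad_slmap (q : EuclideanSpace ℝ (Fin k) × WW L) : Ad L (slmap L q) = q.1 := by
  unfold slmap
  rw [map_add, Ad_L, Ad_W, add_zero]

theorem inner_LW (x : EuclideanSpace ℝ (Fin k)) (z : WW L) :
    inner ℝ (L x) (z : EuclideanSpace ℝ (Fin n)) = 0 := z.2 (L x) ⟨x, rfl⟩

theorem norm_slmap (q : EuclideanSpace ℝ (Fin k) × WW L) :
    ‖slmap L q‖ ^ 2 = ‖q.1‖ ^ 2 + ‖q.2‖ ^ 2 := by
  unfold slmap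
  rw [norm_add_sq_real, inner_LW, L.norm_map]
  simp

theorem exp_slmap (q : EuclideanSpace ℝ (Fin k) × WW L) :
    exp (-‖slmap L q‖ ^ 2 / 4) = exp (-‖q.1‖ ^ 2 / 4) * exp (-‖q.2‖ ^ 2 / 4) := by
  rw [norm_slmap, ← exp_add]
  congr 1
  ring

theorem int_slice (f : EuclideanSpace ℝ (Fin n) → ℝ) :
    ∫ y, f y = ∫ q, f (slmap L q) ∂((volume : Measure (EuclideanSpace ℝ (Fin k))).prod
      (volume : Measure (WW L))) :=
  ((sl_mp L).integral_comp (sl_emb L) f).symm

theorem integrable_slice (f : EuclideanSpace ℝ (Fin n) → ℝ) :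
    Integrable f ↔ Integrable (fun q => f (slmap L q))
      ((volume : Measure (EuclideanSpace ℝ (Fin k))).prod (volume : Measure (WW L))) :=
  ((sl_mp L).integrable_comp_emb (sl_emb L)).symm

theorem dim_WW : (k : ℝ) + finrank ℝ (WW L) = n := by
  have h1 := (LinearMap.range L.toLinearMap).finrank_add_finrank_orthogonal
  rw [finrank_euclideanSpace_fin] at h1
  have h2 : finrank ℝ (LinearMap.range L.toLinearMap) = k := by
    rw [LinearMap.finrank_range_of_inj L.injective, finrank_euclideanSpace_fin]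
  rw [h2] at h1
  exact_mod_cast h1

theorem int_W : ∫ z : WW L, exp (-‖z‖ ^ 2 / 4) = (4 * π) ^ ((finrank ℝ (WW L) : ℝ) / 2) := by
  have h1 : ∀ z : WW L, exp (-‖z‖ ^ 2 / 4) = exp (-(1 / 4) * ‖z‖ ^ 2) := by
    intro z
    congr 1
    ring
  simp_rw [h1]
  rw [GaussianFourier.integral_rexp_neg_mul_sq_norm (by norm_num), show π / (1 / 4) = 4 * π by ring]

theorem integrable_W : Integrable (fun z : WW L => exp (-‖z‖ ^ 2 / 4)) := by
  by_contra h
  have h1 := integral_undef h
  rw [int_W] at h1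
  have h2 : 0 < (4 * π) ^ ((finrank ℝ (WW L) : ℝ) / 2) := by positivity
  linarith

/-- The integral of a function of `A y` against the weight. -/
theorem int_cyl (h : EuclideanSpace ℝ (Fin k) → ℝ) :
    ∫ y, h (Ad L y) * rho n y = ∫ x, h x * rho k x := by
  rw [int_slice L]
  have e : ∀ q : EuclideanSpace ℝ (Fin k) × WW L, h (Ad L (slmap L q)) * rho n (slmap L q) =
      (h q.1 * rho k q.1) * ((4 * π) ^ (-(finrank ℝ (WW L) : ℝ) / 2) * exp (-‖q.2‖ ^ 2 / 4)) := by
    intro q
    have e2 : (4 * π) ^ (-(n : ℝ) / 2) =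
        (4 * π) ^ (-(k : ℝ) / 2) * (4 * π) ^ (-(finrank ℝ (WW L) : ℝ) / 2) := by
      rw [← rpow_add (by positivity), ← dim_WW L]
      congr 1
      ring
    unfold rho
    rw [Ad_slmap, exp_slmap, e2]
    ring
  simp_rw [e]
  rw [integral_prod_mul (fun x => h x * rho k x)
    (fun z : WW L => (4 * π) ^ (-(finrank ℝ (WW L) : ℝ) / 2) * exp (-‖z‖ ^ 2 / 4)),
    integral_const_mul, int_W, ← rpow_add (by positivity)]
  rw [show -(finrank ℝ (WW L) : ℝ) / 2 + (finrank ℝ (WW L) : ℝ) / 2 = 0 by ring, rpow_zero, mul_one]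

theorem integrable_cyl {h : EuclideanSpace ℝ (Fin k) → ℝ}
    (hh : Integrable (fun x => h x * exp (-‖x‖ ^ 2 / 4))) :
    Integrable (fun y => h (Ad L y) * exp (-‖y‖ ^ 2 / 4)) := by
  rw [integrable_slice L]
  refine (hh.mul_prod (integrable_W L)).congr (Eventually.of_forall fun q => ?_)
  dsimp only
  rw [Ad_slmap, exp_slmap]
  ring

/-- The energy of a cylinder. -/
theorem energy_cylinder (p : ℝ) (w : EuclideanSpace ℝ (Fin k) → ℝ)
    (G : EuclideanSpace ℝ (Fin k) → EuclideanSpace ℝ (Fin k)) :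
    energy n p (fun y => w (Ad L y)) (fun y => L (G (Ad L y))) = energy k p w G := by
  unfold energy
  simp only [LinearIsometry.norm_map]
  rw [int_cyl L (fun x => ‖G x‖ ^ 2), int_cyl L (fun x => w x ^ 2),
    int_cyl L (fun x => |w x| ^ (p + 1))]

/-- A vanishing family of slice integrals. -/
theorem int_zero_of_slices (f : EuclideanSpace ℝ (Fin n) → ℝ)
    (h : ∀ z : WW L, ∫ x, f (slmap L (x, z)) = 0) : ∫ y, f y = 0 := by
  by_cases hf : Integrable f
  · rw [int_slice L, integral_prod_symm _ ((integrable_slice L f).1 hf)]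
    simp only [h, integral_zero]
  · exact integral_undef hf

end Pool.Agent.FujCyl
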